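import Pool.Agent.Lib.MP_a05470_co.TF.HostL
import Pool.Agent.Lib.MP_a05470_co.NF

/-!
# The final hosting

The vertices outside the critical set `X` have their places `φ`, some vertices of `X` have exterior
places `e`, at most one in every component, and the rest of `X` is placed on `A`.
-/

set_option autoImplicit false
set_option linter.unusedSectionVars false

namespace Pool.Agent.Lib.MP_a05470_co

open Finset Classical JT

namespace FIN

variable {V : Type} [Fintype V] {R : SimpleGraph V} {X : Finset V}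

theorem mem_cmp {x : V} (hx : x ∈ X) : x ∈ cmp R X x :=
  mem_filter.2 ⟨hx, SimpleGraph.Reachable.refl _⟩

theorem cmp_mem {x : V} (hx : x ∈ X) : cmp R X x ∈ cmps R X := mem_image_of_mem _ hx

theorem cmp_eq {x : V} {P : Finset V} (hP : P ∈ cmps R X) (hx : x ∈ P) : cmp R X x = P := by
  by_contra hne
  exact Finset.disjoint_left.1 (cmps_sep (cmp_mem (cmps_sub hP hx)) hP hne).1
    (mem_cmp (cmps_sub hP hx)) hx

/-- **The final hosting.** -/
theorem fin_host [Nonempty V] {T : Type} [Fintype T] {Gr Gb : SimpleGraph T} {C : ℕ} (hX : Crit R X)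
    (hC : X.card = C + th R X) {A : Finset T} (hA : HL.Places Gr Gb A)
    (hAc : 2 * C + 1 ≤ A.card) {φ : V → T}
    (hφ : ∀ m, m ∉ X → ∀ m', m' ∉ X → m ≠ m' → Gr.Adj (φ m) (φ m') ∧ Gb.Adj (φ m) (φ m'))
    (hφA : ∀ m, m ∉ X → ∀ y ∈ A, Gr.Adj (φ m) y ∧ Gb.Adj (φ m) y)
    {Ext KT : Finset V} {e : V → T} (hE : Ext ⊆ X) (hK : KT ⊆ Ext)
    (hK2 : ∀ x ∈ KT, 2 ≤ (cmp R X x).card)
    (hcard : (X \ Ext).card ≤ A.card)
    (hone : ∀ x ∈ Ext, ∀ y ∈ Ext, x ≠ y → cmp R X x ≠ cmp R X y)
    (htight : ∀ x ∈ Ext, 2 ≤ (cmp R X x).card → ∃ c, TightPiece R (cmp R X x) c)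
    (heb : ∀ x ∈ Ext, ∀ y ∈ Ext, x ≠ y → Gb.Adj (e x) (e y))
    (heA : ∀ x ∈ Ext, ∀ z ∈ A, Gb.Adj (e x) z)
    (hok : ∀ m, m ∉ X → ∀ x ∈ Ext, (R.Adj m x → Gr.Adj (φ m) (e x)) ∧
      (¬ R.Adj m x → Gb.Adj (φ m) (e x)))
    (hf4 : ∀ x ∈ KT, (A.filter (fun z => ¬ Gr.Adj (e x) z)).card ≤ 4)
    (hf1 : ∀ x ∈ Ext, x ∉ KT → 2 ≤ (cmp R X x).card →
      (A.filter (fun z => ¬ Gr.Adj (e x) z)).card ≤ 1)
    (hfree : KT = ∅ ∨ ∃ P ∈ cmps R X, 2 ≤ P.card ∧ Disjoint P KT) :
    Contains R Rᶜ Gr Gb := by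
  set EX := Ext.filter (fun x => 2 ≤ (cmp R X x).card) with hEX
  have hEXE : EX ⊆ Ext := filter_subset _ _
  have hKEX : KT ⊆ EX := fun x hx => mem_filter.2 ⟨hK hx, hK2 x hx⟩
  set J : Finset (Finset V) := EX.image (cmp R X) with hJ
  set J4 : Finset (Finset V) := KT.image (cmp R X) with hJ4
  set J1 := J \ J4 with hJ1
  have hJ4J : J4 ⊆ J := image_subset_image hKEX
  have hJu : J4 ∪ J1 = J := by
    rw [hJ1, union_sdiff_of_subset hJ4J]
  have hJd : Disjoint J4 J1 := disjoint_sdiff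
  have hJc : ∀ P ∈ J, P ∈ cmps R X := by
    intro P hP
    obtain ⟨x, hx, rfl⟩ := mem_image.1 hP
    exact cmp_mem (hE (hEXE hx))
  -- the exterior vertex and the size of a piece
  have hxx : ∀ P ∈ J, ∃ x, x ∈ EX ∧ cmp R X x = P := by
    intro P hP
    obtain ⟨x, hx, h⟩ := mem_image.1 hP
    exact ⟨x, hx, h⟩
  choose! xx hx1 hx2 using hxx
  have hcc : ∀ P ∈ J, ∃ c, TightPiece R P c := by
    intro P hP
    have h1 := htight (xx P) (hEXE (hx1 P hP)) (mem_filter.1 (hx1 P hP)).2
    rw [hx2 P hP] at h1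
    exact h1
  choose! c hc using hcc
  have hxP : ∀ P ∈ J, xx P ∈ P := by
    intro P hP
    have h1 : xx P ∈ cmp R X (xx P) := mem_cmp (R := R) (hE (hEXE (hx1 P hP)))
    rwa [hx2 P hP] at h1
  have hxuniq : ∀ x ∈ EX, xx (cmp R X x) = x := by
    intro x hx
    have hP : cmp R X x ∈ J := mem_image_of_mem _ hx
    by_contra hne
    exact hone _ (hEXE (hx1 _ hP)) x (hEXE hx) hne (hx2 _ hP)
  set Q := (X \ Ext) \ J.biUnion id with hQ
  have hsepJ : ∀ P ∈ J, ∀ P' ∈ J, P ≠ P' → Sep R P P' := fun P hP P' hP' hne =>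
    cmps_sep (hJc P hP) (hJc P' hP') hne
  have hsepX : ∀ P ∈ J, Sep R P (X \ P) := by
    intro P hP
    refine ⟨disjoint_sdiff, fun x hx y hy hadj => ?_⟩
    rw [mem_sdiff] at hy
    exact hy.2 (cmps_closed (hJc P hP) hx hy.1 hadj)
  have hPX : ∀ P ∈ J, P ⊆ X := fun P hP => cmps_sub (hJc P hP)
  have hdisJ : ∀ P ∈ J, ∀ P' ∈ J, P ≠ P' → Disjoint P P' := fun P hP P' hP' hne =>
    (hsepJ P hP P' hP' hne).1
  have hQX : Q ⊆ X \ J.biUnion id := by
    intro x hx
    rw [hQ, mem_sdiff, mem_sdiff] at hx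
    exact mem_sdiff.2 ⟨hx.1.1, hx.2⟩
  -- the sizes
  have hdeg0 := HL.rest_degree (R := R) (P := id) (J := J) (c := c) (C := C) hX hC.le
    (fun P hP => hPX P hP) (fun P hP => hc P hP) (fun P hP => hsepX P hP)
    (fun P hP P' hP' hne => hdisJ P hP P' hP' hne) hQX
  have hCJ : ∑ P ∈ J, c P ≤ C := by
    obtain ⟨_, h2, h3⟩ := HL.crit_rest (R := R) (P := id) (J := J) hX (fun P hP => hPX P hP)
      (fun P hP => hsepX P hP) (fun P hP P' hP' hne => hdisJ P hP P' hP' hne)
    have h4 : ∑ j ∈ J, (id j : Finset V).card = ∑ j ∈ J, c j + ∑ j ∈ J, th R (id j) := by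
      rw [← sum_add_distrib]
      refine sum_congr rfl (fun j hj => ?_)
      rw [id, (hc j hj).card, (hc j hj).theta]
      omega
    have h5 := th_le_card (R := R) (X \ J.biUnion id)
    omega
  obtain ⟨C', hC'⟩ : ∃ C', C = C' + ∑ P ∈ J, c P := ⟨C - ∑ P ∈ J, c P, by omega⟩
  have hmore : J4.Nonempty → 2 ≤ C' + ∑ P ∈ J1, c P := by
    intro hne
    rcases hfree with h1 | ⟨P, hP, hP2, hPK⟩
    · rw [hJ4, h1] at hne
      simp at hne
    have hP4 : P ∉ J4 := by
      intro h
      obtain ⟨x, hx, hxP'⟩ := mem_image.1 h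
      have h1 : x ∈ P := by
        rw [← hxP']
        exact mem_cmp (hE (hK hx))
      exact Finset.disjoint_left.1 hPK h1 hx
    obtain ⟨cP, hcP1, hcP2, hcP3⟩ := cmps_data hX hP
    have hcP4 : 2 ≤ cP := by
      rcases hcP3 with h1 | h1
      · exfalso
        obtain ⟨x, hx⟩ := cmps_ne hP
        rw [h1] at hcP1
        -- a set with clique cover number one and critical is a single vertex
        have h2 := cmps_crit hX hP x hx
        rw [hcP1] at h2
        have h3 : th R (P.erase x) = 0 := by omega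
        have h4 : (P.erase x).Nonempty := by
          rw [← card_pos, card_erase_of_mem hx]
          omega
        have h5 : 0 < th R (P.erase x) := by
          obtain ⟨y, hy⟩ := h4
          have h6 := th_mono (R := R) (singleton_subset_iff.2 hy)
          rw [th_singleton] at h6
          omega
        omega
      · exact h1
    by_cases hPJ : P ∈ J
    · have h1 : P ∈ J1 := mem_sdiff.2 ⟨hPJ, hP4⟩
      have h2 : c P ≤ ∑ P ∈ J1, c P := single_le_sum (fun _ _ => Nat.zero_le _) h1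
      have h3 : c P = cP := by
        have := (hc P hPJ).theta
        omega
      omega
    · -- the piece is in the rest
      have hiX : ∀ P' ∈ insert P J, P' ∈ cmps R X := by
        intro P' hP'
        rcases mem_insert.1 hP' with rfl | h
        · exact hP
        · exact hJc P' h
      obtain ⟨_, h2, h3⟩ := HL.crit_rest (R := R) (P := id) (J := insert P J) hX
        (fun P' hP' => cmps_sub (hiX P' hP'))
        (fun P' hP' => ⟨disjoint_sdiff, fun x hx y hy hadj => by
          rw [mem_sdiff] at hy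
          exact hy.2 (cmps_closed (hiX P' hP') hx hy.1 hadj)⟩)
        (fun P1 h1 P2 h2 hne => (cmps_sep (hiX P1 h1) (hiX P2 h2) hne).1)
      rw [sum_insert hPJ] at h2 h3
      have h4 : ∑ j ∈ J, (id j : Finset V).card = ∑ j ∈ J, c j + ∑ j ∈ J, th R (id j) := by
        rw [← sum_add_distrib]
        refine sum_congr rfl (fun j hj => ?_)
        rw [id, (hc j hj).card, (hc j hj).theta]
        omega
      have h5 := th_le_card (R := R) (X \ (insert P J).biUnion id)
      have h6 : (id P : Finset V) = P := rfl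
      rw [h6] at h2 h3
      omega
  have hQcard : Q.card + ∑ P ∈ J, 2 * c P ≤ (X \ Ext).card := by
    have h1 : Q ∪ J.biUnion (fun P => P.erase (xx P)) ⊆ X \ Ext := by
      intro v hv
      rw [mem_union, mem_biUnion] at hv
      rcases hv with hv | ⟨P, hP, hv⟩
      · exact (mem_sdiff.1 hv).1
      · rw [mem_erase] at hv
        refine mem_sdiff.2 ⟨hPX P hP hv.2, fun hvE => hv.1 ?_⟩
        have h2 : v ∈ EX := by
          refine mem_filter.2 ⟨hvE, ?_⟩
          rw [cmp_eq (hJc P hP) hv.2, ← hx2 P hP]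
          exact (mem_filter.1 (hx1 P hP)).2
        rw [← hxuniq v h2, cmp_eq (hJc P hP) hv.2]
    have h2 := card_le_card h1
    rw [card_union_of_disjoint, card_biUnion] at h2
    · have h3 : ∑ P ∈ J, (P.erase (xx P)).card = ∑ P ∈ J, 2 * c P := by
        refine sum_congr rfl (fun P hP => ?_)
        rw [card_erase_of_mem (hxP P hP), (hc P hP).card]
        omega
      omega
    · intro P hP P' hP' hne
      exact Disjoint.mono (erase_subset _ _) (erase_subset _ _) (hdisJ P hP P' hP' hne)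
    · rw [Finset.disjoint_left]
      intro v hv hv'
      rw [mem_biUnion] at hv'
      obtain ⟨P, hP, hv'⟩ := hv'
      exact (mem_sdiff.1 hv).2 (mem_biUnion.2 ⟨P, hP, (mem_erase.1 hv').2⟩)
  apply HL.host_all hA hJd (P := id) (x := xx) (c := c)
    (f := fun P => A.filter (fun z => ¬ Gr.Adj (e (xx P)) z)) (Q := Q) (C := C')
    (E := (univ \ X) ∪ Ext) (φ0 := fun v => if v ∈ X then e v else φ v)
  · rw [hJu]
    exact fun P hP => hc P hP
  · rw [hJu]
    exact fun P hP => hxP P hP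
  · rw [hJu]
    exact fun P hP P' hP' hne => hsepJ P hP P' hP' hne
  · rw [hJu]
    intro P hP
    refine ⟨?_, ?_⟩
    · rw [Finset.disjoint_left]
      intro v hv hv'
      exact (mem_sdiff.1 hv).2 (mem_biUnion.2 ⟨P, hP, hv'⟩)
    · intro v hv y hy hadj
      have hvX : v ∈ X := (mem_sdiff.1 (hQX hv)).1
      have h1 := cmps_closed (hJc P hP) hy hvX hadj.symm
      exact (mem_sdiff.1 hv).2 (mem_biUnion.2 ⟨P, hP, h1⟩)
  · intro v hv
    have := hdeg0 v hv
    omega
  · intro P hP
    obtain ⟨x, hx, rfl⟩ := mem_image.1 hP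
    simp only [hxuniq x (hKEX hx)]
    exact hf4 x hx
  · intro P hP
    rw [hJ1, mem_sdiff] at hP
    obtain ⟨x, hx, rfl⟩ := mem_image.1 hP.1
    simp only [hxuniq x hx]
    exact hf1 x (hEXE hx) (fun h => hP.2 (mem_image_of_mem _ h)) (mem_filter.1 hx).2
  · exact hmore
  · rw [hJu]
    omega
  · rw [hJu]
    omega
  · rw [hJu]
    intro v
    by_cases hvX : v ∈ X
    · by_cases hvE : v ∈ Ext
      · exact Or.inl (mem_union_right _ hvE)
      · right
        by_cases hvJ : v ∈ J.biUnion id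
        · obtain ⟨P, hP, hvP⟩ := mem_biUnion.1 hvJ
          exact Or.inr ⟨P, hP, hvP, fun h => hvE (h ▸ hEXE (hx1 P hP))⟩
        · exact Or.inl (mem_sdiff.2 ⟨mem_sdiff.2 ⟨hvX, hvE⟩, hvJ⟩)
    · exact Or.inl (mem_union_left _ (mem_sdiff.2 ⟨mem_univ _, hvX⟩))
  · intro v hv w hw hvw
    have hcase : ∀ v, v ∈ (univ \ X) ∪ Ext → v ∉ X ∨ v ∈ Ext := by
      intro v hv
      rw [mem_union, mem_sdiff] at hv
      rcases hv with hv | hv
      · exact Or.inl hv.2
      · exact Or.inr hv
    rcases hcase v hv with h1 | h1 <;> rcases hcase w hw with h2 | h2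
    · simp only [if_neg h1, if_neg h2]
      have h3 := hφ v h1 w h2 hvw
      exact ⟨fun _ => h3.1, fun _ => h3.2⟩
    · simp only [if_neg h1, if_pos (hE h2)]
      exact hok v h1 w h2
    · simp only [if_pos (hE h1), if_neg h2]
      have h3 := hok w h2 v h1
      exact ⟨fun h => (h3.1 h.symm).symm, fun h => (h3.2 (fun h' => h h'.symm)).symm⟩
    · simp only [if_pos (hE h1), if_pos (hE h2)]
      refine ⟨fun h => ?_, fun _ => heb v h1 w h2 hvw⟩
      exfalso
      have h3 := cmps_closed (cmp_mem (hE h1)) (mem_cmp (hE h1)) (hE h2) h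
      exact hone v h1 w h2 hvw (cmp_eq (cmp_mem (hE h1)) h3).symm
  · intro v hv z hz
    rw [mem_union, mem_sdiff] at hv
    rcases hv with hv | hv
    · simp only [if_neg hv.2]
      exact (hφA v hv.2 z hz).2
    · simp only [if_pos (hE hv)]
      exact heA v hv z hz
  · rw [hJu]
    intro v hv w hw hvw
    have hw' : w ∈ X ∧ w ∉ Ext := by
      rw [mem_union, mem_sdiff, not_or] at hw
      refine ⟨?_, hw.2⟩
      by_contra hcon
      exact hw.1 ⟨mem_univ _, hcon⟩
    rw [mem_union, mem_sdiff] at hv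
    by_cases hvX : v ∈ X
    · have hvE : v ∈ Ext := by
        rcases hv with hv | hv
        · exact absurd hvX hv.2
        · exact hv
      right
      have h3 := cmps_closed (cmp_mem hvX) (mem_cmp hvX) hw'.1 hvw
      have h4 : v ∈ EX := by
        refine mem_filter.2 ⟨hvE, ?_⟩
        have h5 : ({v, w} : Finset V) ⊆ cmp R X v := by
          intro y hy
          rw [mem_insert, mem_singleton] at hy
          rcases hy with rfl | rfl
          · exact mem_cmp hvX
          · exact h3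
        have h6 := card_le_card h5
        rwa [card_pair hvw.ne] at h6
      refine ⟨cmp R X v, mem_image_of_mem _ h4, h3, ?_, ?_⟩
      · rw [hxuniq v h4]
        exact fun h => hw'.2 (h ▸ hvE)
      · simp only [hxuniq v h4, if_pos hvX]
        intro z hz hzf
        by_contra hcon
        exact hzf (mem_filter.2 ⟨hz, hcon⟩)
    · left
      simp only [if_neg hvX]
      exact fun z hz => (hφA v hvX z hz).1

end FIN

end Pool.Agent.Lib.MP_a05470_co
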