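import Pool.Agent.Lib.MP_a05470_co.NF

/-!
# The normal form for the full theorem: a critical set and a maximum matching
-/

set_option autoImplicit false
set_option linter.unusedSectionVars false

namespace Pool.Agent.Lib.MP_a05470_co

open Finset Classical

namespace JT

variable {V : Type} [Fintype V]

/-- the tight components of `X` -/
noncomputable def Tt (R : SimpleGraph V) (X : Finset V) : Finset (Finset V) :=
  (cmps R X).filter (fun C => C.card + 1 = 2 * th R C)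

/-- a critical set `X` and a maximum red matching of the other vertices into different tight
components of `X`: `M1` is matched to trivial components, `M2` to nontrivial ones -/
structure NF3 (R : SimpleGraph V) (a g C : ℕ) (X M1 M2 N : Finset V) (w : V → V) : Prop where
  crit : Crit R X
  thX : th R X = a + g + 1
  cardX : X.card = C + (a + g + 1)
  cover : ∀ v, v ∈ X ∨ v ∈ M1 ∪ M2 ∪ N
  dX : Disjoint X (M1 ∪ M2 ∪ N)
  d12 : Disjoint M1 M2
  d1N : Disjoint M1 N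
  d2N : Disjoint M2 N
  card : M1.card + M2.card + N.card + C = a
  wX : ∀ u ∈ M1 ∪ M2, w u ∈ X
  adj : ∀ u ∈ M1 ∪ M2, R.Adj u (w u)
  iso : ∀ u ∈ M1, cmp R X (w u) = {w u}
  tight : ∀ u ∈ M2, cmp R X (w u) ∈ Tt R X ∧ 2 ≤ (cmp R X (w u)).card
  inj : ∀ u ∈ M1 ∪ M2, ∀ v ∈ M1 ∪ M2, u ≠ v → cmp R X (w u) ≠ cmp R X (w v)
  blueN : ∀ u ∈ N, ∀ P ∈ Tt R X, (∀ v ∈ M1 ∪ M2, cmp R X (w v) ≠ P) → ∀ x ∈ P, ¬ R.Adj u x
  blueM : ∀ u ∈ M2 ∪ N, ∀ x ∈ X, cmp R X x = {x} → (∀ v ∈ M1, w v ≠ x) → ¬ R.Adj u x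
  num : g + 1 + N.card ≤
    ((Tt R X).filter (fun P => ∀ v ∈ M1 ∪ M2, cmp R X (w v) ≠ P)).card
  hmax : ∀ (M : Finset V) (f : V → Finset V), (∀ u ∈ M, u ∉ X) → Set.InjOn f M →
    (∀ u ∈ M, f u ∈ Tt R X ∧ ∃ h ∈ f u, R.Adj u h) → M.card ≤ M1.card + M2.card

end JT

end Pool.Agent.Lib.MP_a05470_co
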