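import Pool.Agent.Lib.MP_a05470_co.FP.PicksM
import Pool.Agent.Lib.MP_a05470_co.FP.Fin
import Pool.Agent.Lib.MP_a05470_co.FP.NF3

/-!
# Case beta1: all hits are in the family
-/

set_option autoImplicit false
set_option linter.unusedSectionVars false

namespace Pool.Agent.Lib.MP_a05470_co

open Finset Classical

namespace JT

variable {V : Type} [Fintype V] {R : SimpleGraph V} {X : Finset V}

theorem Tt_tight (hX : Crit R X) {P : Finset V} (hP : P ∈ Tt R X) : ∃ c, TightPiece R P c := by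
  obtain ⟨hP1, hP2⟩ := mem_filter.1 hP
  obtain ⟨c, h1, h2, h3⟩ := cmps_data hX hP1
  rw [h1] at hP2
  exact ⟨c, by omega, cmps_preconn hP1, cmps_crit hX hP1, h1, h3⟩

theorem Tt_cmps {P : Finset V} (hP : P ∈ Tt R X) : P ∈ cmps R X := (mem_filter.1 hP).1

theorem singleton_Tt {x : V} (hx : x ∈ X) (h : cmp R X x = {x}) : cmp R X x ∈ Tt R X := by
  refine mem_filter.2 ⟨mem_image_of_mem _ hx, ?_⟩
  rw [h, card_singleton, th_singleton]

theorem cmp_self {x : V} (hx : x ∈ X) : x ∈ cmp R X x :=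
  mem_filter.2 ⟨hx, SimpleGraph.Reachable.refl _⟩

namespace NF3

variable {a g C : ℕ} {M1 M2 N : Finset V} {w : V → V}

theorem w_inj (h : NF3 R a g C X M1 M2 N w) : Set.InjOn w (M1 ∪ M2 : Finset V) := by
  intro u hu v hv huv
  by_contra hne
  exact h.inj u (mem_coe.1 hu) v (mem_coe.1 hv) hne (by rw [huv])

theorem cmp_Tt (h : NF3 R a g C X M1 M2 N w) {u : V} (hu : u ∈ M1 ∪ M2) :
    cmp R X (w u) ∈ Tt R X := by
  rcases mem_union.1 hu with h1 | h1
  · exact singleton_Tt (h.wX u hu) (h.iso u h1)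
  · exact (h.tight u h1).1

theorem mem_out (h : NF3 R a g C X M1 M2 N w) {m : V} (hm : m ∉ X) : m ∈ M1 ∪ M2 ∪ N :=
  (h.cover m).resolve_left hm

theorem not_X (h : NF3 R a g C X M1 M2 N w) {m : V} (hm : m ∈ M1 ∪ M2 ∪ N) : m ∉ X := fun hX =>
  Finset.disjoint_left.1 h.dX hX hm

end NF3

end JT

namespace LM

open L1 JT

variable {W : Type} [Fintype W] {Gr Gb : SimpleGraph W} {F Xb K U : Finset W} {mt : W → W}

/-- sets of places -/
theorem Host.places (hH : Host Gr Gb F Xb K mt) {A : Finset W} (hA : A ⊆ F \ Xb) :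
    HL.Places Gr Gb A := by
  constructor
  · exact fun x hx y hy hxy => hH.FF_blue (hA hx) (hA hy) hxy
  · intro x hx y hy z hz hxy hxz h1 h2
    exact hH.good.uniq x (mem_sdiff.1 (hA hx)).1 y (mem_sdiff.1 (hA hy)).1 z
      (mem_sdiff.1 (hA hz)).1 hxy hxz (fun h => h1 h.1) (fun h => h2 h.1)

/-- a vertex of the family has at most one non-red partner in it -/
theorem Host.nonred_one (hH : Host Gr Gb F Xb K mt) {A : Finset W} (hA : A ⊆ F) {y : W}
    (hy : y ∈ F) (hyA : y ∉ A) : (A.filter (fun z => ¬ Gr.Adj y z)).card ≤ 1 := by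
  rw [card_le_one]
  intro z hz z' hz'
  rw [mem_filter] at hz hz'
  exact hH.good.uniq y hy z (hA hz.1) z' (hA hz'.1) (fun h => hyA (h ▸ hz.1))
    (fun h => hyA (h ▸ hz'.1)) (fun h => hz.2 h.1) (fun h => hz'.2 h.1)

/-- **Case beta1.** -/
theorem beta1 [Nonempty W] {V : Type} [Fintype V] {R : SimpleGraph V} {a g C : ℕ}
    {X M1 M2 N : Finset V} {w : V → V} (hN : NF3 R a g C X M1 M2 N w)
    (hH : Host Gr Gb F Xb K mt) {Ku : Finset W} (hKu : Ku ⊆ K)
    (hlight : ∀ z ∈ Ku, (hit Gr Gb z F).card ≤ 4)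
    (hXU : Xb ⊆ U) (hUc : U.card = M1.card + M2.card + N.card)
    (hUg : ∀ u ∈ U, ∀ v ∈ U, u ≠ v → Gn Gr Gb u v) (hUK : ∀ z ∈ K, ∀ u ∈ U, Gn Gr Gb u z)
    (hP : TR.Picks (fun u => hit Gr Gb u ((F \ Xb) ∪ K)) U Gr.Adj Gb.Adj
      (cc Gr Gb a (a + g) F Xb K) (Free Gr Gb F Xb K) (F \ Xb) Xb (Nm Gr Gb F))
    (hr : Xb.card ≤ M1.card + M2.card) (hkg : Ku.card ≤ g)
    (hkp : Ku.card < ((cmps R X).filter (fun P => 2 ≤ P.card)).card)
    (hcount : (X.card : ℤ) + ∑ u ∈ U, cc Gr Gb a (a + g) F Xb K u ≤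
      ((F \ Xb).card : ℤ) + Ku.card)
    (hA : 2 * C + 1 ≤ ((F \ Xb) \ U.biUnion (fun u => hit Gr Gb u ((F \ Xb) ∪ K))).card) :
    Contains R Rᶜ Gr Gb := by
  -- representatives of the unmatched tight components
  set um := (Tt R X).filter (fun P => ∀ v ∈ M1 ∪ M2, cmp R X (w v) ≠ P) with hum
  have humX : ∀ P ∈ um, ∃ x, x ∈ P := by
    intro P hP
    exact cmps_ne (Tt_cmps (mem_filter.1 hP).1)
  have hcmpne : (cmps R X).Nonempty := by
    have h1 : 0 < ((cmps R X).filter (fun P => 2 ≤ P.card)).card := by omega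
    obtain ⟨P, hP⟩ := card_pos.1 h1
    exact ⟨P, (mem_filter.1 hP).1⟩
  have : Nonempty V := by
    obtain ⟨P, hP⟩ := hcmpne
    exact ⟨(cmps_ne hP).choose⟩
  choose! rp hrp using humX
  have humT : ∀ P ∈ um, P ∈ Tt R X := fun P hP => (mem_filter.1 hP).1
  have hrpX : ∀ P ∈ um, rp P ∈ X := fun P hP => cmps_sub (Tt_cmps (humT P hP)) (hrp P hP)
  have hrpc : ∀ P ∈ um, cmp R X (rp P) = P := fun P hP =>
    FIN.cmp_eq (Tt_cmps (humT P hP)) (hrp P hP)
  have hrpi : Set.InjOn rp um := by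
    intro P hP P' hP' h
    rw [mem_coe] at hP hP'
    rw [← hrpc P hP, ← hrpc P' hP', h]
  set Wst := um.image rp with hWst
  have hWc : g + 1 + N.card ≤ Wst.card := by
    rw [hWst, card_image_of_injOn hrpi]
    exact hN.num
  have hWX : Wst ⊆ X := by
    intro x hx
    obtain ⟨P, hP, rfl⟩ := mem_image.1 hx
    exact hrpX P hP
  have hWum : ∀ x ∈ Wst, cmp R X x ∈ um := by
    intro x hx
    obtain ⟨P, hP, rfl⟩ := mem_image.1 hx
    rw [hrpc P hP]
    exact hP
  have hWi : ∀ x ∈ Wst, ∀ y ∈ Wst, cmp R X x = cmp R X y → x = y := by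
    intro x hx y hy h
    obtain ⟨P, hP, rfl⟩ := mem_image.1 hx
    obtain ⟨P', hP', rfl⟩ := mem_image.1 hy
    rw [hrpc P hP, hrpc P' hP'] at h
    rw [h]
  have hWM : ∀ x ∈ Wst, ∀ v ∈ M1 ∪ M2, cmp R X (w v) ≠ cmp R X x := fun x hx v hv =>
    (mem_filter.1 (hWum x hx)).2 v hv
  have hWN : ∀ u ∈ N, ∀ x ∈ Wst, ¬ R.Adj u x := by
    intro u hu x hx
    apply hN.blueN u hu _ (humT _ (hWum x hx)) (fun v hv => hWM x hx v hv)
    exact cmp_self (hWX hx)
  have hMb : TR.Members U Xb (M1 ∪ M2) ∅ N Wst w R.Adj := by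
    constructor
    · exact disjoint_empty_right _
    · rw [disjoint_union_left]
      exact ⟨hN.d1N, hN.d2N⟩
    · exact disjoint_empty_left _
    · rw [card_empty, add_zero, card_union_of_disjoint hN.d12, hUc]
    · rw [union_empty]
      exact hN.w_inj
    · rw [union_empty]
      exact hN.adj
    · rw [union_empty]
      intro u hu h
      exact hWM _ h u hu rfl
    · rw [empty_union]
      exact hWN
    · rw [card_empty, add_zero, card_union_of_disjoint hN.d12]
      have : U.filter (fun u => u ∈ Xb) = Xb := by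
        ext u
        rw [mem_filter]
        exact ⟨fun h => h.2, fun h => ⟨hXU h, h⟩⟩
      rw [this]
      exact hr
  obtain ⟨U', occ, Dr, ψ, Sv, Yr, θ, hO⟩ := TR.trees hP hMb
  obtain ⟨φ, hφ1, hφ2, hφ3, hφ4, hφ5⟩ := place' hH hUg (by
    intro u hu x hx
    exact hMb.blue u hu x hx) hO
  rw [union_empty] at hφ1 hφ2 hφ3 hφ4 hφ5
  set S := (F \ Xb) ∪ K with hS
  set Y := U.biUnion (fun u => hit Gr Gb u S) with hY
  have hYF : Y ⊆ F \ Xb := by
    intro y hy
    obtain ⟨u, hu, hy⟩ := mem_biUnion.1 hy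
    obtain ⟨h1, h2⟩ := mem_hit.1 hy
    rw [hS, mem_union] at h1
    rcases h1 with h1 | h1
    · exact h1
    · exact absurd (hUK y h1 u hu) h2
  have hKY : Disjoint K Y := by
    rw [Finset.disjoint_left]
    intro z hz hzY
    exact Finset.disjoint_left.1 hH.KF hz (mem_sdiff.1 (hYF hzY)).1
  have hSvF : Sv ⊆ F \ Xb := fun y hy => hYF (hO.svY hy)
  have hYrF : Yr ⊆ F \ Xb := fun y hy => hYF (hO.yrY hy)
  -- the mates of the dropped members
  set Mt := Yr.filter (fun y => ∃ m ∈ Dr, Nm Gr Gb F (ψ m) y) with hMt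
  have hMtY : Mt ⊆ Yr := filter_subset _ _
  have hMtc : Mt.card ≤ Dr.card := by
    have h1 : ∀ y ∈ Mt, ∃ m, m ∈ Dr ∧ Nm Gr Gb F (ψ m) y := by
      intro y hy
      obtain ⟨m, hm, h⟩ := (mem_filter.1 hy).2
      exact ⟨m, hm, h⟩
    choose! mm hm1 hm2 using h1
    apply card_le_card_of_injOn mm
    · intro y hy
      exact mem_coe.2 (hm1 y (mem_coe.1 hy))
    · intro y hy y' hy' h
      rw [mem_coe] at hy hy'
      have h2 := hm2 y hy
      have h3 := hm2 y' hy'
      rw [← h] at h3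
      obtain ⟨k1, k2, k3, k4⟩ := h2
      obtain ⟨l1, l2, l3, l4⟩ := h3
      exact hH.good.uniq _ k1 y k2 y' l2 (Ne.symm k3) (Ne.symm l3) k4 l4
  set A := ((F \ Xb) \ Y) ∪ (Yr \ Mt) with hAdef
  have hAF : A ⊆ F \ Xb := union_subset sdiff_subset (sdiff_subset.trans hYrF)
  have hAc : A.card = ((F \ Xb) \ Y).card + (Yr \ Mt).card := by
    rw [hAdef, card_union_of_disjoint]
    rw [Finset.disjoint_left]
    intro y hy hy'
    exact (mem_sdiff.1 hy).2 (hO.yrY (mem_sdiff.1 hy').1)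
  have hφA : ∀ m, m ∉ X → ∀ y ∈ A, Gr.Adj (φ m) y ∧ Gb.Adj (φ m) y := by
    intro m hm y hy
    have hm' := hN.mem_out hm
    rw [hAdef, mem_union] at hy
    rcases hy with hy | hy
    · exact hφ2 m hm' y hy
    · rw [mem_sdiff] at hy
      apply hφ5 m hm' y (hYrF hy.1) hy.1
      intro m' hm1 h
      exact hy.2 (mem_filter.2 ⟨hy.1, m', hm1, h⟩)
  -- the places for the representatives
  have hKuF : Disjoint Ku F := Disjoint.mono_left hKu hH.KF
  have hMtKu : Disjoint Mt Ku := by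
    rw [Finset.disjoint_left]
    intro y hy hy'
    exact Finset.disjoint_left.1 hKuF hy' (mem_sdiff.1 (hYrF (hMtY hy))).1
  set P2 := Mt ∪ Ku with hP2
  have hnum := hO.numW0
  rw [card_empty, zero_add] at hnum
  set Wr := Wst \ Sv.image θ with hWr
  have hWrc : P2.card ≤ Wr.card := by
    have h1 : (Wst ∩ Sv.image θ).card ≤ (Sv.filter (fun y => θ y ∈ Wst)).card := by
      refine le_trans (card_le_card ?_) (card_image_le (f := θ))
      intro x hx
      obtain ⟨h2, h3⟩ := mem_inter.1 hx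
      obtain ⟨y, hy, h4⟩ := mem_image.1 h3
      exact mem_image.2 ⟨y, mem_filter.2 ⟨hy, by rw [h4]; exact h2⟩, h4⟩
    have h2 := card_sdiff_add_card_inter Wst (Sv.image θ)
    rw [← hWr] at h2
    rw [hP2, card_union_of_disjoint hMtKu]
    omega
  obtain ⟨g2, hg2, hg2i⟩ := TR.exists_inj hWrc
  have hP2Sv : Disjoint Sv P2 := by
    rw [hP2, disjoint_union_right]
    constructor
    · exact Disjoint.mono_right hMtY hO.disj
    · rw [Finset.disjoint_left]
      intro y hy hy'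
      exact Finset.disjoint_left.1 hKuF hy' (mem_sdiff.1 (hSvF hy)).1
  set Pl := Sv ∪ P2 with hPl
  set Θ : W → V := fun y => if y ∈ Sv then θ y else g2 y with hΘ
  have hΘ1 : ∀ y ∈ Sv, Θ y = θ y := fun y hy => by
    rw [hΘ]
    simp only [if_pos hy]
  have hΘ2 : ∀ y ∈ P2, Θ y = g2 y ∧ Θ y ∈ Wst ∧ Θ y ∉ Sv.image θ := fun y hy => by
    have h1 : y ∉ Sv := fun h => Finset.disjoint_left.1 hP2Sv h hy
    have h2 : Θ y = g2 y := by
      rw [hΘ]
      simp only [if_neg h1]
    have h3 := mem_sdiff.1 (hg2 y hy)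
    rw [h2]
    exact ⟨rfl, h3.1, h3.2⟩
  have hθmem : ∀ y ∈ Sv, θ y ∈ (M1 ∪ M2).image w ∨ θ y ∈ Wst := by
    intro y hy
    rcases hO.theta_mem y hy with h | h
    · exact h
    · exact absurd h.2 (by simp)
  have hΘmem : ∀ y ∈ Pl, (∃ u ∈ M1 ∪ M2, Θ y = w u) ∨ Θ y ∈ Wst := by
    intro y hy
    rw [hPl, mem_union] at hy
    rcases hy with hy | hy
    · rw [hΘ1 y hy]
      rcases hθmem y hy with h | h
      · obtain ⟨u, hu, h⟩ := mem_image.1 h
        exact Or.inl ⟨u, hu, h.symm⟩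
      · exact Or.inr h
    · exact Or.inr (hΘ2 y hy).2.1
  have hΘi : Set.InjOn Θ Pl := by
    intro y hy y' hy' h
    rw [mem_coe, hPl, mem_union] at hy hy'
    rcases hy with hy | hy <;> rcases hy' with hy' | hy'
    · rw [hΘ1 y hy, hΘ1 y' hy'] at h
      exact hO.theta_inj (mem_coe.2 hy) (mem_coe.2 hy') h
    · exfalso
      apply (hΘ2 y' hy').2.2
      rw [← h, hΘ1 y hy]
      exact mem_image_of_mem _ hy
    · exfalso
      apply (hΘ2 y hy).2.2
      rw [h, hΘ1 y' hy']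
      exact mem_image_of_mem _ hy'
    · rw [(hΘ2 y hy).1, (hΘ2 y' hy').1] at h
      exact hg2i (mem_coe.2 hy) (mem_coe.2 hy') h
  set Ext := Pl.image Θ with hExt
  have hinv : ∀ x ∈ Ext, ∃ y, y ∈ Pl ∧ Θ y = x := by
    intro x hx
    obtain ⟨y, hy, h⟩ := mem_image.1 hx
    exact ⟨y, hy, h⟩
  choose! e he1 he2 using hinv
  have hExtX : Ext ⊆ X := by
    intro x hx
    obtain ⟨y, hy, rfl⟩ := mem_image.1 hx
    rcases hΘmem y hy with ⟨u, hu, h⟩ | h
    · rw [h]
      exact hN.wX u hu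
    · exact hWX h
  have hExtc : Ext.card = Pl.card := card_image_of_injOn hΘi
  have hPlS : Pl ⊆ S := by
    rw [hPl, hP2]
    apply union_subset
    · exact hSvF.trans subset_union_left
    · apply union_subset
      · exact (hMtY.trans hYrF).trans subset_union_left
      · exact hKu.trans subset_union_right
  have hPlA : Disjoint Pl A := by
    rw [Finset.disjoint_left]
    intro y hy hyA
    rw [hAdef, mem_union] at hyA
    rw [hPl, hP2, mem_union, mem_union] at hy
    rcases hy with hy | hy | hy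
    · rcases hyA with h | h
      · exact (mem_sdiff.1 h).2 (hO.svY hy)
      · exact Finset.disjoint_left.1 hO.disj hy (mem_sdiff.1 h).1
    · rcases hyA with h | h
      · exact (mem_sdiff.1 h).2 (hO.yrY (hMtY hy))
      · exact (mem_sdiff.1 h).2 hy
    · rcases hyA with h | h
      · exact Finset.disjoint_left.1 hKuF hy (mem_sdiff.1 (mem_sdiff.1 h).1).1
      · exact Finset.disjoint_left.1 hKuF hy (mem_sdiff.1 (hYrF (mem_sdiff.1 h).1)).1
  set KT := Ext.filter (fun x => e x ∈ Ku ∧ 2 ≤ (cmp R X x).card) with hKT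
  have hKTc : KT.card ≤ Ku.card := by
    apply card_le_card_of_injOn e
    · intro x hx
      rw [mem_coe, hKT, mem_filter] at hx
      exact mem_coe.2 hx.2.1
    · intro x hx x' hx' h
      rw [mem_coe, hKT, mem_filter] at hx hx'
      rw [← he2 x hx.1, ← he2 x' hx'.1, h]
  apply FIN.fin_host (φ := φ) (Ext := Ext) (KT := KT) (e := e) (A := A) (C := C) hN.crit
  · rw [hN.cardX, hN.thX]
  · exact hH.places hAF
  · rw [hAc]
    omega
  · intro m hm m' hm' hne
    exact hφ1 m (hN.mem_out hm) m' (hN.mem_out hm') hne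
  · exact hφA
  · exact hExtX
  · exact filter_subset _ _
  · exact fun x hx => (mem_filter.1 hx).2.2
  · -- the count
    have h1 : (X \ Ext).card + Ext.card = X.card := card_sdiff_add_card_eq_card hExtX
    have h2 : Pl.card = Sv.card + (Mt.card + Ku.card) := by
      rw [hPl, card_union_of_disjoint hP2Sv, hP2, card_union_of_disjoint hMtKu]
    have h3 : (Yr \ Mt).card + Mt.card = Yr.card := card_sdiff_add_card_eq_card hMtY
    have h4 : ((F \ Xb) \ Y).card + Y.card = (F \ Xb).card := card_sdiff_add_card_eq_card hYF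
    have h5 : (Y \ (Sv ∪ Yr)).card + (Sv ∪ Yr).card = Y.card :=
      card_sdiff_add_card_eq_card (union_subset hO.svY hO.yrY)
    rw [card_union_of_disjoint hO.disj] at h5
    rcases hO.count with h6 | h6
    · have h7 : ((Y \ (Sv ∪ Yr)).card : ℤ) ≤ ∑ u ∈ U, cc Gr Gb a (a + g) F Xb K u := h6
      rw [hAc]
      omega
    · exfalso
      have h7 : Wst ⊆ (Sv.filter (fun y => θ y ∈ Wst)).image θ := by
        intro x hx
        obtain ⟨y, hy, h8⟩ := mem_image.1 (h6 x (Or.inr hx))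
        exact mem_image.2 ⟨y, mem_filter.2 ⟨hy, by rw [h8]; exact hx⟩, h8⟩
      have h8 := (card_le_card h7).trans card_image_le
      omega
  · intro x hx y hy hne h
    apply hne
    rw [← he2 x hx, ← he2 y hy]
    rw [← he2 x hx, ← he2 y hy] at h
    rcases hΘmem _ (he1 x hx) with ⟨u, hu, h1⟩ | h1 <;>
      rcases hΘmem _ (he1 y hy) with ⟨v, hv, h2⟩ | h2
    · rw [h1, h2] at h ⊢
      by_contra hne'
      exact hN.inj u hu v hv (fun h3 => hne' (by rw [h3])) h
    · rw [h1] at h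
      exact absurd h (hWM _ h2 u hu)
    · rw [h2] at h
      exact absurd h.symm (hWM _ h1 v hv)
    · exact hWi _ h1 _ h2 h
  · intro x hx _
    apply Tt_tight hN.crit
    rw [← he2 x hx]
    rcases hΘmem _ (he1 x hx) with ⟨u, hu, h1⟩ | h1
    · rw [h1]
      exact hN.cmp_Tt hu
    · exact humT _ (hWum _ h1)
  · intro x hx y hy hne
    apply hH.S_blue (hPlS (he1 x hx)) (hPlS (he1 y hy))
    intro h
    exact hne (by rw [← he2 x hx, ← he2 y hy, h])
  · intro x hx z hz
    apply hH.S_blue (hPlS (he1 x hx)) (mem_union_left _ (hAF hz))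
    intro h
    exact Finset.disjoint_left.1 hPlA (he1 x hx) (h ▸ hz)
  · intro m hm x hx
    have hm' := hN.mem_out hm
    have h1 := he1 x hx
    rw [hPl, mem_union] at h1
    rcases h1 with h1 | h1
    · have h2 := hφ4 m hm' _ h1
      rw [← hΘ1 _ h1, he2 x hx] at h2
      exact h2
    · have h2 : e x ∈ (K \ Y) ∪ Yr := by
        rw [hP2, mem_union] at h1
        rcases h1 with h1 | h1
        · exact mem_union_right _ (hMtY h1)
        · exact mem_union_left _ (mem_sdiff.2 ⟨hKu h1, Finset.disjoint_left.1 hKY (hKu h1)⟩)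
      obtain ⟨h3, h4⟩ := hφ3 m hm' _ h2
      refine ⟨fun hadj => (h4 (fun hD => ?_)).1, fun _ => h3⟩
      have h5 := (hΘ2 _ h1).2.1
      rw [he2 x hx] at h5
      exact hWN m (hO.drN hD) x h5 hadj
  · intro x hx
    rw [hKT, mem_filter] at hx
    refine le_trans (card_le_card ?_) (hlight (e x) hx.2.1)
    intro z hz
    rw [mem_filter] at hz
    exact mem_hit.2 ⟨(mem_sdiff.1 (hAF hz.1)).1, fun h => hz.2 h.1⟩
  · intro x hx hxK hx2
    have h1 : e x ∉ Ku := fun h => hxK (mem_filter.2 ⟨hx, h, hx2⟩)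
    have h2 : e x ∈ F := by
      have h3 := he1 x hx
      rw [hPl, hP2, mem_union, mem_union] at h3
      rcases h3 with h3 | h3 | h3
      · exact (mem_sdiff.1 (hSvF h3)).1
      · exact (mem_sdiff.1 (hYrF (hMtY h3))).1
      · exact absurd h3 h1
    apply hH.nonred_one (hAF.trans sdiff_subset) h2
    exact Finset.disjoint_left.1 hPlA (he1 x hx)
  · right
    by_contra hcon
    push Not at hcon
    have h1 : ∀ P ∈ (cmps R X).filter (fun P => 2 ≤ P.card), ∃ x, x ∈ P ∧ x ∈ KT := by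
      intro P hP
      obtain ⟨hP1, hP2⟩ := mem_filter.1 hP
      have h2 := hcon P hP1 hP2
      rw [Finset.not_disjoint_iff] at h2
      exact h2
    choose! q hq1 hq2 using h1
    have h2 : ((cmps R X).filter (fun P => 2 ≤ P.card)).card ≤ KT.card := by
      apply card_le_card_of_injOn q
      · intro P hP
        exact mem_coe.2 (hq2 P (mem_coe.1 hP))
      · intro P hP P' hP' h
        rw [mem_coe] at hP hP'
        rw [← FIN.cmp_eq (mem_filter.1 hP).1 (hq1 P hP), h,
          FIN.cmp_eq (mem_filter.1 hP').1 (hq1 P' hP')]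
    omega

end LM

end Pool.Agent.Lib.MP_a05470_co
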