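import Pool.Agent.Lib.MP_a05470_co.FP.LevM
import Pool.Agent.Lib.MP_a05470_co.TF.LevM
import Pool.Agent.Lib.MP_a05470_co.TF.LevBM

/-!
# The two notions of maximal families agree at level one, first the number of boxes
-/

set_option autoImplicit false
set_option linter.unusedSectionVars false

namespace Pool.Agent.Lib.MP_a05470_co

open Finset Classical JF

namespace LV

variable {W : Type} [Fintype W] {Gr Gb : SimpleGraph W}

/-- the two notions agree -/
theorem bridgeM {Fs : Finset (Finset W)} {F : Finset W} (h1 : Best1M Gr Gb Fs)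
    (h2 : LM.Best Gr Gb F) :
    (L1.RR Gb F).card = 2 * nr Gr Gb 2 Fs ∧ (L1.BB Gr F).card = 2 * nb Gr Gb Fs ∧
      LM.M2 Gr Gb F = 2 * Fs.card := by
  obtain ⟨F1, g1, g2, g3, g4⟩ := good_of_fam h1.fam
  obtain ⟨Fs1, f1, f2, f3, f4⟩ := fam_of_good h2.good
  have e1 : LM.M2 Gr Gb F1 = 2 * Fs.card := by
    unfold LM.M2
    unfold L1.P1 beta at g2
    push_cast at g2
    omega
  have e2 : LM.M2 Gr Gb F = 2 * Fs1.card := by
    unfold LM.M2
    unfold L1.P1 beta at f2
    push_cast at f2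
    omega
  have h3 := h2.max F1 g1
  have h4 := h1.m0 Fs1 f1
  have h5 : Fs1.card = Fs.card := by
    have := h3.1
    omega
  have h6 := h1.m1 Fs1 f1 h5
  have h7 := h3.2 (by rw [e1, e2, h5])
  have h8 : nb Gr Gb Fs1 = nb Gr Gb Fs := by
    have h9 := h7.1
    rw [g2, f2] at h9
    unfold beta at h9
    push_cast at h9
    omega
  have h9 := h1.m2 Fs1 f1 h5 h8
  have h10 := h7.2 (by
    rw [g2, f2]
    unfold beta
    rw [h5, h8])
  refine ⟨by omega, by omega, ?_⟩
  rw [e2, h5]

end LV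

namespace L1

open LV

variable {W : Type} [Fintype W] {Gr Gb : SimpleGraph W} {F : Finset W}

/-- a maximal family has the structure `L1M` -/
theorem L1M.of_best {r : ℕ} (hB : LM.Best Gr Gb F) (hr : (RR Gb F).card = 2 * r) :
    L1M Gr Gb F r := by
  refine ⟨hB.good, hr, fun v hv => hB.no_zero hv, fun v hv => hB.hits_two hv, ?_, ?_⟩
  · intro v hv h2 hb
    exact (mem_VV.1 (hB.mem_VV_of hv h2 hb)).2.2.2
  · intro U hUF hU
    obtain ⟨Z, h1, h2, h3, h4, h5⟩ := hB.kill (T := U) hU hUF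
    refine ⟨Z, h1, h3, ?_, h2⟩
    intro z hz y hy hzy
    by_cases h : y = z
    · rw [h]
      exact h4 z hz
    · exact h5 z hz y hy h hzy

end L1

end Pool.Agent.Lib.MP_a05470_co
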