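import Pool.Agent.Lib.MP_a05470_co.FP.PicksM

/-!
# Few red pairs, blue clique of size `th`

The case where the critical core is a blue clique.
-/

set_option autoImplicit false
set_option linter.unusedSectionVars false

namespace Pool.Agent.Lib.MP_a05470_co

open Finset Classical

namespace LM

open L1

variable {W : Type} [Fintype W] {Gr Gb : SimpleGraph W} {F : Finset W}

/-- the host for a maximal clique -/
theorem exists_host (hB : Best Gr Gb F) {Xb K0 : Finset W} {mt : W → W}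
    (hT : Tv Gr Gb F Xb mt)
    (hK0 : ∀ z ∈ K0, z ∉ F ∧ (∀ y ∈ F, Gb.Adj z y) ∧ ∀ x ∈ Xb, Gn Gr Gb z x)
    (hcl : ∀ u ∈ K0, ∀ v ∈ K0, u ≠ v → Gb.Adj u v) :
    ∃ K, K0 ⊆ K ∧ Host Gr Gb F Xb K mt ∧ ∀ v, v ∉ F → (∀ y ∈ F, Gb.Adj v y) →
      (∀ x ∈ Xb, Gn Gr Gb v x) → v ∉ K → ∃ z ∈ K, ¬ Gb.Adj v z := by
  obtain ⟨K, h1, h2, h3, h4⟩ := exists_max_clique Gb
    (A := univ.filter (fun z => z ∉ F ∧ (∀ y ∈ F, Gb.Adj z y) ∧ ∀ x ∈ Xb, Gn Gr Gb z x))
    (K0 := K0) (fun z hz => mem_filter.2 ⟨mem_univ _, hK0 z hz⟩) hcl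
  refine ⟨K, h1, ⟨hB.good, hT, ?_, h3, ?_, ?_⟩, ?_⟩
  · rw [Finset.disjoint_left]
    exact fun z hz => (mem_filter.1 (h2 hz)).2.1
  · exact fun z hz => (mem_filter.1 (h2 hz)).2.2.1
  · exact fun z hz => (mem_filter.1 (h2 hz)).2.2.2
  · intro v hv hvb hvX hvK
    exact h4 v (mem_filter.2 ⟨mem_univ _, hv, hvb, hvX⟩) hvK

/-- the certificate for a maximal clique -/
theorem Host.D_ge {a b : ℝ} (hB : Best Gr Gb F) {Xb K : Finset W} {mt : W → W}
    (hH : Host Gr Gb F Xb K mt) (ha : 0 ≤ a) (hab : a ≤ b) (hb : b ≤ 2 * a)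
    (hmax : ∀ v ∈ VV Gr Gb F, v ∉ K → ∃ z ∈ K, ¬ Gb.Adj v z) (v : W) :
    a + b ≤ D a b Gr Gb v (F ∪ K) := hB.D_K ha hab hb hmax hH.KF v

/-- the vertices of `VV` are candidates for the clique -/
theorem VV_cand {Xb : Finset W} {mt : W → W} (hT : Tv Gr Gb F Xb mt) {v : W}
    (hv : v ∈ VV Gr Gb F) : v ∉ F ∧ (∀ y ∈ F, Gb.Adj v y) ∧ ∀ x ∈ Xb, Gn Gr Gb v x := by
  obtain ⟨h1, h2, h3, h4⟩ := mem_VV.1 hv
  refine ⟨h1, h3, fun x hx => ?_⟩
  by_contra hcon
  exact Finset.disjoint_left.1 h4 (mem_hit.2 ⟨RR_sub F (hT.sub hx), hcon⟩) (hT.sub hx)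

/-- **Few red pairs, the core is a blue clique.** -/
theorem caseA0 [Nonempty W] {V : Type} [Fintype V] {R : SimpleGraph V} {a g : ℕ} (ha : 0 < a)
    (hg : g ≤ a) (hcost : ∀ v : W, D (a : ℝ) ((a + g : ℕ) : ℝ) Gr Gb v univ < Fintype.card W)
    (hB : Best Gr Gb F) {X M1 N : Finset V} {w : V → V} (hX : X.card = a + g + 1)
    (hind : ∀ x ∈ X, ∀ y ∈ X, ¬ R.Adj x y) (hcov : ∀ v, v ∈ X ∨ v ∈ M1 ∪ N)
    (_hdX : Disjoint X (M1 ∪ N)) (hd : Disjoint M1 N) (hcard : M1.card + N.card = a)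
    (hw : Set.InjOn w M1) (hwX : ∀ u ∈ M1, w u ∈ X) (hadj : ∀ u ∈ M1, R.Adj u (w u))
    (hN : ∀ u ∈ N, ∀ x ∈ X, x ∉ M1.image w → ¬ R.Adj u x)
    (hr : (RR Gb F).card ≤ 2 * M1.card) : Contains R Rᶜ Gr Gb := by
  have haR : (0 : ℝ) < a := by exact_mod_cast ha
  have habR : (a : ℝ) ≤ ((a + g : ℕ) : ℝ) := by exact_mod_cast Nat.le_add_right a g
  have hbR : ((a + g : ℕ) : ℝ) ≤ 2 * a := by
    have : a + g ≤ 2 * a := by omega
    exact_mod_cast this
  obtain ⟨Xb, mt, hT⟩ := exists_trans hB.good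
  have hRR := hT.card_RR
  obtain ⟨K, _, hH, hmax⟩ := exists_host hB hT (K0 := ∅) (by simp) (by simp)
  have hD : ∀ v, (a : ℝ) + ((a + g : ℕ) : ℝ) ≤ D (a : ℝ) ((a + g : ℕ) : ℝ) Gr Gb v (F ∪ K) := by
    intro v
    apply hH.D_ge hB haR.le habR hbR
    intro v hv hvK
    obtain ⟨h1, h2, h3⟩ := VV_cand hT hv
    exact hmax v h1 h2 h3 hvK
  have hSne : (F ∪ K).Nonempty := by
    rw [nonempty_iff_ne_empty]
    intro h
    have h1 := hD (Classical.arbitrary W)
    rw [h] at h1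
    unfold D at h1
    rw [sum_empty] at h1
    linarith
  have hScard : a + (a + g) < (F ∪ K).card := by
    have h1 := card_gt_of_D (Gr := Gr) (Gb := Gb) hcost hD hSne
    exact_mod_cast h1
  obtain ⟨j, hj⟩ : ∃ j, (F ∪ K).card = a + (a + g) + 1 + j :=
    ⟨(F ∪ K).card - (a + (a + g) + 1), by omega⟩
  -- the picks
  have hXa : Xb.card ≤ a := by omega
  have hW0 : (0 : ℝ) < Fintype.card W := by exact_mod_cast Fintype.card_pos
  obtain ⟨U1, hU1, hU1c, hU1g, hU1s⟩ := exists_picks1 ha (Nat.le_add_right a g) hcost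
    (Q := Xb) (Fb := ∅) (q := a - Xb.card)
    (by
      rw [card_empty, Nat.cast_zero, add_zero]
      have : ((Xb.card : ℝ) + ((a - Xb.card : ℕ) : ℝ)) = a := by
        rw [Nat.cast_sub hXa]
        ring
      rw [this, mul_div_cancel₀ _ haR.ne'])
    (d := fun v => D (a : ℝ) ((a + g : ℕ) : ℝ) Gr Gb v (F ∪ K) - (a + ((a + g : ℕ) : ℝ)))
    (J := (F ∪ K).card - ((a : ℝ) + ((a + g : ℕ) : ℝ)))
    (fun v => by linarith [hD v])
    (by
      rw [sdiff_empty]
      exact sum_excess ha (Nat.le_add_right a g) hcost hSne)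
  have hU1X : Disjoint U1 Xb := by
    rw [Finset.disjoint_left]
    intro u hu hX
    exact not_gn_self u ((mem_Al.1 (hU1 hu)).1 u hX)
  set U := U1 ∪ Xb with hU
  have hUX : U \ Xb = U1 := by
    rw [hU, union_sdiff_right, sdiff_eq_self_of_disjoint hU1X]
  have hXU : Xb ⊆ U := subset_union_right
  have hUc : U.card = a := by
    rw [hU, card_union_of_disjoint hU1X, hU1c]
    omega
  have hUg : ∀ u ∈ U, ∀ v ∈ U, u ≠ v → Gn Gr Gb u v := by
    intro u hu v hv huv
    rw [hU, mem_union] at hu hv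
    rcases hu with hu | hu <;> rcases hv with hv | hv
    · exact hU1g u hu v hv huv
    · exact ((mem_Al.1 (hU1 hu)).1 v hv).symm
    · exact (mem_Al.1 (hU1 hv)).1 u hu
    · exact hT.green hu hv huv
  have hP := picks hB hH ha (Nat.le_add_right a g) hXU hUg (fun u _ => hD u) (by
    intro u hu huX huF
    rw [mem_union, not_or] at huF
    by_cases hb : ∀ y ∈ F, Gb.Adj u y
    · obtain ⟨z, hz, h⟩ := hmax u huF.1 hb (fun x hx =>
        hUg u hu x (hXU hx) (fun h => huX (h ▸ hx))) huF.2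
      exact ⟨z, mem_union_right _ hz, h⟩
    · push Not at hb
      obtain ⟨y, hy, h⟩ := hb
      refine ⟨y, mem_union_left _ (mem_sdiff.2 ⟨hy, fun hX => h ?_⟩), h⟩
      exact (hUg u hu y (hXU hX) (fun h => huX (h ▸ hX))).2)
  have hc := sum_cc (Gr := Gr) (Gb := Gb) (b := a + g) (F := F) (K := K) ha hXU (j := j) (by
    rw [hUX]
    refine lt_of_lt_of_le hU1s ?_
    rw [hj]
    push_cast
    apply le_of_eq
    ring)
  -- the members
  set W0 := X \ M1.image w with hW0def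
  have hMb : TR.Members U Xb M1 ∅ N W0 w R.Adj := by
    constructor
    · exact disjoint_empty_right _
    · exact hd
    · exact disjoint_empty_left _
    · rw [card_empty, add_zero, hcard, hUc]
    · rw [union_empty]
      exact hw
    · rw [union_empty]
      exact hadj
    · rw [union_empty]
      intro u hu h
      exact (mem_sdiff.1 h).2 (mem_image_of_mem _ hu)
    · rw [empty_union]
      intro u hu x hx
      rw [hW0def, mem_sdiff] at hx
      exact hN u hu x hx.1 hx.2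
    · rw [card_empty, add_zero]
      have : U.filter (fun u => u ∈ Xb) = Xb := by
        ext u
        rw [mem_filter]
        exact ⟨fun h => h.2, fun h => ⟨hXU h, h⟩⟩
      rw [this]
      omega
  have : Nonempty V := by
    have h1 : 0 < X.card := by omega
    obtain ⟨x, _⟩ := card_pos.1 h1
    exact ⟨x⟩
  obtain ⟨U', occ, Dr, ψ, Sv, Yr, θ, hO⟩ := TR.trees hP hMb
  obtain ⟨φ, hφ1, hφ2, hφ3, hφ4⟩ := place hH hUg (by
    intro u hu x hx
    exact hMb.blue u hu x hx) hO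
  rw [union_empty] at hφ1 hφ2 hφ3 hφ4
  set S := (F \ Xb) ∪ K with hS
  set Y := U.biUnion (fun u => hit Gr Gb u S) with hY
  have hYS : Y ⊆ S := by
    intro y hy
    obtain ⟨u, hu, hy⟩ := mem_biUnion.1 hy
    exact (mem_hit.1 hy).1
  -- the free places
  set Fr := (S \ Y) ∪ Yr with hFr
  have hSvX : Sv.image θ ⊆ X := by
    intro x hx
    obtain ⟨y, hy, rfl⟩ := mem_image.1 hx
    rcases hO.theta_mem y hy with (h | h) | h
    · obtain ⟨u, hu, h⟩ := mem_image.1 h
      rw [← h]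
      exact hwX u hu
    · exact (mem_sdiff.1 h).1
    · exact absurd h.2 (by simp)
  have hFrSv : Disjoint Fr Sv := by
    rw [hFr, disjoint_union_left]
    constructor
    · rw [Finset.disjoint_left]
      intro y hy hy'
      exact (mem_sdiff.1 hy).2 (hO.svY hy')
    · exact hO.disj.symm
  have hcount : (X \ Sv.image θ).card ≤ Fr.card := by
    rcases hO.count with h | h
    · have h1 : S.card + Xb.card = (F ∪ K).card := by
        have e1 : S ∪ Xb = F ∪ K := by
          ext y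
          simp only [hS, mem_union, mem_sdiff]
          constructor
          · rintro ((h | h) | h)
            · exact Or.inl h.1
            · exact Or.inr h
            · exact Or.inl (RR_sub F (hT.sub h))
          · rintro (h | h)
            · by_cases hX : y ∈ Xb
              · exact Or.inr hX
              · exact Or.inl (Or.inl ⟨h, hX⟩)
            · exact Or.inl (Or.inr h)
        have e2 : Disjoint S Xb := by
          rw [Finset.disjoint_left]
          intro y hy hy'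
          rw [hS, mem_union, mem_sdiff] at hy
          rcases hy with hy | hy
          · exact hy.2 hy'
          · exact Finset.disjoint_left.1 hH.KF hy (RR_sub F (hT.sub hy'))
        rw [← e1, card_union_of_disjoint e2]
      have h2 : (S \ Y).card + Y.card = S.card := card_sdiff_add_card_eq_card hYS
      have h3 : Fr.card = (S \ Y).card + Yr.card := by
        rw [hFr, card_union_of_disjoint]
        rw [Finset.disjoint_left]
        intro y hy hy'
        exact (mem_sdiff.1 hy).2 (hO.yrY hy')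
      have h4 : (Y \ (Sv ∪ Yr)).card + (Sv ∪ Yr).card = Y.card :=
        card_sdiff_add_card_eq_card (union_subset hO.svY hO.yrY)
      rw [card_union_of_disjoint hO.disj] at h4
      have h5 : (Sv.image θ).card = Sv.card := card_image_of_injOn hO.theta_inj
      have h6 : (X \ Sv.image θ).card + (Sv.image θ).card = X.card :=
        card_sdiff_add_card_eq_card hSvX
      have h7 := h.trans hc
      rw [hUc] at h7
      have h8 : ((Y \ (Sv ∪ Yr)).card : ℤ) ≤ (a : ℤ) - Xb.card + j := h7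
      omega
    · have h1 : X \ Sv.image θ = ∅ := by
        rw [sdiff_eq_empty_iff_subset]
        intro x hx
        apply h x
        by_cases h2 : x ∈ M1.image w
        · exact Or.inl h2
        · exact Or.inr (mem_sdiff.2 ⟨hx, h2⟩)
      rw [h1]
      simp
  obtain ⟨f, hf1, hf2⟩ := TR.exists_inj hcount
  -- the inverse of `θ`
  have hinv : ∀ x ∈ Sv.image θ, ∃ y ∈ Sv, θ y = x := by
    intro x hx
    obtain ⟨y, hy, h⟩ := mem_image.1 hx
    exact ⟨y, hy, h⟩
  choose! τ hτ1 hτ2 using hinv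
  set ρ : V → W := fun x => if x ∈ Sv.image θ then τ x else f x with hρ
  have hρ1 : ∀ x ∈ X, x ∈ Sv.image θ → ρ x ∈ Sv ∧ θ (ρ x) = x := by
    intro x _ hx
    have : ρ x = τ x := by
      rw [hρ]
      simp only [if_pos hx]
    rw [this]
    exact ⟨hτ1 x hx, hτ2 x hx⟩
  have hρ2 : ∀ x ∈ X, x ∉ Sv.image θ → ρ x ∈ Fr ∧ ρ x = f x := by
    intro x hxX hx
    have h1 : ρ x = f x := by
      rw [hρ]
      simp only [if_neg hx]
    rw [h1]
    exact ⟨hf1 x (mem_sdiff.2 ⟨hxX, hx⟩), rfl⟩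
  have hSvS : Sv ⊆ S := fun y hy => hYS (hO.svY hy)
  have hFrS : Fr ⊆ S := by
    rw [hFr]
    exact union_subset sdiff_subset (fun y hy => hYS (hO.yrY hy))
  have hρS : ∀ x ∈ X, ρ x ∈ S := by
    intro x hx
    by_cases h : x ∈ Sv.image θ
    · exact hSvS (hρ1 x hx h).1
    · exact hFrS (hρ2 x hx h).1
  have hρinj : ∀ x ∈ X, ∀ y ∈ X, x ≠ y → ρ x ≠ ρ y := by
    intro x hx y hy hxy h
    by_cases h1 : x ∈ Sv.image θ <;> by_cases h2 : y ∈ Sv.image θ
    · have h3 := (hρ1 x hx h1).2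
      rw [h, (hρ1 y hy h2).2] at h3
      exact hxy h3.symm
    · exact Finset.disjoint_left.1 hFrSv (hρ2 y hy h2).1 (h ▸ (hρ1 x hx h1).1)
    · exact Finset.disjoint_left.1 hFrSv (hρ2 x hx h1).1 (h ▸ (hρ1 y hy h2).1)
    · have h3 := (hρ2 x hx h1).2
      have h4 := (hρ2 y hy h2).2
      rw [h3, h4] at h
      exact hxy (hf2 (mem_coe.2 (mem_sdiff.2 ⟨hx, h1⟩)) (mem_coe.2 (mem_sdiff.2 ⟨hy, h2⟩)) h)
  -- members and core vertices
  have hmx : ∀ m ∈ M1 ∪ N, ∀ x ∈ X, (R.Adj m x → Gr.Adj (φ m) (ρ x)) ∧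
      (¬ R.Adj m x → Gb.Adj (φ m) (ρ x)) := by
    intro m hm x hx
    by_cases h1 : x ∈ Sv.image θ
    · obtain ⟨h2, h3⟩ := hρ1 x hx h1
      have h4 := hφ4 m hm _ h2
      rw [h3] at h4
      exact h4
    · obtain ⟨h2, _⟩ := hρ2 x hx h1
      have hcase : ρ x ∈ (F \ Xb) \ Y ∨ ρ x ∈ (K \ Y) ∪ Yr := by
        rw [hFr, mem_union, mem_sdiff, hS, mem_union] at h2
        rcases h2 with ⟨h2 | h2, h3⟩ | h2
        · exact Or.inl (mem_sdiff.2 ⟨h2, h3⟩)
        · exact Or.inr (mem_union_left _ (mem_sdiff.2 ⟨h2, h3⟩))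
        · exact Or.inr (mem_union_right _ h2)
      rcases hcase with h3 | h3
      · have h4 := hφ2 m hm _ h3
        exact ⟨fun _ => h4.1, fun _ => h4.2⟩
      · obtain ⟨h4, h5⟩ := hφ3 m hm _ h3
        refine ⟨fun hadj' => ?_, fun _ => h4⟩
        by_cases hmD : m ∈ Dr
        · exfalso
          have hxw : x ∉ M1.image w := by
            intro h6
            obtain ⟨i, hi, h7⟩ := mem_image.1 h6
            obtain ⟨y, hy, _, h8⟩ := hO.drop ⟨m, hmD⟩ i (by rw [union_empty]; exact hi)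
            apply h1
            rw [← h7, ← h8]
            exact mem_image_of_mem _ hy
          exact hN m (hO.drN hmD) x hx hxw hadj'
        · exact (h5 hmD).1
  have hρb : ∀ x ∈ X, ∀ y ∈ X, x ≠ y → Gb.Adj (ρ x) (ρ y) := fun x hx y hy hxy =>
    hH.S_blue (hρS x hx) (hρS y hy) (hρinj x hx y hy hxy)
  -- the embedding
  set h : V → W := fun v => if v ∈ X then ρ v else φ v with hh
  have hhX : ∀ v ∈ X, h v = ρ v := fun v hv => by
    rw [hh]
    simp only [if_pos hv]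
  have hhM : ∀ v, v ∉ X → h v = φ v ∧ v ∈ M1 ∪ N := fun v hv =>
    ⟨by rw [hh]; simp only [if_neg hv], (hcov v).resolve_left hv⟩
  have hadjall : ∀ x y, x ≠ y → (R.Adj x y → Gr.Adj (h x) (h y)) ∧
      (¬ R.Adj x y → Gb.Adj (h x) (h y)) := by
    intro x y hxy
    by_cases h1 : x ∈ X <;> by_cases h2 : y ∈ X
    · rw [hhX x h1, hhX y h2]
      exact ⟨fun h => absurd h (hind x h1 y h2), fun _ => hρb x h1 y h2 hxy⟩
    · obtain ⟨h3, h4⟩ := hhM y h2
      rw [hhX x h1, h3]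
      have h5 := hmx y h4 x h1
      exact ⟨fun h => (h5.1 h.symm).symm, fun h => (h5.2 (fun h' => h h'.symm)).symm⟩
    · obtain ⟨h3, h4⟩ := hhM x h1
      rw [hhX y h2, h3]
      exact hmx x h4 y h2
    · obtain ⟨h3, h4⟩ := hhM x h1
      obtain ⟨h5, h6⟩ := hhM y h2
      rw [h3, h5]
      have h7 := hφ1 x h4 y h6 hxy
      exact ⟨fun _ => h7.1, fun _ => h7.2⟩
  refine ⟨h, ?_, ?_⟩
  · intro x y hxy
    by_contra hne
    have h1 := hadjall x y hne
    rw [hxy] at h1
    by_cases h2 : R.Adj x y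
    · exact Gr.irrefl (h1.1 h2)
    · exact Gb.irrefl (h1.2 h2)
  · intro x y
    constructor
    · intro h1
      exact (hadjall x y h1.ne).1 h1
    · intro h1
      rw [SimpleGraph.compl_adj] at h1
      exact (hadjall x y h1.1).2 h1.2

end LM

end Pool.Agent.Lib.MP_a05470_co
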