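import Pool.Agent.Lib.MP_a05470_co.FP.NF3
import Pool.Agent.Lib.MP_a05470_co.TF.CaseBC

/-!
# Cases (B) and (C) from the normal form `NF3`
-/

set_option autoImplicit false
set_option linter.unusedSectionVars false

namespace Pool.Agent.Lib.MP_a05470_co

open Finset Classical JF JT LV

namespace HII

theorem case_ge3 {V : Type} [Fintype V] {n a g C : ℕ} {R : SimpleGraph V}
    {Gr Gb : SimpleGraph (Fin n)} [Nonempty (Fin n)] {X M1 M2 N : Finset V} {w : V → V}
    (ha : 1 ≤ a) (hga : g ≤ a)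
    (hcost : ∀ v : Fin n, L1.D (a : ℝ) ((a + g : ℕ) : ℝ) Gr Gb v univ < Fintype.card (Fin n))
    (hcheap : Cheap (a : ℝ) ((a : ℝ) + g) Gr Gb) (hV : Fintype.card V = 2 * a + g + 1)
    (hth : th R univ = a + g + 1) (h3 : NF3 R a g C X M1 M2 N w)
    {F0 : Finset (Finset (Fin n))} (hF0 : LV.Best1M Gr Gb F0)
    (hr : M1.card + M2.card ≤ nr Gr Gb 2 F0) : Contains R Rᶜ Gr Gb :=
  case_ge ha hga hcost hcheap hV h3.crit h3.thX hth h3.hmax hF0 hr

end HII

end Pool.Agent.Lib.MP_a05470_co
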