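import Pool.Agent.Lib.MP_a05470_co.FP.NF3

/-!
# Existence of the normal form
-/

set_option autoImplicit false
set_option linter.unusedSectionVars false

namespace Pool.Agent.Lib.MP_a05470_co

open Finset Classical

namespace EX

open JT

variable {V : Type} [Fintype V] {R : SimpleGraph V} {X : Finset V}

/-- a matching of vertices outside of `X` into different tight components -/
structure Val (R : SimpleGraph V) (X M : Finset V) (f : V → Finset V) : Prop where
  out : ∀ u ∈ M, u ∉ X
  inj : Set.InjOn f M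
  adj : ∀ u ∈ M, f u ∈ Tt R X ∧ ∃ h ∈ f u, R.Adj u h

/-- the trivial partners -/
noncomputable def tr (M : Finset V) (f : V → Finset V) : Finset V :=
  M.filter (fun u => (f u).card = 1)

theorem Val.insert {M : Finset V} {f : V → Finset V} (h : Val R X M f) {u : V} (hu : u ∉ X)
    (huM : u ∉ M) {P : Finset V} (hP : P ∈ Tt R X) (hadj : ∃ x ∈ P, R.Adj u x)
    (hnew : ∀ v ∈ M, f v ≠ P) : Val R X (insert u M) (Function.update f u P) := by
  have hne : ∀ v ∈ M, v ≠ u := fun v hv he => huM (he ▸ hv)
  constructor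
  · intro v hv
    rw [mem_insert] at hv
    rcases hv with rfl | hv
    · exact hu
    · exact h.out v hv
  · intro v hv v' hv' he
    rw [mem_coe, mem_insert] at hv hv'
    rcases hv with rfl | hv <;> rcases hv' with rfl | hv'
    · rfl
    · rw [Function.update_self, Function.update_of_ne (hne v' hv')] at he
      exact absurd he.symm (hnew v' hv')
    · rw [Function.update_self, Function.update_of_ne (hne v hv)] at he
      exact absurd he (hnew v hv)
    · rw [Function.update_of_ne (hne v hv), Function.update_of_ne (hne v' hv')] at he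
      exact h.inj (mem_coe.2 hv) (mem_coe.2 hv') he
  · intro v hv
    rw [mem_insert] at hv
    rcases hv with rfl | hv
    · rw [Function.update_self]
      exact ⟨hP, hadj⟩
    · rw [Function.update_of_ne (hne v hv)]
      exact h.adj v hv

theorem Val.change {M : Finset V} {f : V → Finset V} (h : Val R X M f) {u : V}
    (huM : u ∈ M) {P : Finset V} (hP : P ∈ Tt R X) (hadj : ∃ x ∈ P, R.Adj u x)
    (hnew : ∀ v ∈ M, f v ≠ P) : Val R X M (Function.update f u P) := by
  constructor
  · exact h.out
  · intro v hv v' hv' he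
    rw [mem_coe] at hv hv'
    by_cases h1 : v = u <;> by_cases h2 : v' = u
    · rw [h1, h2]
    · rw [h1, Function.update_self, Function.update_of_ne h2] at he
      exact absurd he.symm (hnew v' hv')
    · rw [h2, Function.update_self, Function.update_of_ne h1] at he
      exact absurd he (hnew v hv)
    · rw [Function.update_of_ne h1, Function.update_of_ne h2] at he
      exact h.inj (mem_coe.2 hv) (mem_coe.2 hv') he
  · intro v hv
    by_cases h1 : v = u
    · rw [h1, Function.update_self]
      exact ⟨hP, hadj⟩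
    · rw [Function.update_of_ne h1]
      exact h.adj v hv

/-- a matching which is maximal in size, and then in the number of trivial partners -/
theorem exists_best (R : SimpleGraph V) (X : Finset V) : ∃ (M : Finset V) (f : V → Finset V),
    Val R X M f ∧ ∀ (M' : Finset V) (f' : V → Finset V), Val R X M' f' →
      M'.card ≤ M.card ∧ (M'.card = M.card → (tr M' f').card ≤ (tr M f).card) := by
  have hne : ((univ : Finset (Finset V × (V → Finset V))).filter
      (fun p => Val R X p.1 p.2)).Nonempty := by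
    refine ⟨(∅, fun _ => ∅), mem_filter.2 ⟨mem_univ _, ?_, ?_, ?_⟩⟩ <;> simp
  obtain ⟨p, hp, hmax⟩ := exists_max_image _ (fun p : Finset V × (V → Finset V) =>
    toLex (p.1.card, (tr p.1 p.2).card)) hne
  rw [mem_filter] at hp
  refine ⟨p.1, p.2, hp.2, fun M' f' hV => ?_⟩
  have h1 := hmax (M', f') (mem_filter.2 ⟨mem_univ _, hV⟩)
  rw [Prod.Lex.toLex_le_toLex] at h1
  simp only at h1
  rcases h1 with h1 | ⟨h1, h2⟩
  · exact ⟨h1.le, fun h => absurd h h1.ne⟩
  · exact ⟨h1.le, fun _ => h2⟩

theorem cmp_self {x : V} (hx : x ∈ X) : x ∈ cmp R X x :=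
  mem_filter.2 ⟨hx, SimpleGraph.Reachable.refl _⟩

theorem cmp_of_mem {P : Finset V} (hP : P ∈ cmps R X) {x : V} (hx : x ∈ P) : cmp R X x = P := by
  have hxX := cmps_sub hP hx
  by_contra hne
  exact disjoint_left.1 (cmps_sep (mem_image_of_mem _ hxX) hP hne).1 (cmp_self hxX) hx

theorem sum_cmps (hX : Crit R X) :
    ∑ P ∈ cmps R X, th R P = th R X ∧ ∑ P ∈ cmps R X, P.card = X.card := by
  have key : ∀ J : Finset (Finset V), J ⊆ cmps R X →
      th R (J.biUnion id) = ∑ P ∈ J, th R P ∧ (J.biUnion id).card = ∑ P ∈ J, P.card := by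
    intro J
    induction J using Finset.induction_on with
    | empty => intro _; simp [th_empty]
    | insert P J hP ih =>
      intro hJ
      obtain ⟨h1, h2⟩ := ih (fun Q hQ => hJ (mem_insert_of_mem hQ))
      have hs : Sep R P (J.biUnion id) := by
        constructor
        · rw [disjoint_biUnion_right]
          intro Q hQ
          exact (cmps_sep (hJ (mem_insert_self _ _)) (hJ (mem_insert_of_mem hQ))
            (fun h => hP (h ▸ hQ))).1
        · intro x hx y hy
          obtain ⟨Q, hQ, hyQ⟩ := mem_biUnion.1 hy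
          exact (cmps_sep (hJ (mem_insert_self _ _)) (hJ (mem_insert_of_mem hQ))
            (fun h => hP (h ▸ hQ))).2 x hx y hyQ
      rw [biUnion_insert, sum_insert hP, sum_insert hP, id, th_union_sep hs,
        card_union_of_disjoint hs.1, h1, h2]
      exact ⟨rfl, rfl⟩
  have hall : (cmps R X).biUnion id = X := by
    ext x
    rw [mem_biUnion]
    constructor
    · rintro ⟨P, hP, hx⟩
      exact cmps_sub hP hx
    · intro hx
      obtain ⟨P, hP, h⟩ := cmps_cover hx
      exact ⟨P, hP, h⟩
  obtain ⟨h1, h2⟩ := key (cmps R X) (Subset.refl _)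
  rw [hall] at h1 h2
  exact ⟨h1.symm, h2.symm⟩

/-- the number of tight components -/
theorem card_Tt (hX : Crit R X) : 2 * th R X ≤ X.card + (Tt R X).card := by
  obtain ⟨h1, h2⟩ := sum_cmps hX
  have h3 : ∀ P ∈ cmps R X, 2 * th R P ≤ P.card + (if P ∈ Tt R X then 1 else 0) := by
    intro P hP
    obtain ⟨c, k1, k2, k3⟩ := cmps_data hX hP
    by_cases h : P ∈ Tt R X
    · rw [if_pos h]
      omega
    · rw [if_neg h]
      have h4 : ¬ (P.card + 1 = 2 * th R P) := fun h5 => h (mem_filter.2 ⟨hP, h5⟩)
      omega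
  have h4 := sum_le_sum h3
  rw [← mul_sum, sum_add_distrib, h1, h2] at h4
  have h5 : ∑ P ∈ cmps R X, (if P ∈ Tt R X then 1 else 0) = (Tt R X).card := by
    rw [sum_boole, Nat.cast_id]
    congr 1
    ext P
    rw [mem_filter]
    exact ⟨fun h => h.2, fun h => ⟨(mem_filter.1 h).1, h⟩⟩
  omega

/-- **The normal form.** -/
theorem exists_NF3 {a g : ℕ} (hV : Fintype.card V = 2 * a + g + 1)
    (hth : th R univ = a + g + 1) :
    ∃ (C : ℕ) (X M1 M2 N : Finset V) (w : V → V), NF3 R a g C X M1 M2 N w := by
  obtain ⟨X, hXth, hX⟩ := exists_min_subset R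
  rw [hth] at hXth
  obtain ⟨M, f, hM, hbest⟩ := exists_best R X
  have hthle := th_le_card (R := R) X
  have hXV : X.card ≤ 2 * a + g + 1 := by
    rw [← hV]
    exact card_le_univ X
  have hpart : ∀ u ∈ M, ∃ h, h ∈ f u ∧ R.Adj u h := by
    intro u hu
    obtain ⟨h, h1, h2⟩ := (hM.adj u hu).2
    exact ⟨h, h1, h2⟩
  have hwex : ∃ w : V → V, ∀ u ∈ M, w u ∈ f u ∧ R.Adj u (w u) := by
    refine ⟨fun u => if h : ∃ x, x ∈ f u ∧ R.Adj u x then h.choose else u, fun u hu => ?_⟩
    have h := hpart u hu
    simp only [dif_pos h]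
    exact h.choose_spec
  obtain ⟨w, hw⟩ := hwex
  have hfc : ∀ u ∈ M, f u ∈ cmps R X := fun u hu => (mem_filter.1 (hM.adj u hu).1).1
  have hcw : ∀ u ∈ M, cmp R X (w u) = f u := fun u hu => cmp_of_mem (hfc u hu) (hw u hu).1
  set M1 := M.filter (fun u => (f u).card = 1) with hM1
  set M2 := M.filter (fun u => ¬ (f u).card = 1) with hM2
  set N := (univ \ X) \ M with hN
  have hM12 : M1 ∪ M2 = M := filter_union_filter_not_eq _ _
  have hd12 : Disjoint M1 M2 := disjoint_filter_filter_not _ _ _
  have hMX : M ⊆ univ \ X := fun u hu => mem_sdiff.2 ⟨mem_univ _, hM.out u hu⟩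
  have hcM : M1.card + M2.card = M.card := by
    rw [← card_union_of_disjoint hd12, hM12]
  have hcN : N.card + M.card + X.card = 2 * a + g + 1 := by
    have h1 : N.card + M.card = (univ \ X).card := card_sdiff_add_card_eq_card hMX
    have h2 : (univ \ X).card + X.card = (univ : Finset V).card :=
      card_sdiff_add_card_eq_card (subset_univ X)
    rw [card_univ, hV] at h2
    omega
  have haug : ∀ u ∈ N, ∀ P ∈ Tt R X, (∀ v ∈ M, f v ≠ P) → ∀ x ∈ P, ¬ R.Adj u x := by
    intro u hu P hP hnew x hx hadj
    obtain ⟨h1, h2⟩ := mem_sdiff.1 hu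
    have h3 := (hbest _ _ (hM.insert (mem_sdiff.1 h1).2 h2 hP ⟨x, hx, hadj⟩ hnew)).1
    rw [card_insert_of_notMem h2] at h3
    omega
  refine ⟨X.card - (a + g + 1), X, M1, M2, N, w, hX, hXth, by omega, ?_, ?_, hd12, ?_, ?_, ?_,
    ?_, ?_, ?_, ?_, ?_, ?_, ?_, ?_, ?_⟩
  · intro v
    by_cases hv : v ∈ X
    · exact Or.inl hv
    · right
      rw [hM12, mem_union]
      by_cases hvM : v ∈ M
      · exact Or.inl hvM
      · exact Or.inr (mem_sdiff.2 ⟨mem_sdiff.2 ⟨mem_univ _, hv⟩, hvM⟩)
  · rw [hM12, disjoint_union_right]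
    constructor
    · rw [Finset.disjoint_left]
      intro v hv hvM
      exact hM.out v hvM hv
    · rw [Finset.disjoint_left]
      intro v hv hvN
      exact (mem_sdiff.1 (mem_sdiff.1 hvN).1).2 hv
  · rw [Finset.disjoint_left]
    intro v hv hvN
    exact (mem_sdiff.1 hvN).2 (filter_subset _ _ hv)
  · rw [Finset.disjoint_left]
    intro v hv hvN
    exact (mem_sdiff.1 hvN).2 (filter_subset _ _ hv)
  · omega
  · intro u hu
    rw [hM12] at hu
    exact cmps_sub (hfc u hu) (hw u hu).1
  · intro u hu
    rw [hM12] at hu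
    exact (hw u hu).2
  · intro u hu
    obtain ⟨h1, h2⟩ := mem_filter.1 hu
    rw [hcw u h1]
    obtain ⟨x, hx⟩ := card_eq_one.1 h2
    have h3 := (hw u h1).1
    rw [hx, mem_singleton] at h3
    rw [hx, h3]
  · intro u hu
    obtain ⟨h1, h2⟩ := mem_filter.1 hu
    rw [hcw u h1]
    refine ⟨(hM.adj u h1).1, ?_⟩
    have h3 := card_pos.2 (cmps_ne (hfc u h1))
    omega
  · intro u hu v hv huv he
    rw [hM12] at hu hv
    rw [hcw u hu, hcw v hv] at he
    exact huv (hM.inj (mem_coe.2 hu) (mem_coe.2 hv) he)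
  · intro u hu P hP hnew x hx
    apply haug u hu P hP _ x hx
    intro v hv he
    rw [hM12] at hnew
    exact hnew v hv (by rw [hcw v hv, he])
  · intro u hu x hx hcx hnew hadj
    have hP : ({x} : Finset V) ∈ Tt R X := by
      refine mem_filter.2 ⟨?_, ?_⟩
      · rw [← hcx]
        exact mem_image_of_mem _ hx
      · rw [card_singleton, th_singleton]
    have hnew' : ∀ v ∈ M, f v ≠ {x} := by
      intro v hv he
      have h1 := (hw v hv).1
      rw [he, mem_singleton] at h1
      exact hnew v (mem_filter.2 ⟨hv, by rw [he, card_singleton]⟩) h1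
    rw [mem_union] at hu
    rcases hu with hu | hu
    · obtain ⟨h1, h2⟩ := mem_filter.1 hu
      have h3 := (hbest _ _ (hM.change h1 hP ⟨x, mem_singleton_self _, hadj⟩ hnew')).2 rfl
      have h4 : insert u (tr M f) ⊆ tr M (Function.update f u {x}) := by
        intro v hv
        rw [mem_insert] at hv
        rcases hv with rfl | hv
        · refine mem_filter.2 ⟨h1, ?_⟩
          rw [Function.update_self, card_singleton]
        · obtain ⟨h5, h6⟩ := mem_filter.1 hv
          refine mem_filter.2 ⟨h5, ?_⟩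
          rw [Function.update_of_ne]
          · exact h6
          · intro he
            exact h2 (he ▸ h6)
      have h5 := card_le_card h4
      have h6 : u ∉ tr M f := fun h6 => h2 (mem_filter.1 h6).2
      rw [card_insert_of_notMem h6] at h5
      omega
    · exact haug u hu _ hP hnew' x (mem_singleton_self _) hadj
  · have h1 := card_Tt hX
    rw [hM12]
    have h2 : (Tt R X).filter (fun P => ¬ ∀ v ∈ M, cmp R X (w v) ≠ P) ⊆ M.image f := by
      intro P hP
      have h3 := (mem_filter.1 hP).2
      push Not at h3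
      obtain ⟨v, hv, he⟩ := h3
      rw [← he, hcw v hv]
      exact mem_image_of_mem _ hv
    have h3 := (card_le_card h2).trans card_image_le
    have h4 : ((Tt R X).filter (fun P => ∀ v ∈ M, cmp R X (w v) ≠ P)).card +
        ((Tt R X).filter (fun P => ¬ ∀ v ∈ M, cmp R X (w v) ≠ P)).card = (Tt R X).card :=
      card_filter_add_card_filter_not _
    rw [hXth] at h1
    omega
  · intro M' f' h1 h2 h3
    rw [hcM]
    exact (hbest M' f' ⟨h1, h2, h3⟩).1

end EX

end Pool.Agent.Lib.MP_a05470_co
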