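import Pool.Agent.Lib.MP_a05470_co.FP.PicksM
import Pool.Agent.Lib.MP_a05470_co.TF.HostL

/-!
# Hosting the critical core

The picks and the saved places are given (`TR.Out`); the core is a critical set whose nontrivial
tight components may have one vertex on a reserved vertex of the clique.
-/

set_option autoImplicit false
set_option linter.unusedSectionVars false

namespace Pool.Agent.Lib.MP_a05470_co

open Finset Classical

namespace LM

open L1 JT

section core

variable {V : Type} [Fintype V] {R : SimpleGraph V}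

variable (R) in
/-- the vertices of `X` without neighbour in `X` -/
noncomputable def iso (X : Finset V) : Finset V := X.filter (fun x => ∀ y ∈ X, ¬ R.Adj x y)

variable (R) in
/-- the nontrivial tight components of `X` -/
noncomputable def tcs (X : Finset V) : Finset (Finset V) :=
  (cmps R X).filter (fun P => 2 ≤ P.card ∧ ∃ c, TightPiece R P c)

variable (R) in
/-- the size parameter of a component -/
noncomputable def cP (P : Finset V) : ℕ := P.card - th R P

theorem cP_tight {P : Finset V} {c : ℕ} (h : TightPiece R P c) : cP R P = c := by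
  unfold cP
  rw [h.card, h.theta]
  omega

theorem cmps_sep_rest {X P : Finset V} (hP : P ∈ cmps R X) : Sep R P (X \ P) :=
  ⟨disjoint_sdiff, fun _ hx _ hy hadj =>
    (mem_sdiff.1 hy).2 (cmps_closed hP hx (mem_sdiff.1 hy).1 hadj)⟩

theorem biUnion_cmps {X : Finset V} : (cmps R X).biUnion (fun P => P) = X := by
  ext x
  rw [mem_biUnion]
  constructor
  · rintro ⟨P, hP, hx⟩
    exact cmps_sub hP hx
  · intro hx
    obtain ⟨P, hP, h⟩ := cmps_cover hx
    exact ⟨P, hP, h⟩

theorem cmps_uniq {X P Q : Finset V} (hP : P ∈ cmps R X) (hQ : Q ∈ cmps R X) {x : V}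
    (hx : x ∈ P) (hy : x ∈ Q) : P = Q := by
  by_contra h
  exact disjoint_left.1 (cmps_sep hP hQ h).1 hx hy

/-- the vertices of a nontrivial component are not isolated -/
theorem notMem_iso {X P : Finset V} (hP : P ∈ cmps R X) (h2 : 2 ≤ P.card) {x : V} (hx : x ∈ P) :
    x ∉ iso R X := by
  intro hiso
  have hiso' := (mem_filter.1 hiso).2
  obtain ⟨y, hy, hne⟩ := exists_mem_ne (show 1 < P.card by omega) x
  have hr : (R.comap (Subtype.val : {z // z ∈ P} → V)).Reachable ⟨x, hx⟩ ⟨y, hy⟩ :=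
    cmps_preconn hP _ _
  obtain ⟨p⟩ := hr
  cases p with
  | nil => exact hne rfl
  | cons h _ => exact hiso' _ (cmps_sub hP (Subtype.property _)) h

theorem sum_cP {X : Finset V} {C : ℕ} (hX : Crit R X) (hC : X.card ≤ C + th R X)
    {J : Finset (Finset V)} (hJ : J ⊆ cmps R X) : ∑ P ∈ J, cP R P ≤ C := by
  obtain ⟨_, h2, h3⟩ := HL.crit_rest (P := fun P => P) (J := J) hX
    (fun P hP => cmps_sub (hJ hP)) (fun P hP => cmps_sep_rest (hJ hP))
    (fun P hP Q hQ h => (cmps_sep (hJ hP) (hJ hQ) h).1)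
  have h4 := th_le_card (R := R) (X \ J.biUnion (fun P => P))
  have h5 : ∑ P ∈ J, P.card = ∑ P ∈ J, cP R P + ∑ P ∈ J, th R P := by
    rw [← sum_add_distrib]
    refine sum_congr rfl (fun P _ => ?_)
    unfold cP
    have := th_le_card (R := R) P
    omega
  omega

/-- the number of the vertices in the nontrivial components -/
theorem card_nontriv {X : Finset V} {C : ℕ} (hX : Crit R X) (hC : X.card ≤ C + th R X) :
    (X \ iso R X).card ≤ 2 * C + (tcs R X).card := by
  obtain ⟨_, h2, h3⟩ := HL.crit_rest (P := fun P => P) (J := cmps R X) hX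
    (fun P hP => cmps_sub hP) (fun P hP => cmps_sep_rest hP)
    (fun P hP Q hQ h => (cmps_sep hP hQ h).1)
  rw [biUnion_cmps, sdiff_self] at h2 h3
  simp only [bot_eq_empty, th_empty, card_empty, zero_add] at h2 h3
  have h4 : ∀ P ∈ cmps R X, (P \ iso R X).card + 2 * th R P ≤
      2 * P.card + (if P ∈ tcs R X then 1 else 0) := by
    intro P hP
    obtain ⟨c, k1, k2, k3⟩ := cmps_data hX hP
    have k4 : (P \ iso R X).card ≤ P.card := card_le_card sdiff_subset
    rcases Nat.lt_or_ge P.card 2 with h | h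
    · have k5 : P \ iso R X = ∅ := by
        rw [sdiff_eq_empty_iff_subset]
        intro x hx
        refine mem_filter.2 ⟨cmps_sub hP hx, fun y hy hxy => ?_⟩
        have h6 := cmps_closed hP hx hy hxy
        have h7 : 1 < P.card := one_lt_card.2 ⟨x, hx, y, h6, hxy.ne⟩
        omega
      rw [k5, card_empty]
      omega
    · by_cases hcard : P.card = 2 * c + 1
      · have k6 : P ∈ tcs R X := mem_filter.2 ⟨hP, h, c, hcard, cmps_preconn hP,
          cmps_crit hX hP, k1, k3⟩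
        rw [if_pos k6]
        omega
      · omega
  have h5 : (X \ iso R X).card ≤ ∑ P ∈ cmps R X, (P \ iso R X).card := by
    refine le_trans (card_le_card ?_) card_biUnion_le
    intro x hx
    rw [mem_sdiff] at hx
    obtain ⟨P, hP, h⟩ := cmps_cover (R := R) hx.1
    exact mem_biUnion.2 ⟨P, hP, mem_sdiff.2 ⟨h, hx.2⟩⟩
  have h6 := sum_le_sum h4
  rw [sum_add_distrib, sum_add_distrib, ← mul_sum, ← mul_sum, h2, h3] at h6
  have h7 : ∑ P ∈ cmps R X, (if P ∈ tcs R X then 1 else 0) = (tcs R X).card := by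
    rw [sum_boole, Nat.cast_id]
    congr 1
    ext P
    rw [mem_filter]
    exact ⟨fun h => h.2, fun h => ⟨(mem_filter.1 h).1, h⟩⟩
  omega

/-- the critical core and its matching -/
structure CoreX (R : SimpleGraph V) (C : ℕ) (X M1 M2 N : Finset V) (w : V → V) : Prop where
  crit : Crit R X
  card : X.card ≤ C + th R X
  cover : ∀ v, v ∈ X ∨ v ∈ M1 ∪ M2 ∪ N
  disj : Disjoint X (M1 ∪ M2 ∪ N)
  wX : ∀ u ∈ M1 ∪ M2, w u ∈ X
  iso1 : ∀ u ∈ M1, w u ∈ iso R X
  tight2 : ∀ u ∈ M2, ∃ P ∈ tcs R X, w u ∈ P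
  dist2 : ∀ u ∈ M2, ∀ u' ∈ M2, ∀ P ∈ tcs R X, w u ∈ P → w u' ∈ P → w u = w u'
  blueN : ∀ P ∈ tcs R X, (∀ u ∈ M2, w u ∉ P) → ∀ n ∈ N, ∀ x ∈ P, ¬ R.Adj n x
  blue0 : ∀ u ∈ M2 ∪ N, ∀ x ∈ iso R X \ M1.image w, ¬ R.Adj u x

end core

section finish

variable {W : Type} [Fintype W] {Gr Gb : SimpleGraph W} {V : Type} [Fintype V]
  {R : SimpleGraph V} {F Xb K : Finset W} {mt : W → W} {U : Finset W}
  {c : W → ℤ} {M1 M2 N X : Finset V} {w : V → V} {U' : Finset W} {occ : W → V}
  {Dr : Finset V} {ψ : V → W} {Sv Yr : Finset W} {θ : W → V} {C : ℕ}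

theorem finishX [Nonempty V] [Nonempty W] (hH : Host Gr Gb F Xb K mt)
    (hUc : ∀ u ∈ U, ∀ v ∈ U, u ≠ v → Gn Gr Gb u v)
    (hC : CoreX R C X M1 M2 N w)
    (hO : TR.Out (fun u => hit Gr Gb u ((F \ Xb) ∪ K)) U Gr.Adj Gb.Adj c (F \ Xb) Xb (Nm Gr Gb F)
      M1 M2 N (iso R X \ M1.image w) w R.Adj U' occ Dr ψ Sv Yr θ)
    {Kres : Finset W} (hKK : Kres ⊆ K) (hKU : ∀ u ∈ U, ∀ z ∈ Kres, Gn Gr Gb u z)
    (hK4 : ∀ z ∈ Kres, (hit Gr Gb z F).card ≤ 4)
    (hKp : Kres.card + 1 ≤ (tcs R X).card ∨ Kres = ∅)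
    (h1 : 2 * C + 1 ≤ ((F \ Xb) \ U.biUnion (fun u => hit Gr Gb u ((F \ Xb) ∪ K))).card)
    (h2 : (X \ iso R X).card ≤
      ((F \ Xb) \ U.biUnion (fun u => hit Gr Gb u ((F \ Xb) ∪ K))).card + Kres.card)
    (h3 : ∑ u ∈ U, c u + X.card ≤ (((F \ Xb) ∪ K).card : ℤ)) :
    Contains R Rᶜ Gr Gb := by
  obtain ⟨φ, hφ1, hφ2, hφ3, hφ4⟩ := place hH hUc hC.blue0 hO
  set S := (F \ Xb) ∪ K with hS
  set Y := U.biUnion (fun u => hit Gr Gb u S) with hY
  set Z := (F \ Xb) \ Y with hZ
  set Mem := M1 ∪ M2 ∪ N with hMem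
  have hYS : Y ⊆ S := by
    intro y hy
    obtain ⟨u, hu, hy⟩ := mem_biUnion.1 hy
    exact (mem_hit.1 hy).1
  have hKY : ∀ z ∈ Kres, z ∉ Y := by
    intro z hz h
    obtain ⟨u, hu, h⟩ := mem_biUnion.1 h
    exact (mem_hit.1 h).2 (hKU u hu z hz)
  have hZF : Z ⊆ F \ Xb := sdiff_subset
  have hKF : ∀ z ∈ K, z ∉ F := fun z hz => Finset.disjoint_left.1 hH.KF hz
  -- the labels
  set Lab := Sv.image θ with hLab
  have hLabel : ∀ x ∈ Lab, x ∈ iso R X ∨ ∃ u ∈ M2, w u = x := by
    intro x hx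
    obtain ⟨y, hy, rfl⟩ := mem_image.1 hx
    rcases hO.theta_mem y hy with (h | h) | h
    · obtain ⟨u, hu, h⟩ := mem_image.1 h
      rw [← h]
      exact Or.inl (hC.iso1 u hu)
    · exact Or.inl (mem_sdiff.1 h).1
    · obtain ⟨u, hu, h⟩ := mem_image.1 h.2
      exact Or.inr ⟨u, hu, h⟩
  have hLabX : Lab ⊆ X := by
    intro x hx
    rcases hLabel x hx with h | ⟨u, hu, h⟩
    · exact (mem_filter.1 h).1
    · rw [← h]
      exact hC.wX u (mem_union_right _ hu)
  -- the components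
  set J1 := (tcs R X).filter (fun P => ¬ Disjoint P Lab) with hJ1
  set Tu := (tcs R X).filter (fun P => Disjoint P Lab) with hTu
  have hcardT : Tu.card + J1.card = (tcs R X).card :=
    card_filter_add_card_filter_not (fun P => Disjoint P Lab)
  obtain ⟨J4, hJ4, hJ4c⟩ := exists_subset_card_eq (s := Tu) (n := min Tu.card Kres.card)
    (min_le_left _ _)
  obtain ⟨κ, hκ1, hκ2⟩ := TR.exists_inj (A := J4) (B := Kres) (by
    rw [hJ4c]
    exact min_le_right _ _)
  have hJJ : Disjoint J4 J1 := by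
    rw [Finset.disjoint_left]
    intro P h h'
    exact (mem_filter.1 h').2 (mem_filter.1 (hJ4 h)).2
  have hJt : ∀ P ∈ J4 ∪ J1, P ∈ tcs R X := by
    intro P hP
    rw [mem_union] at hP
    rcases hP with h | h
    · exact (mem_filter.1 (hJ4 h)).1
    · exact (mem_filter.1 h).1
  have hJc : J4 ∪ J1 ⊆ cmps R X := fun P hP => (mem_filter.1 (hJt P hP)).1
  have hrep : ∀ P ∈ J4 ∪ J1, ∃ x, x ∈ P ∧ (P ∈ J1 → x ∈ Lab) := by
    intro P hP
    by_cases h : P ∈ J1
    · have h4 := (mem_filter.1 h).2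
      rw [Finset.not_disjoint_iff] at h4
      obtain ⟨x, hx, hx'⟩ := h4
      exact ⟨x, hx, fun _ => hx'⟩
    · obtain ⟨x, hx⟩ := cmps_ne (hJc hP)
      exact ⟨x, hx, fun h' => absurd h' h⟩
  choose! xr hxr1 hxr2 using hrep
  -- the places for the isolated vertices
  set T' := ((K \ Y) ∪ Yr) \ J4.image κ with hT'
  set I' := iso R X \ Lab with hI'
  obtain ⟨I2, hI2, hI2c⟩ := exists_subset_card_eq (s := I') (n := min I'.card T'.card)
    (min_le_left _ _)
  obtain ⟨f, hf1, hf2⟩ := TR.exists_inj (A := I2) (B := T') (by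
    rw [hI2c]
    exact min_le_right _ _)
  set Ext := Lab ∪ (J4.image xr ∪ I2) with hExt
  -- inverses
  have hinv : ∀ x ∈ Lab, ∃ y ∈ Sv, θ y = x := by
    intro x hx
    obtain ⟨y, hy, h⟩ := mem_image.1 hx
    exact ⟨y, hy, h⟩
  choose! τ hτ1 hτ2 using hinv
  have hinv2 : ∀ x ∈ J4.image xr, ∃ P ∈ J4, xr P = x := by
    intro x hx
    obtain ⟨P, hP, h⟩ := mem_image.1 hx
    exact ⟨P, hP, h⟩
  choose! σ hσ1 hσ2 using hinv2
  -- the three parts are disjoint
  have hxrJ4 : ∀ P ∈ J4, xr P ∉ iso R X ∧ xr P ∉ Lab ∧ xr P ∈ P := by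
    intro P hP
    have h4 := mem_union_left J1 hP
    have h5 := hxr1 P h4
    have h6 := mem_filter.1 (hJt P h4)
    refine ⟨notMem_iso h6.1 h6.2.1 h5, fun h => ?_, h5⟩
    exact Finset.disjoint_left.1 (mem_filter.1 (hJ4 hP)).2 h5 h
  have hd1 : ∀ x ∈ J4.image xr, x ∉ Lab ∧ x ∉ iso R X ∧ x ∈ X := by
    intro x hx
    obtain ⟨P, hP, rfl⟩ := mem_image.1 hx
    obtain ⟨h4, h5, h6⟩ := hxrJ4 P hP
    exact ⟨h5, h4, cmps_sub (hJc (mem_union_left _ hP)) h6⟩
  have hd2 : ∀ x ∈ I2, x ∉ Lab ∧ x ∈ iso R X := by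
    intro x hx
    have h4 := mem_sdiff.1 (hI2 hx)
    exact ⟨h4.2, h4.1⟩
  have hExtX : Ext ⊆ X := by
    intro x hx
    rw [hExt, mem_union, mem_union] at hx
    rcases hx with h | h | h
    · exact hLabX h
    · exact (hd1 x h).2.2
    · exact (mem_filter.1 (hd2 x h).2).1
  -- the positions of the exterior vertices
  set ρ : V → W := fun x => if x ∈ Lab then τ x else if x ∈ J4.image xr then κ (σ x) else f x
    with hρ
  have hρL : ∀ x ∈ Lab, ρ x ∈ Sv ∧ θ (ρ x) = x := by
    intro x hx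
    have h4 : ρ x = τ x := by
      rw [hρ]
      simp only [if_pos hx]
    rw [h4]
    exact ⟨hτ1 x hx, hτ2 x hx⟩
  have hρJ : ∀ x ∈ J4.image xr, ρ x = κ (σ x) ∧ ρ x ∈ Kres := by
    intro x hx
    have h4 : ρ x = κ (σ x) := by
      rw [hρ]
      simp only [if_neg (hd1 x hx).1, if_pos hx]
    rw [h4]
    exact ⟨rfl, hκ1 _ (hσ1 x hx)⟩
  have hρI : ∀ x ∈ I2, ρ x = f x ∧ ρ x ∈ T' := by
    intro x hx
    have h4 : x ∉ J4.image xr := fun h => (hd1 x h).2.1 (hd2 x hx).2
    have h5 : ρ x = f x := by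
      rw [hρ]
      simp only [if_neg (hd2 x hx).1, if_neg h4]
    rw [h5]
    exact ⟨rfl, hf1 x hx⟩
  have hρKY : ∀ x ∈ J4.image xr ∪ I2, ρ x ∈ (K \ Y) ∪ Yr := by
    intro x hx
    rw [mem_union] at hx
    rcases hx with h | h
    · have h4 := (hρJ x h).2
      exact mem_union_left _ (mem_sdiff.2 ⟨hKK h4, hKY _ h4⟩)
    · exact (mem_sdiff.1 (hρI x h).2).1
  have hYrY : Yr ⊆ Y := hO.yrY
  have hSvY : Sv ⊆ Y := hO.svY
  have hKYS : (K \ Y) ∪ Yr ⊆ S := by
    intro y hy
    rw [mem_union, mem_sdiff] at hy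
    rcases hy with h | h
    · exact mem_union_right _ h.1
    · exact hYS (hYrY h)
  have hSvKY : ∀ y ∈ Sv, y ∉ (K \ Y) ∪ Yr := by
    intro y hy h
    rw [mem_union, mem_sdiff] at h
    rcases h with h | h
    · exact h.2 (hSvY hy)
    · exact Finset.disjoint_left.1 hO.disj hy h
  have hZKY : ∀ y ∈ (K \ Y) ∪ Yr, y ∉ Z := by
    intro y hy h
    rw [hZ, mem_sdiff] at h
    rw [mem_union, mem_sdiff] at hy
    rcases hy with h' | h'
    · exact hKF y h'.1 (mem_sdiff.1 h.1).1
    · exact h.2 (hYrY h')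
  have hρS : ∀ x ∈ Ext, ρ x ∈ S ∧ ρ x ∉ Z := by
    intro x hx
    rw [hExt, mem_union] at hx
    rcases hx with h | h
    · have h4 := (hρL x h).1
      exact ⟨hYS (hSvY h4), fun h5 => (mem_sdiff.1 h5).2 (hSvY h4)⟩
    · have h4 := hρKY x h
      exact ⟨hKYS h4, hZKY _ h4⟩
  have hκJ : ∀ x ∈ J4.image xr, ∀ y ∈ I2, ρ x ≠ ρ y := by
    intro x hx y hy h
    have h4 := (mem_sdiff.1 (hρI y hy).2).2
    rw [← h, (hρJ x hx).1] at h4
    exact h4 (mem_image_of_mem _ (hσ1 x hx))
  have hρinj : ∀ x ∈ Ext, ∀ y ∈ Ext, ρ x = ρ y → x = y := by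
    intro x hx y hy h
    rw [hExt, mem_union] at hx hy
    rcases hx with hx | hx <;> rcases hy with hy | hy
    · have h4 := (hρL x hx).2
      rw [h, (hρL y hy).2] at h4
      exact h4.symm
    · exact absurd (h ▸ hρKY y hy) (hSvKY _ (hρL x hx).1)
    · exact absurd (h ▸ hρKY x hx) (hSvKY _ (hρL y hy).1)
    · rw [mem_union] at hx hy
      rcases hx with hx | hx <;> rcases hy with hy | hy
      · rw [(hρJ x hx).1, (hρJ y hy).1] at h
        have h4 := hκ2 (mem_coe.2 (hσ1 x hx)) (mem_coe.2 (hσ1 y hy)) h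
        rw [← hσ2 x hx, ← hσ2 y hy, h4]
      · exact absurd h (hκJ x hx y hy)
      · exact absurd h.symm (hκJ y hy x hx)
      · rw [(hρI x hx).1, (hρI y hy).1] at h
        exact hf2 (mem_coe.2 hx) (mem_coe.2 hy) h
  -- the exterior vertices that are not isolated
  have hrepE : ∀ x ∈ Ext, x ∉ iso R X → ∃ P ∈ J4 ∪ J1, x ∈ P ∧ x = xr P := by
    intro x hx hiso
    rw [hExt, mem_union, mem_union] at hx
    rcases hx with h | h | h
    · obtain ⟨u, hu, hux⟩ := (hLabel x h).resolve_left hiso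
      obtain ⟨P, hP, hwP⟩ := hC.tight2 u hu
      have hPx : x ∈ P := hux ▸ hwP
      have hPJ : P ∈ J1 := mem_filter.2 ⟨hP, fun hdis => Finset.disjoint_left.1 hdis hPx h⟩
      refine ⟨P, mem_union_right _ hPJ, hPx, ?_⟩
      have h4 := hxr1 P (mem_union_right _ hPJ)
      have h5 := hxr2 P (mem_union_right _ hPJ) hPJ
      have h6 := mem_filter.1 hP
      obtain ⟨u', hu', h7⟩ := (hLabel _ h5).resolve_left (notMem_iso h6.1 h6.2.1 h4)
      rw [← hux, ← h7]
      exact hC.dist2 u hu u' hu' P hP hwP (by rw [h7]; exact h4)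
    · obtain ⟨P, hP, rfl⟩ := mem_image.1 h
      exact ⟨P, mem_union_left _ hP, (hxrJ4 P hP).2.2, rfl⟩
    · exact absurd (hd2 x h).2 hiso
  have hxrE : ∀ P ∈ J4 ∪ J1, xr P ∈ Ext := by
    intro P hP
    rw [hExt, mem_union, mem_union]
    by_cases h : P ∈ J1
    · exact Or.inl (hxr2 P hP h)
    · rw [mem_union] at hP
      exact Or.inr (Or.inl (mem_image_of_mem _ (hP.resolve_right h)))
  have hindE : ∀ x ∈ Ext, ∀ y ∈ Ext, ¬ R.Adj x y := by
    intro x hx y hy hxy
    have hxi : x ∉ iso R X := fun h => (mem_filter.1 h).2 y (hExtX hy) hxy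
    have hyi : y ∉ iso R X := fun h => (mem_filter.1 h).2 x (hExtX hx) hxy.symm
    obtain ⟨P, hP, h4, h5⟩ := hrepE x hx hxi
    obtain ⟨Q, hQ, h6, h7⟩ := hrepE y hy hyi
    have h8 := cmps_closed (hJc hP) h4 (hExtX hy) hxy
    have h9 := cmps_uniq (hJc hP) (hJc hQ) h8 h6
    rw [← h9, ← h5] at h7
    exact hxy.ne h7.symm
  -- members and exterior vertices
  have hmx : ∀ m ∈ Mem, ∀ x ∈ Ext, (R.Adj m x → Gr.Adj (φ m) (ρ x)) ∧
      (¬ R.Adj m x → Gb.Adj (φ m) (ρ x)) := by
    intro m hm x hx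
    rw [hExt, mem_union] at hx
    rcases hx with hx | hx
    · obtain ⟨h4, h5⟩ := hρL x hx
      have h6 := hφ4 m hm _ h4
      rw [h5] at h6
      exact h6
    · obtain ⟨h4, h5⟩ := hφ3 m hm _ (hρKY x hx)
      refine ⟨fun hadj => ?_, fun _ => h4⟩
      by_cases hmD : m ∈ Dr
      · exfalso
        have hmN := hO.drN hmD
        rw [mem_union] at hx
        rcases hx with hx | hx
        · obtain ⟨P, hP, rfl⟩ := mem_image.1 hx
          have h6 := mem_filter.1 (hJ4 hP)
          refine hC.blueN P h6.1 ?_ m hmN _ (hxrJ4 P hP).2.2 hadj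
          intro u hu hwu
          obtain ⟨y, hy, _, h7⟩ := hO.drop ⟨m, hmD⟩ u (mem_union_right _ hu)
          refine Finset.disjoint_left.1 h6.2 hwu ?_
          rw [← h7]
          exact mem_image_of_mem _ hy
        · refine hC.blue0 m (mem_union_right _ hmN) x (mem_sdiff.2 ⟨(hd2 x hx).2, ?_⟩) hadj
          intro h6
          obtain ⟨i, hi, h7⟩ := mem_image.1 h6
          obtain ⟨y, hy, _, h8⟩ := hO.drop ⟨m, hmD⟩ i (mem_union_left _ hi)
          apply (hd2 x hx).1
          rw [← h7, ← h8]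
          exact mem_image_of_mem _ hy
      · exact (h5 hmD).1
  -- the number of the remaining vertices
  have hdisE1 : Disjoint Lab (J4.image xr ∪ I2) := by
    rw [Finset.disjoint_left]
    intro x hx h
    rw [mem_union] at h
    rcases h with h | h
    · exact (hd1 x h).1 hx
    · exact (hd2 x h).1 hx
  have hdisE2 : Disjoint (J4.image xr) I2 := by
    rw [Finset.disjoint_left]
    intro x hx h
    exact (hd1 x hx).2.1 (hd2 x h).2
  have hxrinj : Set.InjOn xr (J4 ∪ J1 : Finset (Finset V)) := by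
    intro P hP Q hQ h
    rw [mem_coe] at hP hQ
    exact cmps_uniq (hJc hP) (hJc hQ) (hxr1 P hP) (h ▸ hxr1 Q hQ)
  have hJ4i : (J4.image xr).card = J4.card :=
    card_image_of_injOn (hxrinj.mono (by
      intro P hP
      rw [mem_coe] at hP ⊢
      exact mem_union_left _ hP))
  have hExtc : Ext.card = Sv.card + (J4.card + I2.card) := by
    rw [hExt, card_union_of_disjoint hdisE1, card_union_of_disjoint hdisE2, hJ4i, hLab,
      card_image_of_injOn hO.theta_inj]
  have hcardX : (X \ Ext).card + Ext.card = X.card := card_sdiff_add_card_eq_card hExtX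
  have hκK : J4.image κ ⊆ (K \ Y) ∪ Yr := by
    intro y hy
    obtain ⟨P, hP, rfl⟩ := mem_image.1 hy
    exact mem_union_left _ (mem_sdiff.2 ⟨hKK (hκ1 P hP), hKY _ (hκ1 P hP)⟩)
  have hT'c : T'.card + J4.card = (K \ Y).card + Yr.card := by
    have h4 : T'.card + (J4.image κ).card = ((K \ Y) ∪ Yr).card :=
      card_sdiff_add_card_eq_card hκK
    rw [card_image_of_injOn hκ2, card_union_of_disjoint] at h4
    · exact h4
    · rw [Finset.disjoint_left]
      intro y hy hy'
      exact (mem_sdiff.1 hy).2 (hYrY hy')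
  have hKFd : Disjoint (F \ Xb) K := by
    rw [Finset.disjoint_left]
    intro y hy hy'
    exact hKF y hy' (mem_sdiff.1 hy).1
  have hSc : S.card = Z.card + (K \ Y).card + Y.card := by
    have h4 : (S \ Y).card + Y.card = S.card := card_sdiff_add_card_eq_card hYS
    have h5 : S \ Y = Z ∪ (K \ Y) := by
      rw [hS, hZ, union_sdiff_distrib]
    rw [h5, card_union_of_disjoint] at h4
    · omega
    · exact disjoint_of_subset_left sdiff_subset (disjoint_of_subset_right sdiff_subset hKFd)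
  have hall : I'.card ≤ I2.card → (X \ Ext).card ≤ Z.card := by
    intro hII
    have hI2' : I2 = I' := eq_of_subset_of_card_le hI2 hII
    have h4 : X \ Ext ⊆ (X \ iso R X) \ (J4 ∪ J1).image xr := by
      intro x hx
      rw [mem_sdiff] at hx
      rw [mem_sdiff, mem_sdiff]
      refine ⟨⟨hx.1, fun h => hx.2 ?_⟩, fun h => hx.2 ?_⟩
      · rw [hExt, mem_union, mem_union]
        by_cases h5 : x ∈ Lab
        · exact Or.inl h5
        · exact Or.inr (Or.inr (hI2' ▸ mem_sdiff.2 ⟨h, h5⟩))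
      · obtain ⟨P, hP, rfl⟩ := mem_image.1 h
        exact hxrE P hP
    have h5 : (J4 ∪ J1).image xr ⊆ X \ iso R X := by
      intro x hx
      obtain ⟨P, hP, rfl⟩ := mem_image.1 hx
      have h6 := mem_filter.1 (hJt P hP)
      exact mem_sdiff.2 ⟨cmps_sub h6.1 (hxr1 P hP), notMem_iso h6.1 h6.2.1 (hxr1 P hP)⟩
    have h6 := card_le_card h4
    have h7 := card_sdiff_add_card_eq_card h5
    rw [card_image_of_injOn hxrinj, card_union_of_disjoint hJJ] at h7
    have h8 := card_nontriv hC.crit hC.card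
    omega
  have hcount : (X \ Ext).card ≤ Z.card := by
    rcases Nat.lt_or_ge I2.card I'.card with hlt | hge
    · rcases hO.count with h | h
      · have h4 : (Y \ (Sv ∪ Yr)).card + (Sv ∪ Yr).card = Y.card :=
          card_sdiff_add_card_eq_card (union_subset hSvY hYrY)
        rw [card_union_of_disjoint hO.disj] at h4
        have h5 : ((Y \ (Sv ∪ Yr)).card : ℤ) ≤ ∑ u ∈ U, c u := h
        omega
      · exfalso
        have h4 : I' = ∅ := by
          rw [hI', sdiff_eq_empty_iff_subset]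
          intro x hx
          apply h x
          by_cases h5 : x ∈ M1.image w
          · exact Or.inl h5
          · exact Or.inr (mem_sdiff.2 ⟨hx, h5⟩)
        rw [h4, card_empty] at hlt
        omega
    · exact hall hge
  -- the rest
  set Q := (X \ Ext) \ (J4 ∪ J1).biUnion (fun P => P) with hQ
  have hdeg := HL.rest_degree (P := fun P => P) (J := J4 ∪ J1) (c := cP R) (Q := Q) hC.crit
    hC.card (fun P hP => cmps_sub (hJc hP)) (by
      intro P hP
      obtain ⟨c, hc⟩ := (mem_filter.1 (hJt P hP)).2.2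
      rw [cP_tight hc]
      exact hc)
    (fun P hP => cmps_sep_rest (hJc hP))
    (fun P hP Q hQ h => (cmps_sep (hJc hP) (hJc hQ) h).1)
    (sdiff_subset_sdiff sdiff_subset (Subset.refl _))
  have hsumJ := sum_cP hC.crit hC.card hJc
  have hc2 : ∀ P ∈ tcs R X, 2 ≤ cP R P ∧ P.card = 2 * cP R P + 1 ∧ TightPiece R P (cP R P) := by
    intro P hP
    obtain ⟨h4, h5, c, hc⟩ := mem_filter.1 hP
    rw [cP_tight hc]
    have h6 := hc.card
    have h7 := hc.size
    exact ⟨by omega, h6, hc⟩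
  refine HL.host_all (κ := Finset V) (Z := Z) (J4 := J4) (J1 := J1) (P := fun P => P) (x := xr)
    (c := cP R) (f := fun P => Z.filter (fun z => ¬ Gr.Adj (ρ (xr P)) z)) (Q := Q)
    (C := C - ∑ P ∈ J4 ∪ J1, cP R P) (E := Mem ∪ Ext)
    (φ0 := fun v => if v ∈ X then ρ v else φ v)
    ?_ hJJ ?_ hxr1 ?_ ?_ ?_ ?_ ?_ ?_ ?_ ?_ ?_ ?_ ?_ ?_
  · -- places
    refine ⟨fun x hx y hy hxy => hH.FF_blue (hZF hx) (hZF hy) hxy, ?_⟩
    intro x hx y hy z hz hxy hxz h4 h5
    exact hH.good.uniq x (mem_sdiff.1 (hZF hx)).1 y (mem_sdiff.1 (hZF hy)).1 z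
      (mem_sdiff.1 (hZF hz)).1 hxy hxz (fun h => h4 h.1) (fun h => h5 h.1)
  · intro P hP
    exact (hc2 P (hJt P hP)).2.2
  · intro P hP P' hP' h
    exact cmps_sep (hJc hP) (hJc hP') h
  · intro P hP
    constructor
    · rw [Finset.disjoint_left]
      intro x hx hx'
      exact (mem_sdiff.1 hx).2 (mem_biUnion.2 ⟨P, hP, hx'⟩)
    · intro x hx y hy hxy
      have h4 := mem_sdiff.1 hx
      exact h4.2 (mem_biUnion.2 ⟨P, hP,
        cmps_closed (hJc hP) hy (mem_sdiff.1 h4.1).1 hxy.symm⟩)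
  · intro v hv
    have := hdeg v hv
    omega
  · -- light vertices
    intro P hP
    have h4 : ρ (xr P) ∈ Kres := (hρJ _ (mem_image_of_mem _ hP)).2
    refine le_trans (card_le_card ?_) (hK4 _ h4)
    intro z hz
    obtain ⟨h5, h6⟩ := mem_filter.1 hz
    exact mem_hit.2 ⟨(mem_sdiff.1 (hZF h5)).1, fun h => h6 h.1⟩
  · -- the vertices of the family
    intro P hP
    have h4 : xr P ∈ Lab := hxr2 P (mem_union_right _ hP) hP
    obtain ⟨h5, h6⟩ := hρL _ h4
    have h7 : ρ (xr P) ∈ F \ Xb := by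
      rcases hO.theta_mem _ h5 with (h8 | h8) | h8
      · exfalso
        rw [h6] at h8
        obtain ⟨u, hu, h9⟩ := mem_image.1 h8
        have h10 := mem_filter.1 (hJt P (mem_union_right _ hP))
        refine notMem_iso h10.1 h10.2.1 (hxr1 P (mem_union_right _ hP)) ?_
        rw [← h9]
        exact hC.iso1 u hu
      · exfalso
        rw [h6] at h8
        have h10 := mem_filter.1 (hJt P (mem_union_right _ hP))
        exact notMem_iso h10.1 h10.2.1 (hxr1 P (mem_union_right _ hP)) (mem_sdiff.1 h8).1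
      · exact h8.1
    rw [card_le_one]
    intro z hz z' hz'
    obtain ⟨h8, h9⟩ := mem_filter.1 hz
    obtain ⟨h10, h11⟩ := mem_filter.1 hz'
    have hne : ∀ z ∈ Z, ρ (xr P) ≠ z := fun z hz h =>
      (mem_sdiff.1 hz).2 (h ▸ hSvY h5)
    exact hH.good.uniq _ (mem_sdiff.1 h7).1 z (mem_sdiff.1 (hZF h8)).1 z'
      (mem_sdiff.1 (hZF h10)).1 (hne z h8) (hne z' h10) (fun h => h9 h.1) (fun h => h11 h.1)
  · -- one more component
    intro hne
    have h4 : 1 ≤ J4.card := card_pos.2 hne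
    rcases J1.eq_empty_or_nonempty with h0 | ⟨P, hP⟩
    · have h5 : J4.card < (tcs R X).card := by
        rw [hJ4c] at h4
        rcases hKp with h | h
        · have := min_le_right Tu.card Kres.card
          omega
        · rw [h, card_empty] at h4
          omega
      obtain ⟨P, hP, hPJ⟩ := exists_mem_notMem_of_card_lt_card h5
      have h6 : insert P J4 ⊆ cmps R X := by
        apply insert_subset (mem_filter.1 hP).1
        exact fun Q hQ => hJc (mem_union_left _ hQ)
      have h7 := sum_cP hC.crit hC.card h6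
      rw [sum_insert hPJ] at h7
      have h8 := (hc2 P hP).1
      rw [h0, union_empty, sum_empty]
      omega
    · have h5 : cP R P ≤ ∑ P ∈ J1, cP R P := single_le_sum (f := fun P => cP R P)
        (fun _ _ => Nat.zero_le _) hP
      have h6 := (hc2 P (hJt P (mem_union_right _ hP))).1
      omega
  · rw [Nat.sub_add_cancel hsumJ]
    exact h1
  · -- the number of places
    refine le_trans ?_ hcount
    have h4 : Q ∪ (J4 ∪ J1).biUnion (fun P => P.erase (xr P)) ⊆ X \ Ext := by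
      intro x hx
      rw [mem_union] at hx
      rcases hx with h | h
      · exact (mem_sdiff.1 h).1
      · obtain ⟨P, hP, hxP⟩ := mem_biUnion.1 h
        rw [mem_erase] at hxP
        refine mem_sdiff.2 ⟨cmps_sub (hJc hP) hxP.2, fun hE => ?_⟩
        have h6 := mem_filter.1 (hJt P hP)
        obtain ⟨P', hP', h7, h8⟩ := hrepE x hE (notMem_iso h6.1 h6.2.1 hxP.2)
        have h9 := cmps_uniq (hJc hP) (hJc hP') hxP.2 h7
        rw [← h9] at h8
        exact hxP.1 h8
    have h5 := card_le_card h4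
    rw [card_union_of_disjoint, card_biUnion] at h5
    · have h6 : ∑ P ∈ J4 ∪ J1, (P.erase (xr P)).card = ∑ P ∈ J4 ∪ J1, 2 * cP R P := by
        refine sum_congr rfl (fun P hP => ?_)
        rw [card_erase_of_mem (hxr1 P hP), (hc2 P (hJt P hP)).2.1]
        omega
      rw [h6] at h5
      exact h5
    · intro P hP P' hP' h
      exact disjoint_of_subset_left (erase_subset _ _) (disjoint_of_subset_right
        (erase_subset _ _) (cmps_sep (hJc hP) (hJc hP') h).1)
    · rw [Finset.disjoint_left]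
      intro x hx hx'
      obtain ⟨P, hP, hxP⟩ := mem_biUnion.1 hx'
      exact (mem_sdiff.1 hx).2 (mem_biUnion.2 ⟨P, hP, (mem_erase.1 hxP).2⟩)
  · -- cover
    intro v
    rcases hC.cover v with hv | hv
    · by_cases hE : v ∈ Ext
      · exact Or.inl (mem_union_right _ hE)
      · by_cases hJ : v ∈ (J4 ∪ J1).biUnion (fun P => P)
        · obtain ⟨P, hP, hvP⟩ := mem_biUnion.1 hJ
          refine Or.inr (Or.inr ⟨P, hP, hvP, fun h => hE ?_⟩)
          rw [h]
          exact hxrE P hP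
        · exact Or.inr (Or.inl (mem_sdiff.2 ⟨mem_sdiff.2 ⟨hv, hE⟩, hJ⟩))
    · exact Or.inl (mem_union_left _ hv)
  · -- the exterior
    intro x hx y hy hxy
    have hmX : ∀ m ∈ Mem, m ∉ X := fun m hm h => Finset.disjoint_left.1 hC.disj h hm
    rw [mem_union] at hx hy
    rcases hx with hx | hx <;> rcases hy with hy | hy
    · simp only [if_neg (hmX x hx), if_neg (hmX y hy)]
      have h4 := hφ1 x hx y hy hxy
      exact ⟨fun _ => h4.1, fun _ => h4.2⟩
    · simp only [if_neg (hmX x hx), if_pos (hExtX hy)]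
      exact hmx x hx y hy
    · simp only [if_pos (hExtX hx), if_neg (hmX y hy)]
      have h4 := hmx y hy x hx
      exact ⟨fun h => (h4.1 h.symm).symm, fun h => (h4.2 (fun h' => h h'.symm)).symm⟩
    · simp only [if_pos (hExtX hx), if_pos (hExtX hy)]
      refine ⟨fun h => absurd h (hindE x hx y hy), fun _ => ?_⟩
      exact hH.S_blue (hρS x hx).1 (hρS y hy).1 (fun h => hxy (hρinj x hx y hy h))
  · intro v hv z hz
    have hmX : ∀ m ∈ Mem, m ∉ X := fun m hm h => Finset.disjoint_left.1 hC.disj h hm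
    rw [mem_union] at hv
    rcases hv with hv | hv
    · simp only [if_neg (hmX v hv)]
      exact (hφ2 v hv z hz).2
    · simp only [if_pos (hExtX hv)]
      exact hH.S_blue (hρS v hv).1 (mem_union_left _ (hZF hz))
        (fun h => (hρS v hv).2 (h ▸ hz))
  · intro v hv y hy hvy
    have hmX : ∀ m ∈ Mem, m ∉ X := fun m hm h => Finset.disjoint_left.1 hC.disj h hm
    rw [mem_union] at hv
    rw [mem_union, not_or] at hy
    rcases hv with hv | hv
    · left
      intro z hz
      simp only [if_neg (hmX v hv)]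
      exact (hφ2 v hv z hz).1
    · right
      have hyX : y ∈ X := (hC.cover y).resolve_right hy.1
      obtain ⟨P, hP, h4, h5⟩ := hrepE v hv (fun h => (mem_filter.1 h).2 y hyX hvy)
      refine ⟨P, hP, cmps_closed (hJc hP) h4 hyX hvy, ?_, ?_⟩
      · rw [← h5]
        exact hvy.ne'
      · intro z hz hzf
        simp only [if_pos (hExtX hv)]
        by_contra hcon
        apply hzf
        rw [mem_filter]
        refine ⟨hz, ?_⟩
        rw [← h5]
        exact hcon

end finish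

end LM

end Pool.Agent.Lib.MP_a05470_co
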