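import Pool.Agent.Lib.MP_a05470_co.FP.CaseA0

/-!
# Selecting the picks, the core has nontrivial components

Three cases: many light vertices (`alpha`); few light vertices and few big ones (`beta1`); few
light vertices and many big ones (`beta2`).
-/

set_option autoImplicit false
set_option linter.unusedSectionVars false

namespace Pool.Agent.Lib.MP_a05470_co

open Finset Classical

namespace LM

open L1

variable {W : Type} [Fintype W] {Gr Gb : SimpleGraph W} {F : Finset W}

/-- the vertices of `F` outside the transversal which are not hit by the picks -/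
noncomputable def Fre (Gr Gb : SimpleGraph W) (F Xb K U : Finset W) : Finset W :=
  (F \ Xb) \ U.biUnion (fun u => hit Gr Gb u ((F \ Xb) ∪ K))

/-- the common part of the output -/
structure Sel (Gr Gb : SimpleGraph W) (a b : ℕ) (F Xb K Kr U : Finset W) (mt : W → W)
    (m0 : ℕ) : Prop where
  host : Host Gr Gb F Xb K mt
  XU : Xb ⊆ U
  cardU : U.card = m0
  clq : ∀ u ∈ U, ∀ v ∈ U, u ≠ v → Gn Gr Gb u v
  picks : TR.Picks (fun u => hit Gr Gb u ((F \ Xb) ∪ K)) U Gr.Adj Gb.Adj
    (cc Gr Gb a b F Xb K) (Free Gr Gb F Xb K) (F \ Xb) Xb (Nm Gr Gb F)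
  KrK : Kr ⊆ K
  light : ∀ z ∈ Kr, (hit Gr Gb z F).card ≤ 4
  KrU : ∀ z ∈ Kr, ∀ u ∈ U, Gn Gr Gb u z

/-- the number of hits gives the number of free vertices -/
theorem fre_ge {Xb K U : Finset W} {mt : W → W} (hH : Host Gr Gb F Xb K mt) :
    F.card ≤ (Fre Gr Gb F Xb K U).card + 2 * Xb.card +
      ∑ u ∈ U \ Xb, (hit Gr Gb u F).card := by
  have h1 : F ⊆ Fre Gr Gb F Xb K U ∪ (Xb ∪ Xb.image mt) ∪
      (U \ Xb).biUnion (fun u => hit Gr Gb u F) := by
    intro y hy
    rw [mem_union, mem_union, mem_union]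
    by_cases hyX : y ∈ Xb
    · exact Or.inl (Or.inr (Or.inl hyX))
    by_cases hyY : y ∈ U.biUnion (fun u => hit Gr Gb u ((F \ Xb) ∪ K))
    · obtain ⟨u, hu, hyu⟩ := mem_biUnion.1 hyY
      have hng := (mem_hit.1 hyu).2
      by_cases huX : u ∈ Xb
      · obtain ⟨k1, k2, k3, k4, k5, k6⟩ := hH.tv.mate u (hH.tv.sub huX)
        have h2 : y = mt u := by
          by_contra hcon
          exact hng (k5 y hy (fun h => hyX (h ▸ huX)) hcon)
        exact Or.inl (Or.inr (Or.inr (mem_image.2 ⟨u, huX, h2.symm⟩)))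
      · exact Or.inr (mem_biUnion.2 ⟨u, mem_sdiff.2 ⟨hu, huX⟩, mem_hit.2 ⟨hy, hng⟩⟩)
    · exact Or.inl (Or.inl (mem_sdiff.2 ⟨mem_sdiff.2 ⟨hy, hyX⟩, hyY⟩))
  have h2 := (card_le_card h1).trans (card_union_le _ _)
  have h3 := card_union_le (Fre Gr Gb F Xb K U) (Xb ∪ Xb.image mt)
  have h4 := card_union_le Xb (Xb.image mt)
  have h5 : (Xb.image mt).card ≤ Xb.card := card_image_le
  have h6 : ((U \ Xb).biUnion (fun u => hit Gr Gb u F)).card ≤
      ∑ u ∈ U \ Xb, (hit Gr Gb u F).card := card_biUnion_le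
  omega

/-- the picks together with the transversal -/
theorem join_picks {Xb U1 : Finset W} {mt : W → W} (hT : Tv Gr Gb F Xb mt)
    (hU1 : ∀ u ∈ U1, ∀ x ∈ Xb, Gn Gr Gb x u)
    (hU1g : ∀ u ∈ U1, ∀ v ∈ U1, u ≠ v → Gn Gr Gb u v) :
    Disjoint U1 Xb ∧ (U1 ∪ Xb) \ Xb = U1 ∧ (U1 ∪ Xb).card = U1.card + Xb.card ∧
      ∀ u ∈ U1 ∪ Xb, ∀ v ∈ U1 ∪ Xb, u ≠ v → Gn Gr Gb u v := by
  have hU1X : Disjoint U1 Xb := by
    rw [Finset.disjoint_left]
    intro u hu hX
    exact not_gn_self u (hU1 u hu u hX)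
  refine ⟨hU1X, ?_, card_union_of_disjoint hU1X, ?_⟩
  · rw [union_sdiff_right, sdiff_eq_self_of_disjoint hU1X]
  · intro u hu v hv huv
    rw [mem_union] at hu hv
    rcases hu with hu | hu <;> rcases hv with hv | hv
    · exact hU1g u hu v hv huv
    · exact (hU1 u hu v hv).symm
    · exact hU1 v hv u hu
    · exact hT.green hu hv huv

/-- the places and the family -/
theorem card_places {Xb K : Finset W} {mt : W → W} (hH : Host Gr Gb F Xb K mt) :
    ((F \ Xb) ∪ K).card + Xb.card = (F ∪ K).card := by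
  have e1 : ((F \ Xb) ∪ K) ∪ Xb = F ∪ K := by
    ext y
    simp only [mem_union, mem_sdiff]
    constructor
    · rintro ((h | h) | h)
      · exact Or.inl h.1
      · exact Or.inr h
      · exact Or.inl (RR_sub F (hH.tv.sub h))
    · rintro (h | h)
      · by_cases hX : y ∈ Xb
        · exact Or.inr hX
        · exact Or.inl (Or.inl ⟨h, hX⟩)
      · exact Or.inl (Or.inr h)
  have e2 : Disjoint ((F \ Xb) ∪ K) Xb := by
    rw [Finset.disjoint_left]
    intro y hy hy'
    rw [mem_union, mem_sdiff] at hy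
    rcases hy with hy | hy
    · exact hy.2 hy'
    · exact Finset.disjoint_left.1 hH.KF hy (RR_sub F (hH.tv.sub hy'))
  rw [← e1, card_union_of_disjoint e2]

/-- few hits from a small cost -/
theorem hits_of_cost {a b : ℕ} (ha : 0 < a) (hab : a ≤ b) {U1 : Finset W} {A : ℝ} {n : ℤ}
    (hs : ∑ u ∈ U1, D (a : ℝ) b Gr Gb u F < A) (hA : A ≤ a * ((n : ℝ) + 1)) :
    ((∑ u ∈ U1, (hit Gr Gb u F).card : ℕ) : ℤ) ≤ n := by
  have haR : (0 : ℝ) < a := by exact_mod_cast ha
  have habR : (a : ℝ) ≤ b := by exact_mod_cast hab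
  have h1 : (a : ℝ) * ((∑ u ∈ U1, (hit Gr Gb u F).card : ℕ) : ℝ) < a * ((n : ℝ) + 1) := by
    push_cast
    rw [mul_sum]
    calc ∑ u ∈ U1, (a : ℝ) * (hit Gr Gb u F).card ≤ ∑ u ∈ U1, D (a : ℝ) b Gr Gb u F :=
          sum_le_sum (fun u _ => D_ge_card haR.le habR u F)
      _ < _ := lt_of_lt_of_le hs hA
  have h2 := lt_of_mul_lt_mul_left h1 haR.le
  have h3 : ((∑ u ∈ U1, (hit Gr Gb u F).card : ℕ) : ℤ) < n + 1 := by exact_mod_cast h2
  omega

/-- the sum of the allowances, integer form -/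
theorem sum_cc' {a b : ℕ} (ha : 0 < a) {Xb K U : Finset W} (hXU : Xb ⊆ U) {j : ℤ}
    (hsum : ∑ u ∈ U \ Xb, (D (a : ℝ) b Gr Gb u (F ∪ K) - (a + b)) < a * ((j : ℝ) + 1)) :
    ∑ u ∈ U, cc Gr Gb a b F Xb K u ≤ (U.card : ℤ) - Xb.card + j := by
  have haR : (0 : ℝ) < a := by exact_mod_cast ha
  have h1 : ∑ u ∈ U, cc Gr Gb a b F Xb K u = ∑ u ∈ U \ Xb, cc Gr Gb a b F Xb K u := by
    rw [← sum_sdiff hXU]
    have : ∑ u ∈ Xb, cc Gr Gb a b F Xb K u = 0 := by
      apply sum_eq_zero
      intro u hu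
      unfold cc
      rw [if_pos hu]
    rw [this, add_zero]
  have h2 : ∑ u ∈ U \ Xb, cc Gr Gb a b F Xb K u = ((U \ Xb).card : ℤ) +
      ∑ u ∈ U \ Xb, ⌊(D (a : ℝ) b Gr Gb u (F ∪ K) - (a + b)) / a⌋ := by
    rw [← nsmul_one (U \ Xb).card, ← sum_const, ← sum_add_distrib]
    apply sum_congr rfl
    intro u hu
    unfold cc
    rw [if_neg (mem_sdiff.1 hu).2]
  have h3 : ((∑ u ∈ U \ Xb, ⌊(D (a : ℝ) b Gr Gb u (F ∪ K) - (a + b)) / a⌋ : ℤ) : ℝ) <
      (j : ℝ) + 1 := by
    push_cast
    calc ∑ u ∈ U \ Xb, ((⌊(D (a : ℝ) b Gr Gb u (F ∪ K) - (a + b)) / a⌋ : ℤ) : ℝ)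
        ≤ ∑ u ∈ U \ Xb, (D (a : ℝ) b Gr Gb u (F ∪ K) - (a + b)) / a :=
          sum_le_sum (fun u _ => Int.floor_le _)
      _ = (∑ u ∈ U \ Xb, (D (a : ℝ) b Gr Gb u (F ∪ K) - (a + b))) / a := by
          rw [sum_div]
      _ < (j : ℝ) + 1 := by
          rw [div_lt_iff₀ haR]
          linarith
  have h4 : ∑ u ∈ U \ Xb, ⌊(D (a : ℝ) b Gr Gb u (F ∪ K) - (a + b)) / a⌋ < j + 1 := by
    exact_mod_cast h3
  have h5 : (U \ Xb).card + Xb.card = U.card := card_sdiff_add_card_eq_card hXU
  rw [h1, h2]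
  have h6 : (((U \ Xb).card : ℕ) : ℤ) + Xb.card = U.card := by exact_mod_cast h5
  linarith

/-- **The selection.** -/
theorem select [Nonempty W] {a g : ℕ} (ha : 0 < a) (hg : g ≤ a)
    (hcost : ∀ v : W, D (a : ℝ) ((a + g : ℕ) : ℝ) Gr Gb v univ < Fintype.card W)
    (hB : Best Gr Gb F) {m0 C0 p : ℕ} (hm : m0 + C0 = a) (hp : 1 ≤ p) (hC : 2 * p ≤ C0)
    (hr : (RR Gb F).card ≤ 2 * m0) :
    ∃ (Xb K Kr U : Finset W) (mt : W → W), Sel Gr Gb a (a + g) F Xb K Kr U mt m0 ∧
      ((∑ u ∈ U, cc Gr Gb a (a + g) F Xb K u + (2 * a + g + 1 : ℕ) ≤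
          (((F \ Xb) ∪ K).card : ℤ) + m0 ∧
        ((Kr.card + 1 = p ∧ 2 * C0 + 1 ≤ (Fre Gr Gb F Xb K U).card) ∨
          2 * C0 + p + 1 ≤ (Fre Gr Gb F Xb K U).card)) ∨
      ((∀ z ∈ K, ∀ u ∈ U, Gn Gr Gb u z) ∧ Kr.card ≤ g ∧ Kr.card + 2 ≤ p ∧
        ∑ u ∈ U, cc Gr Gb a (a + g) F Xb K u + (2 * a + g + 1 : ℕ) ≤
          ((F \ Xb).card : ℤ) + Kr.card + m0 ∧ 2 * C0 + 1 ≤ (Fre Gr Gb F Xb K U).card)) := by
  have haR : (0 : ℝ) < a := by exact_mod_cast ha
  have hab : a ≤ a + g := Nat.le_add_right a g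
  have habR : (a : ℝ) ≤ ((a + g : ℕ) : ℝ) := by exact_mod_cast hab
  have hbR : ((a + g : ℕ) : ℝ) ≤ 2 * a := by
    have : a + g ≤ 2 * a := by omega
    exact_mod_cast this
  have hN0 : (0 : ℝ) < Fintype.card W := by exact_mod_cast Fintype.card_pos
  obtain ⟨Xb, mt, hT⟩ := exists_trans hB.good
  have hRR := hT.card_RR
  have hXm : Xb.card ≤ m0 := by omega
  -- the light vertices
  set Lt : Finset W := univ.filter (fun z => z ∉ F ∧ (∀ y ∈ F, Gb.Adj z y) ∧
    (∀ x ∈ Xb, Gn Gr Gb z x) ∧ (hit Gr Gb z F).card ≤ 4) with hLt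
  have hmLt : ∀ {z : W}, z ∈ Lt ↔ z ∉ F ∧ (∀ y ∈ F, Gb.Adj z y) ∧
      (∀ x ∈ Xb, Gn Gr Gb z x) ∧ (hit Gr Gb z F).card ≤ 4 := by
    intro z
    rw [hLt, mem_filter]
    exact ⟨fun h => h.2, fun h => ⟨mem_univ _, h⟩⟩
  obtain ⟨K0, _, hK0L, hK0cl, hK0max⟩ := exists_max_clique Gb (A := Lt) (K0 := ∅)
    (empty_subset _) (by simp)
  obtain ⟨K, hK0K, hH, hmax⟩ := exists_host hB hT (K0 := K0) (fun z hz => by
    obtain ⟨h1, h2, h3, _⟩ := hmLt.1 (hK0L hz)
    exact ⟨h1, h2, h3⟩) hK0cl
  have hH0 : Host Gr Gb F Xb K0 mt := ⟨hB.good, hT, Disjoint.mono_left hK0K hH.KF, hK0cl,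
    fun z hz => hH.blue z (hK0K hz), fun z hz => hH.green z (hK0K hz)⟩
  have hVL : ∀ v ∈ VV Gr Gb F, v ∈ Lt := by
    intro v hv
    obtain ⟨h1, h2, h3⟩ := VV_cand hT hv
    refine hmLt.2 ⟨h1, h2, h3, ?_⟩
    rw [(mem_VV.1 hv).2.1]
    norm_num
  have hDK : ∀ v, (a : ℝ) + ((a + g : ℕ) : ℝ) ≤
      D (a : ℝ) ((a + g : ℕ) : ℝ) Gr Gb v (F ∪ K) := by
    intro v
    apply hH.D_ge hB haR.le habR hbR
    intro v hv hvK
    obtain ⟨h1, h2, h3⟩ := VV_cand hT hv
    exact hmax v h1 h2 h3 hvK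
  have hDK0 : ∀ v, (a : ℝ) + ((a + g : ℕ) : ℝ) ≤
      D (a : ℝ) ((a + g : ℕ) : ℝ) Gr Gb v (F ∪ K0) := by
    intro v
    apply hH0.D_ge hB haR.le habR hbR
    intro v hv hvK
    exact hK0max v (hVL v hv) hvK
  have hDF : ∀ v, 2 * (a : ℝ) ≤ D (a : ℝ) ((a + g : ℕ) : ℝ) Gr Gb v F :=
    fun v => hB.D_two haR.le habR v
  have hFne : F.Nonempty := by
    rw [nonempty_iff_ne_empty]
    intro h
    have h1 := hDF (Classical.arbitrary W)
    rw [h] at h1
    unfold D at h1
    rw [sum_empty] at h1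
    linarith
  have hSne : (F ∪ K).Nonempty := hFne.mono subset_union_left
  have hS0ne : (F ∪ K0).Nonempty := hFne.mono subset_union_left
  have hFcard : 2 * a < F.card := by
    have h1 := card_gt_of_D (Gr := Gr) (Gb := Gb) hcost hDF hFne
    exact_mod_cast h1
  have hScard : a + (a + g) < (F ∪ K).card := by
    have h1 := card_gt_of_D (Gr := Gr) (Gb := Gb) hcost hDK hSne
    exact_mod_cast h1
  have hS0card : a + (a + g) < (F ∪ K0).card := by
    have h1 := card_gt_of_D (Gr := Gr) (Gb := Gb) hcost hDK0 hS0ne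
    exact_mod_cast h1
  have hS0c : (F ∪ K0).card = F.card + K0.card := card_union_of_disjoint hH0.KF.symm
  have hplK := card_places hH
  have hplK0 : (F \ Xb).card + Xb.card = F.card :=
    card_sdiff_add_card_eq_card ((hT.sub).trans (RR_sub F))
  -- the picks of a clique `K`
  have hpicksK : ∀ U : Finset W, Xb ⊆ U → (∀ u ∈ U, ∀ v ∈ U, u ≠ v → Gn Gr Gb u v) →
      TR.Picks (fun u => hit Gr Gb u ((F \ Xb) ∪ K)) U Gr.Adj Gb.Adj
        (cc Gr Gb a (a + g) F Xb K) (Free Gr Gb F Xb K) (F \ Xb) Xb (Nm Gr Gb F) := by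
    intro U hXU hUg
    refine picks hB hH ha hab hXU hUg (fun u _ => hDK u) ?_
    intro u hu huX huF
    rw [mem_union, not_or] at huF
    by_cases hb : ∀ y ∈ F, Gb.Adj u y
    · obtain ⟨z, hz, h⟩ := hmax u huF.1 hb (fun x hx =>
        hUg u hu x (hXU hx) (fun h => huX (h ▸ hx))) huF.2
      exact ⟨z, mem_union_right _ hz, h⟩
    · push Not at hb
      obtain ⟨y, hy, h⟩ := hb
      refine ⟨y, mem_union_left _ (mem_sdiff.2 ⟨hy, fun hX => h ?_⟩), h⟩
      exact (hUg u hu y (hXU hX) (fun h => huX (h ▸ hX))).2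
  have hQc : ∀ Kr ⊆ K0, (Xb ∪ Kr).card = Xb.card + Kr.card := by
    intro Kr hKr
    apply card_union_of_disjoint
    rw [Finset.disjoint_left]
    intro x hx hx'
    exact Finset.disjoint_left.1 hH0.KF (hKr hx') (RR_sub F (hT.sub hx))
  obtain ⟨q, hq⟩ : ∃ q, m0 = Xb.card + q := ⟨m0 - Xb.card, by omega⟩
  have hfreA : ∀ U1 : Finset W, U1.card = q →
      ∑ v ∈ U1, (D (a : ℝ) ((a + g : ℕ) : ℝ) Gr Gb v F - 2 * a) < a * (F.card - 2 * (a : ℝ)) →
      ((∑ u ∈ U1, (hit Gr Gb u F).card : ℕ) : ℤ) ≤ F.card - 2 * a + 2 * q - 1 := by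
    intro U1 hU1c hU1a
    apply hits_of_cost (Gr := Gr) (Gb := Gb) (F := F) ha hab (U1 := U1)
      (A := a * (F.card - 2 * (a : ℝ)) + q * (2 * a))
    · rw [sum_sub_distrib, sum_const, nsmul_eq_mul, hU1c] at hU1a
      linarith
    · apply le_of_eq
      push_cast
      ring
  rcases Nat.lt_or_ge (K0.card + 1) p with hk0 | hk0
  · -- few light vertices
    set Bg : Finset W := univ.filter (fun v => (∀ x ∈ Xb ∪ K0, Gn Gr Gb x v) ∧ v ∉ F ∧
      ∀ y ∈ F, Gb.Adj v y) with hBg
    have hmBg : ∀ {v : W}, v ∈ Bg ↔ (∀ x ∈ Xb ∪ K0, Gn Gr Gb x v) ∧ v ∉ F ∧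
        ∀ y ∈ F, Gb.Adj v y := by
      intro v
      rw [hBg, mem_filter]
      exact ⟨fun h => h.2, fun h => ⟨mem_univ _, h⟩⟩
    have hBg5 : ∀ v ∈ Bg, 5 ≤ (hit Gr Gb v F).card := by
      intro v hv
      obtain ⟨h1, h2, h3⟩ := hmBg.1 hv
      by_contra hcon
      have h4 : v ∈ Lt := hmLt.2 ⟨h2, h3, fun x hx => (h1 x (mem_union_left _ hx)).symm,
        by omega⟩
      have h5 : v ∉ K0 := fun h => not_gn_self v (h1 v (mem_union_right _ h))
      obtain ⟨z, hz, h6⟩ := hK0max v h4 h5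
      exact h6 (h1 z (mem_union_right _ hz)).2.symm
    obtain ⟨c, hc⟩ : ∃ c, C0 = K0.card + 2 + c := ⟨C0 - (K0.card + 2), by omega⟩
    have hQ : (Xb ∪ K0).card = Xb.card + K0.card := hQc K0 (Subset.refl _)
    by_cases hbig : (a : ℝ) * Bg.card ≤ c * Fintype.card W
    · -- few big vertices
      have hBq : (((Xb ∪ K0).card : ℝ) + q) * ((Fintype.card W : ℝ) / a) + Bg.card ≤
          Fintype.card W := by
        have h1 : (Bg.card : ℝ) ≤ c * ((Fintype.card W : ℝ) / a) := by
          rw [← mul_div_assoc, le_div_iff₀ haR]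
          linarith
        have h2 : ((((Xb ∪ K0).card : ℝ) + q) + c) * ((Fintype.card W : ℝ) / a) ≤
            a * ((Fintype.card W : ℝ) / a) := by
          apply mul_le_mul_of_nonneg_right _ (div_nonneg hN0.le haR.le)
          have h3 : (Xb ∪ K0).card + q + c ≤ a := by omega
          exact_mod_cast h3
        have h3 : (a : ℝ) * ((Fintype.card W : ℝ) / a) = Fintype.card W := by
          field_simp
        rw [h3] at h2
        linarith
      have hpicks0 : ∀ U : Finset W, Xb ⊆ U →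
          (∀ u ∈ U, ∀ v ∈ U, u ≠ v → Gn Gr Gb u v) → (∀ u ∈ U, u ∉ Xb → u ∉ Bg ∧
            ∀ x ∈ Xb ∪ K0, Gn Gr Gb x u) →
          TR.Picks (fun u => hit Gr Gb u ((F \ Xb) ∪ K0)) U Gr.Adj Gb.Adj
            (cc Gr Gb a (a + g) F Xb K0) (Free Gr Gb F Xb K0) (F \ Xb) Xb (Nm Gr Gb F) := by
        intro U hXU hUg hUB
        refine LM.picks hB hH0 ha hab hXU hUg (fun u _ => hDK0 u) ?_
        intro u hu huX huF
        rw [mem_union, not_or] at huF
        obtain ⟨h1, h2⟩ := hUB u hu huX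
        by_cases hb : ∀ y ∈ F, Gb.Adj u y
        · exact absurd (hmBg.2 ⟨h2, huF.1, hb⟩) h1
        · push Not at hb
          obtain ⟨y, hy, h⟩ := hb
          refine ⟨y, mem_union_left _ (mem_sdiff.2 ⟨hy, fun hX => h ?_⟩), h⟩
          exact (h2 y (mem_union_left _ hX)).2.symm
      have hJle : ∀ {d : W → ℝ} {J : ℝ}, (∀ v, 0 ≤ d v) → ∑ v, d v < J →
          ∑ v ∈ univ \ Bg, d v < J := by
        intro d J hd h
        exact lt_of_le_of_lt (sum_le_sum_of_subset_of_nonneg (subset_univ _)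
          (fun v _ _ => hd v)) h
      rcases Nat.lt_or_ge K0.card g with hkg | hkg
      · -- all light vertices are used
        obtain ⟨U1, hU1, hU1c, hU1g, hU1a⟩ := exists_picks1 ha hab hcost
          (Q := Xb ∪ K0) (Fb := Bg) (q := q) hBq
          (d := fun v => D (a : ℝ) ((a + g : ℕ) : ℝ) Gr Gb v (F ∪ K0) -
            (a + ((a + g : ℕ) : ℝ)))
          (J := (F ∪ K0).card - ((a : ℝ) + ((a + g : ℕ) : ℝ)))
          (fun v => by linarith [hDK0 v])
          (hJle (fun v => by linarith [hDK0 v]) (sum_excess ha hab hcost hS0ne))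
        obtain ⟨hd, hUX, hUc, hUg⟩ := join_picks hT
          (fun u hu x hx => (mem_Al.1 (hU1 hu)).1 x (mem_union_left _ hx)) hU1g
        set U := U1 ∪ Xb with hU
        have hXU : Xb ⊆ U := subset_union_right
        have hUB : ∀ u ∈ U, u ∉ Xb → u ∉ Bg ∧ ∀ x ∈ Xb ∪ K0, Gn Gr Gb x u := by
          intro u hu huX
          have h1 := mem_Al.1 (hU1 ((mem_union.1 hu).resolve_right huX))
          exact ⟨h1.2, h1.1⟩
        have hKU : ∀ z ∈ K0, ∀ u ∈ U, Gn Gr Gb u z := by
          intro z hz u hu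
          by_cases huX : u ∈ Xb
          · exact (hH0.green z hz u huX).symm
          · exact ((hUB u hu huX).2 z (mem_union_right _ hz)).symm
        have hP := hpicks0 U hXU hUg hUB
        have hcc := sum_cc' (Gr := Gr) (Gb := Gb) (b := a + g) (F := F) (K := K0) ha hXU
          (j := (F ∪ K0).card - (2 * a + g + 1)) (by
            rw [hUX]
            refine lt_of_lt_of_le hU1a (le_of_eq ?_)
            push_cast
            ring)
        refine ⟨Xb, K0, K0, U, mt, ⟨hH0, hXU, by omega, hUg, hP, Subset.refl _,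
          fun z hz => (hmLt.1 (hK0L hz)).2.2.2, hKU⟩, Or.inr ⟨hKU, hkg.le, by omega, ?_, ?_⟩⟩
        · push_cast
          omega
        · have h1 : ∑ u ∈ U1, ((hit Gr Gb u F).card : ℤ) ≤
              ∑ u ∈ U, cc Gr Gb a (a + g) F Xb K0 u + q := by
            have h2 : ∑ u ∈ U, cc Gr Gb a (a + g) F Xb K0 u =
                ∑ u ∈ U1, cc Gr Gb a (a + g) F Xb K0 u := by
              rw [← hUX, ← sum_sdiff hXU]
              have : ∑ u ∈ Xb, cc Gr Gb a (a + g) F Xb K0 u = 0 := by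
                apply sum_eq_zero
                intro u hu
                unfold cc
                rw [if_pos hu]
              rw [this, add_zero]
            have h3 : ∑ u ∈ U1, (cc Gr Gb a (a + g) F Xb K0 u + 1) =
                ∑ u ∈ U1, cc Gr Gb a (a + g) F Xb K0 u + q := by
              rw [sum_add_distrib, sum_const, hU1c, nsmul_eq_mul, mul_one]
            rw [h2, ← h3]
            apply sum_le_sum
            intro u hu
            have huU : u ∈ U := mem_union_left _ hu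
            refine le_trans ?_ (hP.hc u huU)
            have h4 : hit Gr Gb u F ⊆ hit Gr Gb u ((F \ Xb) ∪ K0) := by
              intro y hy
              rw [mem_hit] at hy ⊢
              refine ⟨mem_union_left _ (mem_sdiff.2 ⟨hy.1, fun hX => hy.2 ?_⟩), hy.2⟩
              exact ((mem_Al.1 (hU1 hu)).1 y (mem_union_left _ hX)).symm
            exact_mod_cast card_le_card h4
          have h2 := fre_ge (U := U) hH0
          rw [hUX] at h2
          have h3 : ((∑ u ∈ U1, (hit Gr Gb u F).card : ℕ) : ℤ) =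
            ∑ u ∈ U1, ((hit Gr Gb u F).card : ℤ) := by push_cast; rfl
          omega
      · -- only `g` light vertices are used
        obtain ⟨Kr, hKr, hKrc⟩ := exists_subset_card_eq hkg
        obtain ⟨U1, hU1, hU1c, hU1g, hU1a⟩ := exists_picks1 ha hab hcost
          (Q := Xb ∪ K0) (Fb := Bg) (q := q) hBq
          (d := fun v => D (a : ℝ) ((a + g : ℕ) : ℝ) Gr Gb v F - 2 * a)
          (J := F.card - 2 * (a : ℝ))
          (fun v => by linarith [hDF v])
          (hJle (fun v => by linarith [hDF v]) (sum_excess ha hab hcost hFne))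
        obtain ⟨hd, hUX, hUc, hUg⟩ := join_picks hT
          (fun u hu x hx => (mem_Al.1 (hU1 hu)).1 x (mem_union_left _ hx)) hU1g
        set U := U1 ∪ Xb with hU
        have hXU : Xb ⊆ U := subset_union_right
        have hUB : ∀ u ∈ U, u ∉ Xb → u ∉ Bg ∧ ∀ x ∈ Xb ∪ K0, Gn Gr Gb x u := by
          intro u hu huX
          have h1 := mem_Al.1 (hU1 ((mem_union.1 hu).resolve_right huX))
          exact ⟨h1.2, h1.1⟩
        have hKU : ∀ z ∈ K0, ∀ u ∈ U, Gn Gr Gb u z := by
          intro z hz u hu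
          by_cases huX : u ∈ Xb
          · exact (hH0.green z hz u huX).symm
          · exact ((hUB u hu huX).2 z (mem_union_right _ hz)).symm
        have hP := hpicks0 U hXU hUg hUB
        have hDe : ∀ u ∈ U1, D (a : ℝ) ((a + g : ℕ) : ℝ) Gr Gb u (F ∪ K0) =
            D (a : ℝ) ((a + g : ℕ) : ℝ) Gr Gb u F := by
          intro u hu
          unfold D
          rw [sum_union hH0.KF.symm]
          have : ∑ y ∈ K0, Mat (a : ℝ) ((a + g : ℕ) : ℝ) Gr Gb u y = 0 := by
            apply sum_eq_zero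
            intro z hz
            have h1 := hKU z hz u (mem_union_left _ hu)
            unfold Mat
            rw [if_pos h1.1, if_pos h1.2]
            simp
          rw [this, add_zero]
        have hcc := sum_cc' (Gr := Gr) (Gb := Gb) (b := a + g) (F := F) (K := K0) ha hXU
          (j := F.card - (2 * a + 1)) (by
            rw [hUX]
            have h1 : ∑ u ∈ U1, (D (a : ℝ) ((a + g : ℕ) : ℝ) Gr Gb u (F ∪ K0) -
                (a + ((a + g : ℕ) : ℝ))) ≤
                ∑ u ∈ U1, (D (a : ℝ) ((a + g : ℕ) : ℝ) Gr Gb u F - 2 * a) := by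
              apply sum_le_sum
              intro u hu
              rw [hDe u hu]
              linarith
            refine lt_of_le_of_lt h1 (lt_of_lt_of_le hU1a (le_of_eq ?_))
            push_cast
            ring)
        refine ⟨Xb, K0, Kr, U, mt, ⟨hH0, hXU, by omega, hUg, hP, hKr,
          fun z hz => (hmLt.1 (hK0L (hKr hz))).2.2.2, fun z hz => hKU z (hKr hz)⟩,
          Or.inr ⟨hKU, hKrc.le, by omega, ?_, ?_⟩⟩
        · push_cast
          omega
        · have h1 := hfreA U1 hU1c hU1a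
          have h2 := fre_ge (U := U) hH0
          rw [hUX] at h2
          omega
    · -- many big vertices
      push Not at hbig
      have hNa : (a : ℝ) ≤ Fintype.card W := by
        obtain ⟨v⟩ := ‹Nonempty W›
        have h1 := D_self (Gr := Gr) (Gb := Gb) haR.le habR (mem_univ v)
        linarith [hcost v]
      have hfl : c * Fintype.card W / a ≤ Bg.card := by
        have h1 : c * Fintype.card W < a * Bg.card := by exact_mod_cast hbig
        exact (Nat.div_lt_of_lt_mul h1).le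
      obtain ⟨Fb, hFb, hFbc⟩ := exists_subset_card_eq hfl
      have hFb1 : (a : ℝ) * Fb.card ≤ c * Fintype.card W := by
        have h1 : a * Fb.card ≤ c * Fintype.card W := by
          rw [hFbc]
          exact Nat.mul_div_le _ _
        exact_mod_cast h1
      have hFb2 : (c : ℝ) * Fintype.card W < a * (Fb.card + 1) := by
        have h1 : c * Fintype.card W < a * (Fb.card + 1) := by
          rw [hFbc]
          exact Nat.lt_mul_div_succ _ ha
        exact_mod_cast h1
      have hFb3 : ((c : ℝ) - 1) * Fintype.card W ≤ a * Fb.card := by linarith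
      have hgR : (g : ℝ) ≤ a := by exact_mod_cast hg
      have hb' : ((a + g : ℕ) : ℝ) = a + g := by push_cast; ring
      obtain ⟨U1, hU1, hU1c, hU1g, hU1a, hU1b⟩ := exists_picks2 ha hab hcost
        (Q := Xb ∪ K0) (Fb := Fb) (q := q)
        (by
          have h1 : (Fb.card : ℝ) ≤ c * ((Fintype.card W : ℝ) / a) := by
            rw [← mul_div_assoc, le_div_iff₀ haR]
            linarith
          have h2 : ((((Xb ∪ K0).card : ℝ) + q + 2) + c) * ((Fintype.card W : ℝ) / a) ≤
              a * ((Fintype.card W : ℝ) / a) := by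
            apply mul_le_mul_of_nonneg_right _ (div_nonneg hN0.le haR.le)
            have h3 : (Xb ∪ K0).card + q + 2 + c ≤ a := by omega
            exact_mod_cast h3
          have h3 : (a : ℝ) * ((Fintype.card W : ℝ) / a) = Fintype.card W := by
            field_simp
          rw [h3] at h2
          linarith)
        (d0 := fun v => D (a : ℝ) ((a + g : ℕ) : ℝ) Gr Gb v (F ∪ K0) -
          (a + ((a + g : ℕ) : ℝ)))
        (d1 := fun v => D (a : ℝ) ((a + g : ℕ) : ℝ) Gr Gb v (F ∪ K) -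
          (a + ((a + g : ℕ) : ℝ)))
        (J0 := (F ∪ K0).card - ((a : ℝ) + ((a + g : ℕ) : ℝ)) -
          ((c : ℝ) - 1) * (3 * a - g) / a)
        (J1 := (F ∪ K).card - ((a : ℝ) + ((a + g : ℕ) : ℝ)))
        (fun v => by linarith [hDK0 v])
        (fun v => by linarith [hDK v])
        (by
          have h1 := sum_excess (Gr := Gr) (Gb := Gb) ha hab hcost hS0ne
            (J := (a : ℝ) + ((a + g : ℕ) : ℝ))
          have h2 : ∑ v ∈ univ \ Fb, (D (a : ℝ) ((a + g : ℕ) : ℝ) Gr Gb v (F ∪ K0) -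
              (a + ((a + g : ℕ) : ℝ))) +
              ∑ v ∈ Fb, (D (a : ℝ) ((a + g : ℕ) : ℝ) Gr Gb v (F ∪ K0) -
              (a + ((a + g : ℕ) : ℝ))) = ∑ v, (D (a : ℝ) ((a + g : ℕ) : ℝ) Gr Gb v (F ∪ K0) -
              (a + ((a + g : ℕ) : ℝ))) := sum_sdiff (subset_univ _)
          have h3 : (Fb.card : ℝ) * (3 * a - g) ≤
              ∑ v ∈ Fb, (D (a : ℝ) ((a + g : ℕ) : ℝ) Gr Gb v (F ∪ K0) -
              (a + ((a + g : ℕ) : ℝ))) := by
            rw [← nsmul_eq_mul]
            apply card_nsmul_le_sum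
            intro v hv
            have h4 := hBg5 v (hFb hv)
            have h5 := D_ge_card (Gr := Gr) (Gb := Gb) haR.le habR v F
            have h6 := D_mono (Gr := Gr) (Gb := Gb) haR.le habR v
              (subset_union_left : F ⊆ F ∪ K0)
            have h7 : (5 : ℝ) ≤ (hit Gr Gb v F).card := by exact_mod_cast h4
            have h8 := mul_le_mul_of_nonneg_left h7 haR.le
            rw [hb'] at h5 h6 ⊢
            linarith
          have h4 : ((c : ℝ) - 1) * (3 * a - g) / a * Fintype.card W ≤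
              Fb.card * (3 * a - g) := by
            rw [div_mul_eq_mul_div, div_le_iff₀ haR]
            have h5 : (0 : ℝ) ≤ 3 * a - g := by linarith
            have h6 := mul_le_mul_of_nonneg_right hFb3 h5
            linarith
          have h5 : (Fintype.card W : ℝ) * ((F ∪ K0).card - ((a : ℝ) + ((a + g : ℕ) : ℝ)) -
              ((c : ℝ) - 1) * (3 * a - g) / a) =
              Fintype.card W * ((F ∪ K0).card - ((a : ℝ) + ((a + g : ℕ) : ℝ))) -
              ((c : ℝ) - 1) * (3 * a - g) / a * Fintype.card W := by ring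
          rw [h5]
          linarith)
        (lt_of_le_of_lt (sum_le_sum_of_subset_of_nonneg (subset_univ _)
          (fun v _ _ => by linarith [hDK v])) (sum_excess ha hab hcost hSne))
      obtain ⟨hd, hUX, hUc, hUg⟩ := join_picks hT
        (fun u hu x hx => (mem_Al.1 (hU1 hu)).1 x (mem_union_left _ hx)) hU1g
      set U := U1 ∪ Xb with hU
      have hXU : Xb ⊆ U := subset_union_right
      refine ⟨Xb, K, ∅, U, mt, ⟨hH, hXU, by omega, hUg, hpicksK U hXU hUg, empty_subset _,
        by simp, by simp⟩, Or.inl ⟨?_, Or.inr ?_⟩⟩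
      · have h1 := sum_cc' (Gr := Gr) (Gb := Gb) (b := a + g) (F := F) (K := K) ha hXU
          (j := (F ∪ K).card - (2 * a + g + 1)) (by
            rw [hUX]
            refine lt_of_lt_of_le hU1b (le_of_eq ?_)
            push_cast
            ring)
        push_cast
        omega
      · have h1 := hits_of_cost (Gr := Gr) (Gb := Gb) (F := F) ha hab (U1 := U1)
          (A := a * ((F ∪ K0).card - ((a : ℝ) + ((a + g : ℕ) : ℝ)) -
            ((c : ℝ) - 1) * (3 * a - g) / a) + q * (a + ((a + g : ℕ) : ℝ)))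
          (n := F.card - 2 * Xb.card - 2 * C0 - p - 1) (by
            have h2 : ∑ u ∈ U1, D (a : ℝ) ((a + g : ℕ) : ℝ) Gr Gb u F ≤
                ∑ u ∈ U1, D (a : ℝ) ((a + g : ℕ) : ℝ) Gr Gb u (F ∪ K0) :=
              sum_le_sum (fun u _ => D_mono haR.le habR u subset_union_left)
            rw [sum_sub_distrib, sum_const, nsmul_eq_mul, hU1c] at hU1a
            linarith) (by
            have h2 : (a : ℝ) * ((F ∪ K0).card - ((a : ℝ) + ((a + g : ℕ) : ℝ)) -
                ((c : ℝ) - 1) * (3 * a - g) / a) =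
                a * ((F ∪ K0).card - ((a : ℝ) + ((a + g : ℕ) : ℝ))) -
                ((c : ℝ) - 1) * (3 * a - g) := by
              field_simp
            rw [h2, hS0c]
            have h3 : (a : ℝ) = Xb.card + q + (K0.card + 2 + c) := by
              have : a = Xb.card + q + (K0.card + 2 + c) := by omega
              exact_mod_cast this
            have h4 : ((K0.card : ℝ) + p) ≤ 3 * (c - 1) := by
              have : K0.card + p + 3 ≤ 3 * c := by omega
              have h5 : ((K0.card : ℝ) + p + 3) ≤ 3 * c := by exact_mod_cast this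
              linarith
            have h5 := mul_le_mul_of_nonneg_left h4 haR.le
            have hg0 : (0 : ℝ) ≤ g := Nat.cast_nonneg g
            have h6 : (0 : ℝ) ≤ g * ((Xb.card : ℝ) + K0.card + 3) := by positivity
            have h7 : (C0 : ℝ) = K0.card + 2 + c := by exact_mod_cast hc
            rw [hb']
            push_cast
            rw [h7]
            have h8 : (a : ℝ) * (a + (a + g)) =
                (Xb.card + q + (K0.card + 2 + c)) * (a + (a + g)) := by
              rw [← h3]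
            have h9 : (a : ℝ) * (F.card - 2 * Xb.card - 2 * (K0.card + 2 + c) - p - 1 + 1) -
                (a * ((F.card + K0.card) - (a + (a + g))) - (c - 1) * (3 * a - g) +
                  q * (a + (a + g))) =
                (a * (3 * (c - 1)) - a * (K0.card + p)) + g * (Xb.card + K0.card + 3) +
                (a * (a + (a + g)) - (Xb.card + q + (K0.card + 2 + c)) * (a + (a + g))) := by
              ring
            rw [h8, sub_self, add_zero] at h9
            linarith)
        have h2 := fre_ge (U := U) hH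
        rw [hUX] at h2
        omega
  · -- many light vertices
    obtain ⟨Kr, hKr, hKrc⟩ := exists_subset_card_eq (show p - 1 ≤ K0.card by omega)
    obtain ⟨U1, hU1, hU1c, hU1g, hU1a, hU1b⟩ := exists_picks2 ha hab hcost
      (Q := Xb ∪ Kr) (Fb := ∅) (q := q)
      (by
        rw [card_empty, Nat.cast_zero, add_zero, ← mul_div_assoc, div_le_iff₀ haR,
          mul_comm _ (a : ℝ)]
        apply mul_le_mul_of_nonneg_right _ hN0.le
        have h1 : (Xb ∪ Kr).card + q + 2 ≤ a := by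
          rw [hQc Kr hKr]
          omega
        exact_mod_cast h1)
      (d0 := fun v => D (a : ℝ) ((a + g : ℕ) : ℝ) Gr Gb v F - 2 * a)
      (d1 := fun v => D (a : ℝ) ((a + g : ℕ) : ℝ) Gr Gb v (F ∪ K) - (a + ((a + g : ℕ) : ℝ)))
      (J0 := F.card - 2 * (a : ℝ))
      (J1 := (F ∪ K).card - ((a : ℝ) + ((a + g : ℕ) : ℝ)))
      (fun v => by linarith [hDF v])
      (fun v => by linarith [hDK v])
      (by
        rw [sdiff_empty]
        exact sum_excess ha hab hcost hFne)
      (by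
        rw [sdiff_empty]
        exact sum_excess ha hab hcost hSne)
    obtain ⟨hd, hUX, hUc, hUg⟩ := join_picks hT
      (fun u hu x hx => (mem_Al.1 (hU1 hu)).1 x (mem_union_left _ hx)) hU1g
    set U := U1 ∪ Xb with hU
    have hXU : Xb ⊆ U := subset_union_right
    refine ⟨Xb, K, Kr, U, mt, ⟨hH, hXU, by omega, hUg, hpicksK U hXU hUg, hKr.trans hK0K,
      fun z hz => (hmLt.1 (hK0L (hKr hz))).2.2.2, ?_⟩, Or.inl ⟨?_, Or.inl ⟨by omega, ?_⟩⟩⟩
    · intro z hz u hu
      rw [hU, mem_union] at hu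
      rcases hu with hu | hu
      · exact ((mem_Al.1 (hU1 hu)).1 z (mem_union_right _ hz)).symm
      · exact (hH0.green z (hKr hz) u hu).symm
    · have h1 := sum_cc' (Gr := Gr) (Gb := Gb) (b := a + g) (F := F) (K := K) ha hXU
        (j := (F ∪ K).card - (2 * a + g + 1)) (by
          rw [hUX]
          refine lt_of_lt_of_le hU1b (le_of_eq ?_)
          push_cast
          ring)
      push_cast
      omega
    · have h1 := hfreA U1 hU1c hU1a
      have h2 := fre_ge (U := U) hH
      rw [hUX] at h2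
      omega

end LM

end Pool.Agent.Lib.MP_a05470_co
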