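import Pool.Agent.Lib.MP_a05470_co.FP.Beta1
import Pool.Agent.Lib.MP_a05470_co.FP.FinishX
import Pool.Agent.Lib.MP_a05470_co.FP.Select
import Pool.Agent.Lib.MP_a05470_co.FP.CaseGe
import Pool.Agent.Lib.MP_a05470_co.FP.BridgeM

/-!
# The full theorem from the normal form
-/

set_option autoImplicit false
set_option linter.unusedSectionVars false

namespace Pool.Agent.Lib.MP_a05470_co

open Finset Classical

namespace JT

variable {V : Type} [Fintype V] {R : SimpleGraph V}

theorem mem_iso_of {X : Finset V} {x : V} (hx : x ∈ X) (h : cmp R X x = {x}) :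
    x ∈ LM.iso R X := by
  refine mem_filter.2 ⟨hx, fun y hy hxy => ?_⟩
  have h1 : y ∈ cmp R X x := cmps_closed (mem_image_of_mem _ hx) (cmp_self hx) hy hxy
  rw [h, mem_singleton] at h1
  exact hxy.ne h1.symm

theorem cmp_of_iso {X : Finset V} {x : V} (h : x ∈ LM.iso R X) : cmp R X x = {x} := by
  have hx : x ∈ X := (mem_filter.1 h).1
  have h1 : cmp R X x ∈ cmps R X := mem_image_of_mem _ hx
  have h2 : x ∈ cmp R X x := cmp_self hx
  rcases Nat.lt_or_ge (cmp R X x).card 2 with h3 | h3
  · have h4 : (cmp R X x).card = 1 := by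
      have := card_pos.2 ⟨x, h2⟩
      omega
    obtain ⟨y, hy⟩ := card_eq_one.1 h4
    rw [hy, mem_singleton] at h2
    rw [hy, h2]
  · exact absurd h (LM.notMem_iso h1 h3 h2)

theorem th_of_indep {X : Finset V} (h : ∀ x ∈ X, ∀ y ∈ X, ¬ R.Adj x y) : th R X = X.card := by
  apply le_antisymm (th_le_card X)
  obtain ⟨f, hf, hc⟩ := th_spec R X
  rw [← hc, card_image_of_injOn]
  intro x hx y hy hxy
  by_contra hne
  exact h x hx y hy (hf x hx y hy hne hxy)

theorem cP_ge {X P : Finset V} (hX : Crit R X) (hP : P ∈ cmps R X) (h2 : 2 ≤ P.card) :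
    2 ≤ LM.cP R P := by
  obtain ⟨c, h3, h4, h5, _⟩ := crit_data (cmps_preconn hP) (cmps_crit hX hP) h2
  unfold LM.cP
  omega

namespace NF3

variable {a g C : ℕ} {X M1 M2 N : Finset V} {w : V → V}

theorem card_le (h : NF3 R a g C X M1 M2 N w) : X.card ≤ C + th R X := by
  rw [h.cardX, h.thX]

theorem tcs_le (h : NF3 R a g C X M1 M2 N w) : 2 * (LM.tcs R X).card ≤ C := by
  have h1 := LM.sum_cP h.crit h.card_le (J := LM.tcs R X) (filter_subset _ _)
  have h2 : ∑ P ∈ LM.tcs R X, 2 ≤ ∑ P ∈ LM.tcs R X, LM.cP R P := by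
    refine sum_le_sum (fun P hP => ?_)
    obtain ⟨h3, h4, _⟩ := mem_filter.1 hP
    exact cP_ge h.crit h3 h4
  rw [sum_const, smul_eq_mul] at h2
  omega

theorem two_le (h : NF3 R a g C X M1 M2 N w) {P : Finset V} (hP : P ∈ cmps R X)
    (h2 : 2 ≤ P.card) : 2 ≤ C := by
  have h1 := LM.sum_cP h.crit h.card_le (J := {P}) (by
    intro Q hQ
    rw [mem_singleton] at hQ
    rw [hQ]
    exact hP)
  rw [sum_singleton] at h1
  have := cP_ge h.crit hP h2
  omega

theorem coreX (h : NF3 R a g C X M1 M2 N w) : LM.CoreX R C X M1 M2 N w := by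
  refine ⟨h.crit, h.card_le, h.cover, h.dX, h.wX, ?_, ?_, ?_, ?_, ?_⟩
  · exact fun u hu => mem_iso_of (h.wX u (mem_union_left _ hu)) (h.iso u hu)
  · intro u hu
    have h1 := h.wX u (mem_union_right _ hu)
    obtain ⟨h2, h3⟩ := h.tight u hu
    exact ⟨cmp R X (w u), mem_filter.2 ⟨Tt_cmps h2, h3, Tt_tight h.crit h2⟩, cmp_self h1⟩
  · intro u hu u' hu' P hP hx hx'
    by_contra hne
    have h1 := (mem_filter.1 hP).1
    apply h.inj u (mem_union_right _ hu) u' (mem_union_right _ hu') (fun h2 => hne (by rw [h2]))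
    rw [FIN.cmp_eq h1 hx, FIN.cmp_eq h1 hx']
  · intro P hP hM n hn x hx
    obtain ⟨h1, h2, c, h3⟩ := mem_filter.1 hP
    refine h.blueN n hn P (mem_filter.2 ⟨h1, ?_⟩) ?_ x hx
    · rw [h3.card, h3.theta]
      omega
    · intro v hv hvP
      rcases mem_union.1 hv with h4 | h4
      · rw [h.iso v h4] at hvP
        rw [← hvP, card_singleton] at h2
        omega
      · apply hM v h4
        rw [← hvP]
        exact cmp_self (h.wX v hv)
  · intro u hu x hx
    rw [mem_sdiff] at hx
    refine h.blueM u hu x (mem_filter.1 hx.1).1 (cmp_of_iso hx.1) ?_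
    intro v hv hvx
    exact hx.2 (mem_image.2 ⟨v, hv, hvx⟩)

theorem members (h : NF3 R a g C X M1 M2 N w) {W : Type} {U Xb : Finset W}
    (hU : U.card = M1.card + M2.card + N.card) (hXU : Xb ⊆ U)
    (hr : Xb.card ≤ M1.card + M2.card) :
    TR.Members U Xb M1 M2 N (LM.iso R X \ M1.image w) w R.Adj := by
  refine ⟨h.d12, h.d1N, h.d2N, hU.symm, h.w_inj, h.adj, ?_, h.coreX.blue0, ?_⟩
  · intro u hu hw
    rw [mem_sdiff] at hw
    rcases mem_union.1 hu with h1 | h1
    · exact hw.2 (mem_image_of_mem _ h1)
    · have h2 := cmp_of_iso hw.1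
      have h3 := (h.tight u h1).2
      rw [h2, card_singleton] at h3
      omega
  · have : U.filter (fun u => u ∈ Xb) = Xb := by
      ext u
      rw [mem_filter]
      exact ⟨fun h => h.2, fun h => ⟨hXU h, h⟩⟩
    rw [this]
    exact hr

end NF3

end JT

namespace LM

open L1 JT

variable {W : Type} [Fintype W] {Gr Gb : SimpleGraph W} {F : Finset W}

/-- case (A): fewer red boxes than matched vertices -/
theorem caseA [Nonempty W] {V : Type} [Fintype V] {R : SimpleGraph V} {a g C : ℕ} (ha : 0 < a)
    (hg : g ≤ a) (hcost : ∀ v : W, D (a : ℝ) ((a + g : ℕ) : ℝ) Gr Gb v univ < Fintype.card W)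
    (hB : Best Gr Gb F) {X M1 M2 N : Finset V} {w : V → V} (h : NF3 R a g C X M1 M2 N w)
    (hr : (RR Gb F).card ≤ 2 * (M1.card + M2.card)) : Contains R Rᶜ Gr Gb := by
  by_cases hnt : ∃ P ∈ cmps R X, 2 ≤ P.card
  · -- there is a nontrivial component
    obtain ⟨P, hP, hP2⟩ := hnt
    have : Nonempty V := by
      obtain ⟨x, _⟩ := card_pos.1 (show 0 < P.card by omega)
      exact ⟨x⟩
    have hC2 := h.two_le hP hP2
    have hCt := h.tcs_le
    have hcd := h.card
    have hX := h.cardX
    obtain ⟨p, hp⟩ : ∃ p, p = max (tcs R X).card 1 := ⟨_, rfl⟩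
    obtain ⟨Xb, K, Kr, U, mt, hS, hor⟩ := select ha hg hcost hB
      (m0 := M1.card + M2.card + N.card) (C0 := C) (p := p) (by omega) (by omega) (by omega)
      (by omega)
    have hRR := hS.host.tv.card_RR
    have hXb : Xb.card ≤ M1.card + M2.card := by omega
    rcases hor with ⟨h1, h2⟩ | ⟨h1, h2, h3, h4, h5⟩
    · obtain ⟨U', occ, Dr, ψ, Sv, Yr, θ, hO⟩ := TR.trees hS.picks (h.members hS.cardU hS.XU hXb)
      have hcn := card_nontriv h.crit h.card_le
      rcases h2 with ⟨h2, h3⟩ | h2
      · apply finishX hS.host hS.clq h.coreX hO hS.KrK (fun u hu z hz => hS.KrU z hz u hu)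
          hS.light
        · rcases Nat.eq_zero_or_pos Kr.card with h4 | h4
          · exact Or.inr (card_eq_zero.1 h4)
          · left
            omega
        · exact h3
        · unfold Fre at h3
          omega
        · push_cast at h1
          have h5 : (X.card : ℤ) = C + (a + g + 1) := by
            rw [hX]
            push_cast
            ring
          have h6 : ((M1.card : ℤ) + M2.card + N.card) + C = a := by exact_mod_cast hcd
          linarith
      · apply finishX hS.host hS.clq h.coreX hO (Kres := ∅) (empty_subset _)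
          (fun u _ z hz => absurd hz (notMem_empty z))
          (fun z hz => absurd hz (notMem_empty z)) (Or.inr rfl)
        · unfold Fre at h2
          omega
        · unfold Fre at h2
          omega
        · push_cast at h1
          have h5 : (X.card : ℤ) = C + (a + g + 1) := by
            rw [hX]
            push_cast
            ring
          have h6 : ((M1.card : ℤ) + M2.card + N.card) + C = a := by exact_mod_cast hcd
          linarith
    · apply beta1 h hS.host hS.KrK hS.light hS.XU hS.cardU hS.clq h1 hS.picks hXb h2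
      · have h6 : (tcs R X).card ≤ ((cmps R X).filter (fun P => 2 ≤ P.card)).card := by
          apply card_le_card
          intro Q hQ
          obtain ⟨h7, h8, _⟩ := mem_filter.1 hQ
          exact mem_filter.2 ⟨h7, h8⟩
        omega
      · push_cast at h4
        have h5 : (X.card : ℤ) = C + (a + g + 1) := by
          rw [hX]
          push_cast
          ring
        have h6 : ((M1.card : ℤ) + M2.card + N.card) + C = a := by exact_mod_cast hcd
        linarith
      · exact h5
  · -- all components are trivial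
    push Not at hnt
    have hiso : ∀ x ∈ X, x ∈ iso R X := by
      intro x hx
      apply mem_iso_of hx
      have h1 : x ∈ cmp R X x := cmp_self hx
      have h2 := hnt _ (mem_image_of_mem _ hx)
      have h3 : (cmp R X x).card = 1 := by
        have := card_pos.2 ⟨x, h1⟩
        omega
      obtain ⟨y, hy⟩ := card_eq_one.1 h3
      rw [hy, mem_singleton] at h1
      rw [hy, h1]
    have hM2 : M2 = ∅ := by
      rw [eq_empty_iff_forall_notMem]
      intro u hu
      have h1 := (h.tight u hu).2
      have h2 := hnt _ (mem_image_of_mem _ (h.wX u (mem_union_right _ hu)))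
      omega
    have hC0 : C = 0 := by
      have h1 := th_of_indep (R := R) (X := X) (fun x hx y hy =>
        (mem_filter.1 (hiso x hx)).2 y hy)
      have h2 := h.thX
      have h3 := h.cardX
      omega
    subst hM2
    have hcd := h.card
    rw [card_empty] at hcd hr
    refine caseA0 ha hg hcost hB (X := X) (M1 := M1) (N := N) (w := w) ?_ ?_ ?_ ?_ h.d1N ?_ ?_
      ?_ ?_ ?_ ?_
    · rw [h.cardX, hC0, zero_add]
    · intro x hx y hy
      exact (mem_filter.1 (hiso x hx)).2 y hy
    · intro v
      have h1 := h.cover v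
      rw [union_empty] at h1
      exact h1
    · have h1 := h.dX
      rw [union_empty] at h1
      exact h1
    · omega
    · have h1 := h.w_inj
      rw [union_empty] at h1
      exact h1
    · intro u hu
      exact h.wX u (mem_union_left _ hu)
    · intro u hu
      exact h.adj u (mem_union_left _ hu)
    · intro u hu x hx hxM
      exact h.coreX.blue0 u (mem_union_right _ hu) x (mem_sdiff.2 ⟨hiso x hx, hxM⟩)
    · omega

/-- **The full theorem from the normal form.** -/
theorem full {V : Type} [Fintype V] {n a g C : ℕ} {R : SimpleGraph V}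
    {Gr Gb : SimpleGraph (Fin n)} [Nonempty (Fin n)] {X M1 M2 N : Finset V} {w : V → V}
    (ha : 1 ≤ a) (hga : g ≤ a)
    (hcost : ∀ v : Fin n, L1.D (a : ℝ) ((a + g : ℕ) : ℝ) Gr Gb v univ < Fintype.card (Fin n))
    (hcheap : JF.Cheap (a : ℝ) ((a : ℝ) + g) Gr Gb) (hV : Fintype.card V = 2 * a + g + 1)
    (hth : th R univ = a + g + 1) (h : NF3 R a g C X M1 M2 N w) : Contains R Rᶜ Gr Gb := by
  obtain ⟨F0, hF0⟩ := LV.exists_best1M Gr Gb
  by_cases hr : M1.card + M2.card ≤ LV.nr Gr Gb 2 F0
  · exact HII.case_ge3 ha hga hcost hcheap hV hth h hF0 hr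
  · obtain ⟨F, hF⟩ := LM.exists_best (Gr := Gr) (Gb := Gb)
    have h1 := (LV.bridgeM hF0 hF).1
    apply caseA ha hga hcost hF h
    omega

end LM

end Pool.Agent.Lib.MP_a05470_co
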