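import Pool.Agent.Lib.MP_a05470_co.TF.Outside

/-!
# Choosing the picks

A green clique of picks with small total excess, for one or for two functionals, green to a given
set `Q` and avoiding a forbidden set `Fb`.
-/

set_option autoImplicit false
set_option linter.unusedSectionVars false

namespace Pool.Agent.Lib.MP_a05470_co

open Finset Classical

namespace LM

open L1

section greedy

variable {V : Type} [Fintype V] {G : SimpleGraph V}

/-- the greedy clique, one functional -/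
theorem greedy1 {δ : ℝ} (hδ : 0 < δ) {d : V → ℝ} (q : ℕ) : ∀ {S : Finset V},
    TwoCon.NonAdj G S δ → (q : ℝ) * δ ≤ S.card → (∀ v ∈ S, 0 ≤ d v) →
    ∃ W ⊆ S, W.card = q ∧ (∀ u ∈ W, ∀ v ∈ W, u ≠ v → G.Adj u v) ∧
      δ * ∑ v ∈ W, d v ≤ ∑ v ∈ S, d v := by
  induction q generalizing d with
  | zero =>
    intro S _ _ hd
    exact ⟨∅, empty_subset _, rfl, by simp, by simpa using sum_nonneg hd⟩
  | succ q ih =>
    intro S hS hcard hd
    push_cast at hcard
    have hq : (0 : ℝ) ≤ q := Nat.cast_nonneg q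
    have hne : S.Nonempty := by
      rw [← card_pos]
      have h1 : (0 : ℝ) < S.card := by nlinarith
      exact_mod_cast h1
    obtain ⟨p, hp, hmin⟩ := exists_min_image S d hne
    set S' := S.filter (fun y => G.Adj p y) with hS'
    have hS'S : S' ⊆ S := filter_subset _ _
    have h1 : ((S'.card : ℕ) : ℝ) ≥ S.card - δ := hS.card p
    obtain ⟨W, hW1, hW2, hW3, hW4⟩ := ih (S := S') (d := fun v => d v - d p)
      (hS.sub hS'S) (by linarith) (fun v hv => by
        have := hmin v (hS'S hv)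
        linarith)
    have hpW : p ∉ W := fun h => G.irrefl (mem_filter.1 (hW1 h)).2
    refine ⟨insert p W, insert_subset hp (hW1.trans hS'S), ?_, ?_, ?_⟩
    · rw [card_insert_of_notMem hpW, hW2]
    · intro u hu v hv huv
      rcases mem_insert.1 hu with h2 | h2 <;> rcases mem_insert.1 hv with h3 | h3
      · exact absurd (h2.trans h3.symm) huv
      · rw [h2]
        exact (mem_filter.1 (hW1 h3)).2
      · rw [h3]
        exact (mem_filter.1 (hW1 h2)).2.symm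
      · exact hW3 u h2 v h3 huv
    · rw [sum_insert hpW]
      rw [sum_sub_distrib, sum_sub_distrib, sum_const, sum_const, nsmul_eq_mul, nsmul_eq_mul,
        hW2] at hW4
      have h2 : ∑ v ∈ S \ S', d p ≤ ∑ v ∈ S \ S', d v :=
        sum_le_sum (fun v hv => hmin v (mem_sdiff.1 hv).1)
      rw [sum_const, nsmul_eq_mul] at h2
      have h3 : ∑ v ∈ S \ S', d v + ∑ v ∈ S', d v = ∑ v ∈ S, d v := sum_sdiff hS'S
      have h4 : ((S \ S').card : ℝ) + S'.card = S.card := by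
        exact_mod_cast card_sdiff_add_card_eq_card hS'S
      have h5 := hd p hp
      nlinarith

end greedy

section picks

variable {W : Type} [Fintype W] {Gr Gb : SimpleGraph W}

/-- the vertices green to `Q` and not forbidden -/
noncomputable def Al (Gr Gb : SimpleGraph W) (Q Fb : Finset W) : Finset W :=
  univ.filter (fun v => (∀ x ∈ Q, Gn Gr Gb x v) ∧ v ∉ Fb)

theorem mem_Al {Q Fb : Finset W} {v : W} :
    v ∈ Al Gr Gb Q Fb ↔ (∀ x ∈ Q, Gn Gr Gb x v) ∧ v ∉ Fb := by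
  unfold Al
  rw [mem_filter]
  exact ⟨fun h => h.2, fun h => ⟨mem_univ _, h⟩⟩

variable {a b : ℕ} (ha : 0 < a) (hab : a ≤ b)
  (hcost : ∀ v : W, D (a : ℝ) b Gr Gb v univ < Fintype.card W)

include ha hab hcost

theorem nonadj {G : SimpleGraph W} (hG : ∀ u v, G.Adj u v ↔ Gn Gr Gb u v) {T : Finset W} :
    TwoCon.NonAdj G T ((Fintype.card W : ℝ) / a) := by
  have haR : (0 : ℝ) < a := by exact_mod_cast ha
  have habR : (a : ℝ) ≤ b := by exact_mod_cast hab
  intro v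
  have h2 := D_ge_card (Gr := Gr) (Gb := Gb) haR.le habR v univ
  have h3 := hcost v
  have h4 : ((T.filter (fun y => ¬ G.Adj v y)).card : ℝ) ≤ (hit Gr Gb v univ).card := by
    norm_cast
    apply card_le_card
    intro y hy
    rw [mem_filter] at hy
    exact mem_hit.2 ⟨mem_univ _, fun h => hy.2 ((hG v y).2 h)⟩
  rw [le_div_iff₀ haR]
  nlinarith

theorem card_Al {Q Fb : Finset W} : (Fintype.card W : ℝ) ≤ (Al Gr Gb Q Fb).card +
    Q.card * ((Fintype.card W : ℝ) / a) + Fb.card := by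
  set δ : ℝ := (Fintype.card W : ℝ) / a with hδ
  obtain ⟨G, hG⟩ : ∃ G : SimpleGraph W, ∀ u v, G.Adj u v ↔ Gn Gr Gb u v :=
    ⟨Gr ⊓ Gb, fun u v => Iff.rfl⟩
  have hNA := nonadj ha hab hcost hG (T := (univ : Finset W))
  have h1 : (univ : Finset W) ⊆ Al Gr Gb Q Fb ∪
      (Q.biUnion (fun x => univ.filter (fun y => ¬ G.Adj x y)) ∪ Fb) := by
    intro v _
    rw [mem_union, mem_union]
    by_cases hv : v ∈ Fb
    · exact Or.inr (Or.inr hv)
    by_cases hx : ∀ x ∈ Q, Gn Gr Gb x v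
    · exact Or.inl (mem_Al.2 ⟨hx, hv⟩)
    · push Not at hx
      obtain ⟨x, hx, hxv⟩ := hx
      right
      left
      rw [mem_biUnion]
      exact ⟨x, hx, mem_filter.2 ⟨mem_univ _, fun h => hxv ((hG x v).1 h)⟩⟩
  have h2 := (card_le_card h1).trans ((card_union_le _ _).trans
    (Nat.add_le_add_left (card_union_le _ _) _))
  rw [card_univ] at h2
  have h3 : ((Q.biUnion (fun x => univ.filter (fun y => ¬ G.Adj x y))).card : ℝ) ≤
      Q.card * δ := by
    calc ((Q.biUnion (fun x => univ.filter (fun y => ¬ G.Adj x y))).card : ℝ)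
        ≤ ((∑ x ∈ Q, (univ.filter (fun y => ¬ G.Adj x y)).card : ℕ) : ℝ) := by
          exact_mod_cast card_biUnion_le
      _ = ∑ x ∈ Q, ((univ.filter (fun y => ¬ G.Adj x y)).card : ℝ) := by
          push_cast
          rfl
      _ ≤ ∑ x ∈ Q, δ := sum_le_sum (fun x _ => hNA x)
      _ = Q.card * δ := by rw [sum_const, nsmul_eq_mul]
  have h4 : (Fintype.card W : ℝ) ≤ (Al Gr Gb Q Fb).card +
      (((Q.biUnion (fun x => univ.filter (fun y => ¬ G.Adj x y))).card : ℝ) +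
        Fb.card) := by exact_mod_cast h2
  linarith

/-- **One functional.** -/
theorem exists_picks1 [Nonempty W] {Q Fb : Finset W} {q : ℕ}
    (hq : ((Q.card : ℝ) + q) * ((Fintype.card W : ℝ) / a) + Fb.card ≤ Fintype.card W)
    {d : W → ℝ} {J : ℝ} (hd : ∀ v, 0 ≤ d v)
    (hJ : ∑ v ∈ univ \ Fb, d v < (Fintype.card W : ℝ) * J) :
    ∃ U ⊆ Al Gr Gb Q Fb, U.card = q ∧ (∀ u ∈ U, ∀ v ∈ U, u ≠ v → Gn Gr Gb u v) ∧
      ∑ u ∈ U, d u < a * J := by
  have haR : (0 : ℝ) < a := by exact_mod_cast ha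
  have hN0 : (0 : ℝ) < Fintype.card W := by exact_mod_cast Fintype.card_pos
  have hδ : (0 : ℝ) < (Fintype.card W : ℝ) / a := div_pos hN0 haR
  have h1 := card_Al ha hab hcost (Q := Q) (Fb := Fb)
  obtain ⟨G, hG⟩ : ∃ G : SimpleGraph W, ∀ u v, G.Adj u v ↔ Gn Gr Gb u v :=
    ⟨Gr ⊓ Gb, fun u v => Iff.rfl⟩
  obtain ⟨U, hU1, hU2, hU3, hU4⟩ := greedy1 hδ (d := d) q
    (nonadj ha hab hcost hG (T := Al Gr Gb Q Fb)) (by linarith) (fun v _ => hd v)
  refine ⟨U, hU1, hU2, fun u hu v hv huv => (hG u v).1 (hU3 u hu v hv huv), ?_⟩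
  have h2 : ∑ v ∈ Al Gr Gb Q Fb, d v ≤ ∑ v ∈ univ \ Fb, d v := by
    apply sum_le_sum_of_subset_of_nonneg
    · intro v hv
      exact mem_sdiff.2 ⟨mem_univ _, (mem_Al.1 hv).2⟩
    · exact fun v _ _ => hd v
  have h3 : (Fintype.card W : ℝ) / a * ∑ v ∈ U, d v <
      (Fintype.card W : ℝ) / a * (a * J) := by
    have h4 : (Fintype.card W : ℝ) / a * (a * J) = (Fintype.card W : ℝ) * J := by
      field_simp
    rw [h4]
    linarith
  exact lt_of_mul_lt_mul_left h3 hδ.le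

/-- **Two functionals.** -/
theorem exists_picks2 [Nonempty W] {Q Fb : Finset W} {q : ℕ}
    (hq : ((Q.card : ℝ) + q + 2) * ((Fintype.card W : ℝ) / a) + Fb.card ≤ Fintype.card W)
    {d0 d1 : W → ℝ} {J0 J1 : ℝ} (hd0 : ∀ v, 0 ≤ d0 v) (hd1 : ∀ v, 0 ≤ d1 v)
    (hJ0 : ∑ v ∈ univ \ Fb, d0 v < (Fintype.card W : ℝ) * J0)
    (hJ1 : ∑ v ∈ univ \ Fb, d1 v < (Fintype.card W : ℝ) * J1) :
    ∃ U ⊆ Al Gr Gb Q Fb, U.card = q ∧ (∀ u ∈ U, ∀ v ∈ U, u ≠ v → Gn Gr Gb u v) ∧
      ∑ u ∈ U, d0 u < a * J0 ∧ ∑ u ∈ U, d1 u < a * J1 := by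
  have haR : (0 : ℝ) < a := by exact_mod_cast ha
  have hN0 : (0 : ℝ) < Fintype.card W := by exact_mod_cast Fintype.card_pos
  have hδ : (0 : ℝ) < (Fintype.card W : ℝ) / a := div_pos hN0 haR
  have h1 := card_Al ha hab hcost (Q := Q) (Fb := Fb)
  have h2 : ∀ d : W → ℝ, (∀ v, 0 ≤ d v) →
      ∑ v ∈ Al Gr Gb Q Fb, d v ≤ ∑ v ∈ univ \ Fb, d v := by
    intro d hd
    apply sum_le_sum_of_subset_of_nonneg
    · intro v hv
      exact mem_sdiff.2 ⟨mem_univ _, (mem_Al.1 hv).2⟩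
    · exact fun v _ _ => hd v
  have h4 : ∀ J : ℝ, (Fintype.card W : ℝ) / a * (a * J) = (Fintype.card W : ℝ) * J := by
    intro J
    field_simp
  obtain ⟨G, hG⟩ : ∃ G : SimpleGraph W, ∀ u v, G.Adj u v ↔ Gn Gr Gb u v :=
    ⟨Gr ⊓ Gb, fun u v => Iff.rfl⟩
  obtain ⟨U, hU1, hU2, hU3, hU4, hU5⟩ := TwoCon.two_constraint (G := G) hδ
    (nonadj ha hab hcost hG (T := Al Gr Gb Q Fb)) (s := q) (by linarith) (d0 := d0) (d1 := d1)
    (fun v _ => hd0 v) (fun v _ => hd1 v)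
    (J0 := a * J0) (J1 := a * J1) (by rw [h4]; linarith [h2 d0 hd0])
    (by rw [h4]; linarith [h2 d1 hd1])
  exact ⟨U, hU1, hU2, fun u hu v hv huv => (hG u v).1 (hU3 u hu v hv huv), hU4, hU5⟩

/-- the total excess of a certificate -/
theorem sum_excess [Nonempty W] {S : Finset W} (hS : S.Nonempty) {J : ℝ} :
    ∑ v : W, (D (a : ℝ) b Gr Gb v S - J) < (Fintype.card W : ℝ) * (S.card - J) := by
  rw [sum_sub_distrib, sum_const, nsmul_eq_mul, card_univ, sum_D]
  have h1 : ∑ y ∈ S, D (a : ℝ) b Gr Gb y univ < ∑ y ∈ S, (Fintype.card W : ℝ) :=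
    sum_lt_sum_of_nonempty hS (fun y _ => hcost y)
  rw [sum_const, nsmul_eq_mul] at h1
  nlinarith

end picks

end LM

end Pool.Agent.Lib.MP_a05470_co
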