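import Pool.Agent.Lib.MP_a05470_co.TF.Lev1

/-!
# The structure of level 1, many boxes first

`F` is a set of vertices, green between each other up to a matching of single-coloured pairs
(`L1.Good`), maximal for the potential (number of boxes, number of singles + number of red pairs +
2 * number of blue pairs, number of red pairs).  Besides the certificates of `Lev1` one has: a
green clique outside of `F` fully kills at least as many boxes as it has vertices.
-/

set_option autoImplicit false
set_option linter.unusedSectionVars false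

namespace Pool.Agent.Lib.MP_a05470_co

open Finset Classical

namespace LM

open L1

variable {W : Type} [Fintype W] (Gr Gb : SimpleGraph W)

/-- twice the number of boxes -/
noncomputable def M2 (F : Finset W) : ℤ := 2 * F.card - (RR Gb F).card - (BB Gr F).card

/-- a family which is maximal for the potential -/
structure Best (F : Finset W) : Prop where
  good : Good Gr Gb F
  max : ∀ F', Good Gr Gb F' → M2 Gr Gb F' ≤ M2 Gr Gb F ∧ (M2 Gr Gb F' = M2 Gr Gb F →
    P1 Gb F' ≤ P1 Gb F ∧ (P1 Gb F' = P1 Gb F → (RR Gb F').card ≤ (RR Gb F).card))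

theorem exists_best : ∃ F, Best Gr Gb F := by
  have hne : ((univ : Finset (Finset W)).filter (fun F => Good Gr Gb F)).Nonempty := by
    refine ⟨∅, mem_filter.2 ⟨mem_univ _, ?_, ?_⟩⟩ <;> simp
  obtain ⟨F, hF, hmax⟩ := exists_max_image _ (fun F : Finset W =>
    toLex (M2 Gr Gb F, toLex (P1 Gb F, ((RR Gb F).card : ℤ)))) hne
  rw [mem_filter] at hF
  refine ⟨F, hF.2, fun F' hF' => ?_⟩
  have h1 := hmax F' (mem_filter.2 ⟨mem_univ _, hF'⟩)
  rw [Prod.Lex.toLex_le_toLex] at h1
  rcases h1 with h1 | ⟨h1, h2⟩
  · exact ⟨h1.le, fun h => absurd h h1.ne⟩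
  · refine ⟨h1.le, fun _ => ?_⟩
    simp only at h2
    rw [Prod.Lex.toLex_le_toLex] at h2
    rcases h2 with h2 | ⟨h2, h3⟩
    · simp only at h2
      exact ⟨by omega, fun h => by omega⟩
    · simp only at h2 h3
      exact ⟨by omega, fun _ => by omega⟩

variable {Gr Gb}

/-- at most one new non-red pair -/
theorem BB_insert_le {F : Finset W} (_hF : Good Gr Gb F) {v y0 : W} {Y : Finset W}
    (hv : ∀ y ∈ F \ Y, y ≠ y0 → Gr.Adj v y) :
    (BB Gr (insert v (F \ Y))).card ≤ (BB Gr F).card + 2 := by
  have h : BB Gr (insert v (F \ Y)) ⊆ insert v (insert y0 (BB Gr F)) := by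
    intro x hx
    unfold BB at hx
    rw [mem_filter] at hx
    obtain ⟨hx1, z, hz, hzx, hxz⟩ := hx
    rw [mem_insert, mem_insert]
    by_cases hxv : x = v
    · exact Or.inl hxv
    by_cases hxy : x = y0
    · exact Or.inr (Or.inl hxy)
    right
    right
    have hxF : x ∈ F \ Y := (mem_insert.1 hx1).resolve_left hxv
    rcases mem_insert.1 hz with hzv | hzF
    · exfalso
      rw [hzv] at hxz
      exact hxz (hv x hxF hxy).symm
    · exact mem_filter.2 ⟨(mem_sdiff.1 hxF).1, z, (mem_sdiff.1 hzF).1, hzx, hxz⟩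
  exact (card_le_card h).trans ((card_insert_le _ _).trans
    (Nat.add_le_add_right (card_insert_le _ _) 1))

/-! ### the certificates for `F` -/

section cert

variable {F : Finset W} (hB : Best Gr Gb F) {v : W} (hv : v ∉ F)

include hB hv

/-- some box is fully hit -/
theorem Best.no_zero : (hit Gr Gb v F).Nonempty := by
  by_contra hcon
  rw [not_nonempty_iff_eq_empty] at hcon
  have hg : ∀ y ∈ F, Gn Gr Gb v y := by
    intro y hy
    by_contra h
    have : y ∈ hit Gr Gb v F := mem_hit.2 ⟨hy, h⟩
    rw [hcon] at this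
    exact absurd this (notMem_empty y)
  have h1 : Good Gr Gb (insert v (F \ ∅)) := by
    apply hB.good.insert
    · intro y hy
      rw [sdiff_empty] at hy
      exact Or.inl (hg y hy).1
    · intro y hy h
      rw [sdiff_empty] at hy
      exact absurd (hg y hy) h
  have h2 : RR Gb (insert v (F \ ∅)) ⊆ RR Gb F \ ∅ := by
    apply RR_insert hB.good (Gr := Gr)
    · intro y hy
      rw [sdiff_empty] at hy
      exact (hg y hy).2
    · simp
  have h2' : BB Gr (insert v (F \ ∅)) ⊆ BB Gr F \ ∅ := by
    apply BB_insert hB.good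
    · intro y hy
      rw [sdiff_empty] at hy
      exact (hg y hy).1
    · simp
  have h3 := (hB.max _ h1).1
  have h4 := card_le_card (h2.trans sdiff_subset)
  have h4' := card_le_card (h2'.trans sdiff_subset)
  have h5 := card_insert_sdiff hv (empty_subset F)
  unfold M2 at h3
  simp only [card_empty, add_zero] at h5
  omega

/-- a single hit is impossible, unless it is 'none' -/
theorem Best.no_one {y : W} (hy : y ∈ F) (hvy : Gr.Adj v y ∨ Gb.Adj v y)
    (h1 : ¬ Gn Gr Gb v y) (hg : ∀ z ∈ F, z ≠ y → Gn Gr Gb v z) : False := by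
  by_cases hR : y ∈ RR Gb F
  · -- cut the red pair
    obtain ⟨z, hz, hzy, hyz, _, _⟩ := exists_mate_RR hB.good hR
    have h2 : Good Gr Gb (insert v (F \ {y})) := by
      apply hB.good.insert
      · intro x hx
        rw [mem_sdiff, mem_singleton] at hx
        exact Or.inl (hg x hx.1 hx.2).1
      · intro x hx h
        rw [mem_sdiff, mem_singleton] at hx
        exact absurd (hg x hx.1 hx.2) h
    have h3 : RR Gb (insert v (F \ {y})) ⊆ RR Gb F \ {y, z} := by
      apply RR_insert hB.good (Gr := Gr)
      · intro x hx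
        rw [mem_sdiff, mem_singleton] at hx
        exact (hg x hx.1 hx.2).2
      · intro x hx
        rw [mem_insert, mem_singleton] at hx
        rcases hx with rfl | rfl
        · exact Or.inl (mem_singleton_self _)
        · exact Or.inr ⟨y, mem_singleton_self y, hy, Ne.symm hzy, fun h => hyz h.2.symm⟩
    have h3' : BB Gr (insert v (F \ {y})) ⊆ BB Gr F \ ∅ := by
      apply BB_insert hB.good
      · intro x hx
        rw [mem_sdiff, mem_singleton] at hx
        exact (hg x hx.1 hx.2).1
      · simp
    have h4 := (hB.max _ h2).1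
    have h5 := card_le_card h3
    have h5' := card_le_card (h3'.trans sdiff_subset)
    have h6 : ({y, z} : Finset W) ⊆ RR Gb F := by
      intro x hx
      rw [mem_insert, mem_singleton] at hx
      rcases hx with rfl | rfl
      exacts [hR, hz]
    rw [card_sdiff_of_subset h6, card_pair (Ne.symm hzy)] at h5
    have h7 := card_le_card h6
    rw [card_pair (Ne.symm hzy)] at h7
    have h8 := card_insert_sdiff hv (singleton_subset_iff.2 hy)
    rw [card_singleton] at h8
    unfold M2 at h4
    omega
  · by_cases hBy : y ∈ BB Gr F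
    · obtain ⟨z, hz, hzy, hyz, _, _⟩ := exists_mate_BB hB.good hBy
      have h2 : Good Gr Gb (insert v (F \ {y})) := by
        apply hB.good.insert
        · intro x hx
          rw [mem_sdiff, mem_singleton] at hx
          exact Or.inl (hg x hx.1 hx.2).1
        · intro x hx h
          rw [mem_sdiff, mem_singleton] at hx
          exact absurd (hg x hx.1 hx.2) h
      have h3 : RR Gb (insert v (F \ {y})) ⊆ RR Gb F \ ∅ := by
        apply RR_insert hB.good (Gr := Gr)
        · intro x hx
          rw [mem_sdiff, mem_singleton] at hx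
          exact (hg x hx.1 hx.2).2
        · simp
      have h3' : BB Gr (insert v (F \ {y})) ⊆ BB Gr F \ {y, z} := by
        apply BB_insert hB.good
        · intro x hx
          rw [mem_sdiff, mem_singleton] at hx
          exact (hg x hx.1 hx.2).1
        · intro x hx
          rw [mem_insert, mem_singleton] at hx
          rcases hx with rfl | rfl
          · exact Or.inl (mem_singleton_self _)
          · exact Or.inr ⟨y, mem_singleton_self y, hy, Ne.symm hzy, fun h => hyz h.1.symm⟩
      have h4 := (hB.max _ h2).1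
      have h5 := card_le_card (h3.trans sdiff_subset)
      have h5' := card_le_card h3'
      have h6 : ({y, z} : Finset W) ⊆ BB Gr F := by
        intro x hx
        rw [mem_insert, mem_singleton] at hx
        rcases hx with rfl | rfl
        exacts [hBy, hz]
      rw [card_sdiff_of_subset h6, card_pair (Ne.symm hzy)] at h5'
      have h7 := card_le_card h6
      rw [card_pair (Ne.symm hzy)] at h7
      have h8 := card_insert_sdiff hv (singleton_subset_iff.2 hy)
      rw [card_singleton] at h8
      unfold M2 at h4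
      omega
    · -- a new pair
      have hgy := green_of_single hy hR hBy
      have h2 : Good Gr Gb (insert v (F \ ∅)) := by
        apply hB.good.insert
        · intro x hx
          rw [sdiff_empty] at hx
          by_cases hxy : x = y
          · rw [hxy]
            exact hvy
          · exact Or.inl (hg x hx hxy).1
        · intro x hx h z hz hzx
          rw [sdiff_empty] at hx hz
          by_cases hxy : x = y
          · rw [hxy] at hzx ⊢
            exact ⟨hg z hz hzx, hgy z hz hzx⟩
          · exact absurd (hg x hx hxy) h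
      have h8 := card_insert_sdiff hv (empty_subset F)
      rw [card_empty, add_zero] at h8
      have hBB := BB_insert_le hB.good (v := v) (y0 := y) (Y := ∅) (fun x hx hxy =>
        (hg x (mem_sdiff.1 hx).1 hxy).1)
      by_cases hb : Gb.Adj v y
      · have h3 : RR Gb (insert v (F \ ∅)) ⊆ RR Gb F \ ∅ := by
          apply RR_insert hB.good (Gr := Gr)
          · intro x hx
            rw [sdiff_empty] at hx
            by_cases hxy : x = y
            · rw [hxy]
              exact hb
            · exact (hg x hx hxy).2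
          · simp
        have h4 := hB.max _ h2
        have h5 := card_le_card (h3.trans sdiff_subset)
        unfold M2 P1 at h4
        have h4' := h4.1
        have h4'' := h4.2 (by omega)
        omega
      · have hr : Gr.Adj v y := hvy.resolve_right hb
        have h3 : BB Gr (insert v (F \ ∅)) ⊆ BB Gr F \ ∅ := by
          apply BB_insert hB.good
          · intro x hx
            rw [sdiff_empty] at hx
            by_cases hxy : x = y
            · rw [hxy]
              exact hr
            · exact (hg x hx hxy).1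
          · simp
        have h3' : RR Gb (insert v (F \ ∅)) ⊆ insert v (insert y (RR Gb F)) := by
          intro x hx
          unfold RR at hx
          rw [mem_filter, sdiff_empty] at hx
          obtain ⟨hx1, z, hz, hzx, hxz⟩ := hx
          rw [mem_insert, mem_insert]
          by_cases hxv : x = v
          · exact Or.inl hxv
          by_cases hxy : x = y
          · exact Or.inr (Or.inl hxy)
          right
          right
          have hxF : x ∈ F := (mem_insert.1 hx1).resolve_left hxv
          rcases mem_insert.1 hz with hzv | hzF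
          · exfalso
            rw [hzv] at hxz
            exact hxz (hg x hxF hxy).2.symm
          · exact mem_filter.2 ⟨hxF, z, hzF, hzx, hxz⟩
        -- the new red pair
        have h3'' : insert v (insert y (RR Gb F)) ⊆ RR Gb (insert v (F \ ∅)) := by
          intro x hx
          rw [sdiff_empty]
          rw [mem_insert, mem_insert] at hx
          unfold RR
          rw [mem_filter]
          rcases hx with rfl | rfl | hx
          · exact ⟨mem_insert_self _ _, y, mem_insert_of_mem hy, fun h => hv (h ▸ hy), hb⟩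
          · exact ⟨mem_insert_of_mem hy, v, mem_insert_self _ _, fun h => hv (h ▸ hy),
              fun h => hb h.symm⟩
          · obtain ⟨hx1, z, hz, h⟩ := mem_filter.1 hx
            exact ⟨mem_insert_of_mem hx1, z, mem_insert_of_mem hz, h⟩
        have h4 := hB.max _ h2
        have h5 := card_le_card (h3.trans sdiff_subset)
        have h6 : (insert v (insert y (RR Gb F))).card = (RR Gb F).card + 2 := by
          rw [card_insert_of_notMem, card_insert_of_notMem hR]
          rw [mem_insert, not_or]
          exact ⟨fun h => hv (h ▸ hy), fun h => hv (RR_sub F h)⟩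
        have h7 := card_le_card h3'
        have h7' := card_le_card h3''
        unfold M2 P1 at h4
        have h9 := h4.1
        have h10 := h4.2 (by omega)
        have h11 := h10.1
        have h12 := h10.2 (by omega)
        omega

/-- two hits, both blue-only: not in a red pair -/
theorem Best.two_hits {y y' : W} (hy : y ∈ F) (hy' : y' ∈ F) (hne : y ≠ y') (hb : Gb.Adj v y)
    (hb' : Gb.Adj v y') (hn : ¬ Gn Gr Gb v y') (hg : ∀ z ∈ F, z ≠ y → z ≠ y' → Gn Gr Gb v z) :
    y ∉ RR Gb F := by
  intro hR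
  obtain ⟨m, hm, hmy, hym, _, hgm⟩ := exists_mate_RR hB.good hR
  have h6 : ({y, m} : Finset W) ⊆ RR Gb F := by
    intro x hx
    rw [mem_insert, mem_singleton] at hx
    rcases hx with rfl | rfl
    exacts [hR, hm]
  have h7 := card_le_card h6
  have h6c : (RR Gb F \ {y, m}).card = (RR Gb F).card - 2 := by
    rw [card_sdiff_of_subset h6, card_pair (Ne.symm hmy)]
  rw [card_pair (Ne.symm hmy)] at h7
  by_cases hmy' : m = y'
  · -- both in the same pair
    have h2 : Good Gr Gb (insert v (F \ {y'})) := by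
      apply hB.good.insert
      · intro x hx
        rw [mem_sdiff, mem_singleton] at hx
        by_cases hxy : x = y
        · rw [hxy]
          exact Or.inr hb
        · exact Or.inl (hg x hx.1 hxy hx.2).1
      · intro x hx h z hz hzx
        rw [mem_sdiff, mem_singleton] at hx hz
        by_cases hxy : x = y
        · rw [hxy] at hzx ⊢
          exact ⟨hg z hz.1 hzx hz.2, hgm z hz.1 hzx (by rw [hmy']; exact hz.2)⟩
        · exact absurd (hg x hx.1 hxy hx.2) h
    have h3 : RR Gb (insert v (F \ {y'})) ⊆ RR Gb F \ {y, m} := by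
      apply RR_insert hB.good (Gr := Gr)
      · intro x hx
        rw [mem_sdiff, mem_singleton] at hx
        by_cases hxy : x = y
        · rw [hxy]
          exact hb
        · exact (hg x hx.1 hxy hx.2).2
      · intro x hx
        rw [mem_insert, mem_singleton] at hx
        rcases hx with rfl | rfl
        · exact Or.inr ⟨y', mem_singleton_self _, hy', Ne.symm hne,
            fun h => hym (by rw [hmy']; exact h.2)⟩
        · exact Or.inl (mem_singleton.2 hmy')
    have hBB := BB_insert_le hB.good (v := v) (y0 := y) (Y := {y'}) (fun x hx hxy => by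
      rw [mem_sdiff, mem_singleton] at hx
      exact (hg x hx.1 hxy hx.2).1)
    have h4 := hB.max _ h2
    have h5 := card_le_card h3
    have h8 := card_insert_sdiff hv (singleton_subset_iff.2 hy')
    rw [card_singleton] at h8
    unfold M2 P1 at h4
    have h4' := h4.1
    have h4'' := h4.2 (by omega)
    omega
  have h9 : ({y, y'} : Finset W) ⊆ F := by
    intro x hx
    rw [mem_insert, mem_singleton] at hx
    rcases hx with rfl | rfl
    exacts [hy, hy']
  have h8 := card_insert_sdiff hv h9
  rw [card_pair hne] at h8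
  have hgY : ∀ x ∈ F \ {y, y'}, Gn Gr Gb v x := by
    intro x hx
    rw [mem_sdiff, mem_insert, mem_singleton, not_or] at hx
    exact hg x hx.1 hx.2.1 hx.2.2
  have h2 : Good Gr Gb (insert v (F \ {y, y'})) := by
    apply hB.good.insert
    · exact fun x hx => Or.inl (hgY x hx).1
    · exact fun x hx h => absurd (hgY x hx) h
  have h2' : BB Gr (insert v (F \ {y, y'})) ⊆ BB Gr F \ ∅ := by
    apply BB_insert hB.good
    · exact fun x hx => (hgY x hx).1
    · simp
  have h2'' := card_le_card (h2'.trans sdiff_subset)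
  have h4 := hB.max _ h2
  by_cases hR' : y' ∈ RR Gb F
  · obtain ⟨m', hm', hmy1, hym1, _, _⟩ := exists_mate_RR hB.good hR'
    have hm'y : m' ≠ y := by
      intro h
      rw [h] at hym1
      exact hmy' (hB.good.uniq y hy m (RR_sub F hm) y' hy' (Ne.symm hmy) hne
        (fun h => hym h.2) (fun h => hym1 h.2.symm))
    have hmm : m ≠ m' := by
      intro h
      rw [← h] at hym1
      exact hne (hB.good.uniq m (RR_sub F hm) y hy y' hy' hmy hmy'
        (fun h => hym h.2.symm) (fun h => hym1 h.2.symm))
    have h3 : RR Gb (insert v (F \ {y, y'})) ⊆ RR Gb F \ ({y, m} ∪ {y', m'}) := by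
      apply RR_insert hB.good (Gr := Gr)
      · exact fun x hx => (hgY x hx).2
      · intro x hx
        rw [mem_union, mem_insert, mem_singleton, mem_insert, mem_singleton] at hx
        rcases hx with (rfl | rfl) | (rfl | rfl)
        · exact Or.inl (mem_insert_self _ _)
        · exact Or.inr ⟨y, mem_insert_self _ _, hy, Ne.symm hmy, fun h => hym h.2.symm⟩
        · exact Or.inl (mem_insert_of_mem (mem_singleton_self _))
        · exact Or.inr ⟨y', mem_insert_of_mem (mem_singleton_self _), hy', Ne.symm hmy1,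
            fun h => hym1 h.2.symm⟩
    have h10 : ({y, m} ∪ {y', m'} : Finset W) ⊆ RR Gb F := by
      apply union_subset h6
      intro x hx
      rw [mem_insert, mem_singleton] at hx
      rcases hx with rfl | rfl
      exacts [hR', hm']
    have h11 : ({y, m} ∪ {y', m'} : Finset W).card = 4 := by
      rw [card_union_of_disjoint, card_pair (Ne.symm hmy), card_pair (Ne.symm hmy1)]
      rw [Finset.disjoint_left]
      intro x hx hx'
      rw [mem_insert, mem_singleton] at hx hx'
      rcases hx with rfl | rfl <;> rcases hx' with h | h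
      exacts [hne h, hm'y h.symm, hmy' h, hmm h]
    have h12 := card_le_card h10
    have h5 := card_le_card h3
    rw [card_sdiff_of_subset h10, h11] at h5
    rw [h11] at h12
    have h13 := h4.1
    unfold M2 at h13
    omega
  have h3 : RR Gb (insert v (F \ {y, y'})) ⊆ RR Gb F \ {y, m} := by
    apply RR_insert hB.good (Gr := Gr)
    · exact fun x hx => (hgY x hx).2
    · intro x hx
      rw [mem_insert, mem_singleton] at hx
      rcases hx with rfl | rfl
      · exact Or.inl (mem_insert_self _ _)
      · exact Or.inr ⟨y, mem_insert_self _ _, hy, Ne.symm hmy, fun h => hym h.2.symm⟩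
  by_cases hBy : y' ∈ BB Gr F
  · obtain ⟨m', hm', hmy1, hym1, _, _⟩ := exists_mate_BB hB.good hBy
    have h3' : BB Gr (insert v (F \ {y, y'})) ⊆ BB Gr F \ {y', m'} := by
      apply BB_insert hB.good
      · exact fun x hx => (hgY x hx).1
      · intro x hx
        rw [mem_insert, mem_singleton] at hx
        rcases hx with rfl | rfl
        · exact Or.inl (mem_insert_of_mem (mem_singleton_self _))
        · exact Or.inr ⟨y', mem_insert_of_mem (mem_singleton_self _), hy', Ne.symm hmy1,
            fun h => hym1 h.1.symm⟩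
    have h10 : ({y', m'} : Finset W) ⊆ BB Gr F := by
      intro x hx
      rw [mem_insert, mem_singleton] at hx
      rcases hx with rfl | rfl
      exacts [hBy, hm']
    have h12 := card_le_card h10
    have h5 := card_le_card h3
    have h5' := card_le_card h3'
    rw [card_sdiff_of_subset h10, card_pair (Ne.symm hmy1)] at h5'
    rw [card_pair (Ne.symm hmy1)] at h12
    have h14 := h4.1
    unfold M2 at h14
    omega
  · -- a new blue pair
    have hgy := green_of_single hy' hR' hBy
    have h2 : Good Gr Gb (insert v (F \ {y})) := by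
      apply hB.good.insert
      · intro x hx
        rw [mem_sdiff, mem_singleton] at hx
        by_cases hxy : x = y'
        · rw [hxy]
          exact Or.inr hb'
        · exact Or.inl (hg x hx.1 hx.2 hxy).1
      · intro x hx h z hz hzx
        rw [mem_sdiff, mem_singleton] at hx hz
        by_cases hxy : x = y'
        · rw [hxy] at hzx ⊢
          exact ⟨hg z hz.1 hz.2 hzx, hgy z hz.1 hzx⟩
        · exact absurd (hg x hx.1 hx.2 hxy) h
    have h3 : RR Gb (insert v (F \ {y})) ⊆ RR Gb F \ {y, m} := by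
      apply RR_insert hB.good (Gr := Gr)
      · intro x hx
        rw [mem_sdiff, mem_singleton] at hx
        by_cases hxy : x = y'
        · rw [hxy]
          exact hb'
        · exact (hg x hx.1 hx.2 hxy).2
      · intro x hx
        rw [mem_insert, mem_singleton] at hx
        rcases hx with rfl | rfl
        · exact Or.inl (mem_singleton_self _)
        · exact Or.inr ⟨y, mem_singleton_self _, hy, Ne.symm hmy, fun h => hym h.2.symm⟩
    have hBB := BB_insert_le hB.good (v := v) (y0 := y') (Y := {y}) (fun x hx hxy => by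
      rw [mem_sdiff, mem_singleton] at hx
      exact (hg x hx.1 hx.2 hxy).1)
    have h4 := hB.max _ h2
    have h5 := card_le_card h3
    have h8 := card_insert_sdiff hv (singleton_subset_iff.2 hy)
    rw [card_singleton] at h8
    unfold M2 P1 at h4
    have h4' := h4.1
    have h4'' := h4.2 (by omega)
    omega

end cert

section cert2

variable {F : Finset W}

theorem Best.hits_two (hB : Best Gr Gb F) {v : W} (hv : v ∉ F) :
    (∃ y ∈ F, ¬ Gb.Adj v y ∧ ¬ Gr.Adj v y) ∨ 2 ≤ (hit Gr Gb v F).card := by
  by_contra hcon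
  rw [not_or] at hcon
  obtain ⟨h1, h2⟩ := hcon
  have h3 := card_pos.2 (hB.no_zero hv)
  obtain ⟨y, hy⟩ := card_eq_one.1 (by omega : (hit Gr Gb v F).card = 1)
  have hy1 : y ∈ hit Gr Gb v F := by
    rw [hy]
    exact mem_singleton_self y
  rw [mem_hit] at hy1
  refine hB.no_one hv hy1.1 ?_ hy1.2 ?_
  · by_contra hcon
    rw [not_or] at hcon
    exact h1 ⟨y, hy1.1, hcon.2, hcon.1⟩
  · intro z hz hzy
    by_contra hcon
    have : z ∈ hit Gr Gb v F := mem_hit.2 ⟨hz, hcon⟩
    rw [hy, mem_singleton] at this
    exact hzy this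

theorem Best.mem_VV_of (hB : Best Gr Gb F) {v : W} (hv : v ∉ F) (h2 : (hit Gr Gb v F).card = 2)
    (hb : ∀ y ∈ F, Gb.Adj v y) : v ∈ VV Gr Gb F := by
  refine mem_VV.2 ⟨hv, h2, hb, ?_⟩
  obtain ⟨y, y', hne, hyy⟩ := card_eq_two.1 h2
  have hy1 : y ∈ hit Gr Gb v F := by
    rw [hyy]
    exact mem_insert_self _ _
  have hy2 : y' ∈ hit Gr Gb v F := by
    rw [hyy]
    exact mem_insert_of_mem (mem_singleton_self _)
  have hg : ∀ z ∈ F, z ≠ y → z ≠ y' → Gn Gr Gb v z := by
    intro z hz h3 h4
    by_contra hcon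
    have : z ∈ hit Gr Gb v F := mem_hit.2 ⟨hz, hcon⟩
    rw [hyy, mem_insert, mem_singleton] at this
    exact this.elim h3 h4
  rw [mem_hit] at hy1 hy2
  rw [hyy, Finset.disjoint_left]
  intro x hx
  rw [mem_insert, mem_singleton] at hx
  rcases hx with rfl | rfl
  · exact hB.two_hits hv hy1.1 hy2.1 hne (hb _ hy1.1) (hb _ hy2.1) hy2.2 hg
  · exact hB.two_hits hv hy2.1 hy1.1 (Ne.symm hne) (hb _ hy2.1) (hb _ hy1.1) hy1.2
      (fun z hz h3 h4 => hg z hz h4 h3)

variable {a b : ℝ}

theorem Best.D_two (hB : Best Gr Gb F) (ha : 0 ≤ a) (hab : a ≤ b) (v : W) :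
    2 * a ≤ D a b Gr Gb v F := by
  by_cases hv : v ∈ F
  · have := D_self (Gr := Gr) (Gb := Gb) ha hab hv
    linarith
  rcases hB.hits_two hv with ⟨y, hy, h1, h2⟩ | h
  · have h3 : D a b Gr Gb v {y} ≤ D a b Gr Gb v F := D_mono ha hab v (singleton_subset_iff.2 hy)
    have h4 : D a b Gr Gb v {y} = Mat a b Gr Gb v y := by
      unfold D
      rw [sum_singleton]
    have h5 := mat_none (a := a) (b := b) h1 h2
    linarith
  · have h1 := D_ge_card (Gr := Gr) (Gb := Gb) ha hab v F
    have h2 : (2 : ℝ) ≤ (hit Gr Gb v F).card := by exact_mod_cast h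
    nlinarith

theorem Best.D_ab (hB : Best Gr Gb F) (ha : 0 ≤ a) (hab : a ≤ b) (hb : b ≤ 2 * a) {v : W}
    (hvV : v ∉ VV Gr Gb F) : a + b ≤ D a b Gr Gb v F := by
  by_cases hv : v ∈ F
  · exact D_self (Gr := Gr) (Gb := Gb) ha hab hv
  by_cases hnb : ∃ y ∈ F, ¬ Gb.Adj v y
  · obtain ⟨y, hy, hvy⟩ := hnb
    rcases hB.hits_two hv with ⟨z, hz, h1, h2⟩ | h
    · have h3 : D a b Gr Gb v {z} ≤ D a b Gr Gb v F :=
        D_mono ha hab v (singleton_subset_iff.2 hz)
      have h4 : D a b Gr Gb v {z} = Mat a b Gr Gb v z := by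
        unfold D
        rw [sum_singleton]
      have h5 := mat_none (a := a) (b := b) h1 h2
      linarith
    · have h1 := D_ge_one (Gr := Gr) (Gb := Gb) ha hab (v := v) hy (c := b - a)
        (fun h => hvy h.2) (by
          have := mat_ge_b (b := b) (Gr := Gr) ha hvy
          linarith)
      have h2 : (2 : ℝ) ≤ (hit Gr Gb v F).card := by exact_mod_cast h
      nlinarith
  · push Not at hnb
    have h2 : 2 ≤ (hit Gr Gb v F).card := by
      rcases hB.hits_two hv with ⟨z, hz, h1, _⟩ | h
      · exact absurd (hnb z hz) h1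
      · exact h
    have h3 : 3 ≤ (hit Gr Gb v F).card := by
      by_contra hcon
      exact hvV (hB.mem_VV_of hv (by omega) hnb)
    have h1 := D_ge_card (Gr := Gr) (Gb := Gb) ha hab v F
    have h4 : (3 : ℝ) ≤ (hit Gr Gb v F).card := by exact_mod_cast h3
    nlinarith

/-- the certificate with a blue clique that blocks all of `VV` -/
theorem Best.D_K (hB : Best Gr Gb F) (ha : 0 ≤ a) (hab : a ≤ b) (hb : b ≤ 2 * a)
    {K : Finset W} (hmax : ∀ v ∈ VV Gr Gb F, v ∉ K → ∃ z ∈ K, ¬ Gb.Adj v z)
    (hK : Disjoint K F) (v : W) : a + b ≤ D a b Gr Gb v (F ∪ K) := by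
  by_cases hvV : v ∈ VV Gr Gb F
  · by_cases hvK : v ∈ K
    · exact D_self ha hab (mem_union_right _ hvK)
    · obtain ⟨z, hz, hvz⟩ := hmax v hvV hvK
      have hzF : z ∉ F := Finset.disjoint_left.1 hK hz
      have h1 : D a b Gr Gb v (insert z F) ≤ D a b Gr Gb v (F ∪ K) := by
        apply D_mono ha hab v
        exact insert_subset (mem_union_right _ hz) subset_union_left
      have h2 : D a b Gr Gb v (insert z F) = Mat a b Gr Gb v z + D a b Gr Gb v F := by
        unfold D
        rw [sum_insert hzF]
      have h3 := hB.D_two ha hab v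
      have h4 := mat_ge_b (b := b) (Gr := Gr) ha hvz
      linarith
  · exact (hB.D_ab ha hab hb hvV).trans (D_mono ha hab v subset_union_left)

end cert2

/-! ### the boxes killed by a green clique -/

section kill

variable {F : Finset W}

variable (Gr Gb) in
/-- a green clique -/
def Clq (Z : Finset W) : Prop := ∀ x ∈ Z, ∀ y ∈ Z, x ≠ y → Gn Gr Gb x y

theorem Clq.sub {Z Z' : Finset W} (h : Clq Gr Gb Z) (hZ : Z' ⊆ Z) : Clq Gr Gb Z' :=
  fun x hx y hy hxy => h x (hZ hx) y (hZ hy) hxy

theorem Good.sub {F F' : Finset W} (h : Good Gr Gb F) (hF : F' ⊆ F) : Good Gr Gb F' :=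
  ⟨fun x hx y hy => h.col x (hF hx) y (hF hy),
    fun x hx y hy z hz => h.uniq x (hF hx) y (hF hy) z (hF hz)⟩

/-- representatives of the boxes -/
theorem exists_reps (hF : Good Gr Gb F) : ∃ Z ⊆ F, Clq Gr Gb Z ∧ M2 Gr Gb F ≤ 2 * Z.card := by
  set ix := Fintype.equivFin W
  set Z := F.filter (fun x => ∀ y ∈ F, y ≠ x → ¬ Gn Gr Gb x y → ix x < ix y) with hZ
  have hZF : Z ⊆ F := filter_subset _ _
  refine ⟨Z, hZF, ?_, ?_⟩
  · intro x hx y hy hxy
    by_contra hcon
    rw [hZ, mem_filter] at hx hy
    have h1 := hx.2 y hy.1 (Ne.symm hxy) hcon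
    have h2 := hy.2 x hx.1 hxy (fun h => hcon h.symm)
    exact absurd h1 (not_lt.2 h2.le)
  · set B := F \ Z with hBdef
    have hB : ∀ x ∈ B, ∃ y, y ∈ F ∧ y ≠ x ∧ ¬ Gn Gr Gb x y ∧ ix y < ix x := by
      intro x hx
      rw [hBdef, mem_sdiff, hZ, mem_filter] at hx
      have h1 := hx.2
      push Not at h1
      obtain ⟨y, hy, hyx, hxy, h2⟩ := h1 hx.1
      exact ⟨y, hy, hyx, hxy, lt_of_le_of_ne h2 (fun h => hyx (ix.injective h))⟩
    choose! m hm1 hm2 hm3 hm4 using hB
    have hRB : ∀ x ∈ F, ∀ y ∈ F, y ≠ x → ¬ Gn Gr Gb x y → x ∈ RR Gb F ∪ BB Gr F := by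
      intro x hx y hy hyx hxy
      rw [mem_union]
      unfold Gn at hxy
      rw [not_and_or] at hxy
      rcases hxy with h | h
      · exact Or.inr (mem_filter.2 ⟨hx, y, hy, hyx, h⟩)
      · exact Or.inl (mem_filter.2 ⟨hx, y, hy, hyx, h⟩)
    have hBF : B ⊆ F := sdiff_subset
    have h1 : B ∪ B.image m ⊆ RR Gb F ∪ BB Gr F := by
      apply union_subset
      · intro x hx
        exact hRB x (hBF hx) (m x) (hm1 x hx) (hm2 x hx) (hm3 x hx)
      · intro y hy
        obtain ⟨x, hx, rfl⟩ := mem_image.1 hy
        exact hRB _ (hm1 x hx) x (hBF hx) (Ne.symm (hm2 x hx)) (fun h => hm3 x hx h.symm)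
    have h2 : Disjoint B (B.image m) := by
      rw [Finset.disjoint_left]
      intro y hy hy'
      obtain ⟨x, hx, rfl⟩ := mem_image.1 hy'
      -- the mate of `m x` is `x`
      have h3 : m (m x) = x := hF.uniq (m x) (hm1 x hx) _ (hm1 _ hy) x (hBF hx)
        (Ne.symm (hm2 _ hy)) (hm2 x hx) (hm3 _ hy) (fun h => hm3 x hx h.symm)
      have h4 := hm4 _ hy
      rw [h3] at h4
      exact absurd (hm4 x hx) (not_lt.2 h4.le)
    have h3 : (B.image m).card = B.card := by
      apply card_image_of_injOn
      intro x hx x' hx' h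
      rw [mem_coe] at hx hx'
      have h4 : ¬ Gn Gr Gb (m x) x' := by
        have h5 : m x = m x' := h
        rw [h5]
        exact fun h => hm3 x' hx' h.symm
      exact hF.uniq (m x) (hm1 x hx) x (hBF hx) x' (hBF hx') (hm2 x hx)
        (fun h5 => by
          have h6 : m x = m x' := h
          rw [h6] at h5
          exact hm2 x' hx' h5) (fun h => hm3 x hx h.symm) h4
    have h4 := card_le_card h1
    rw [card_union_of_disjoint h2, h3] at h4
    have h5 := h4.trans (card_union_le _ _)
    have h6 : B.card + Z.card = F.card := card_sdiff_add_card_eq_card hZF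
    unfold M2
    omega

/-- a green clique has at most as many vertices as there are boxes -/
theorem Best.clq_le (hB : Best Gr Gb F) {T : Finset W} (hT : Clq Gr Gb T) :
    2 * (T.card : ℤ) ≤ M2 Gr Gb F := by
  have h1 : Good Gr Gb T := by
    constructor
    · exact fun x hx y hy hxy => Or.inl (hT x hx y hy hxy).1
    · intro x hx y hy z hz hxy hxz h1 h2
      exact absurd (hT x hx y hy hxy) h1
  have h2 : RR Gb T = ∅ := by
    rw [eq_empty_iff_forall_notMem]
    intro x hx
    obtain ⟨hx1, y, hy, hyx, hxy⟩ := mem_filter.1 hx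
    exact hxy (hT x hx1 y hy (Ne.symm hyx)).2
  have h3 : BB Gr T = ∅ := by
    rw [eq_empty_iff_forall_notMem]
    intro x hx
    obtain ⟨hx1, y, hy, hyx, hxy⟩ := mem_filter.1 hx
    exact hxy (hT x hx1 y hy (Ne.symm hyx)).1
  have h4 := (hB.max T h1).1
  unfold M2 at h4 ⊢
  rw [h2, h3] at h4
  simp only [card_empty] at h4
  push_cast at h4
  omega

/-- **(P4')** a green clique `T` outside of `F` fully kills at least `T.card` boxes. -/
theorem Best.kill (hB : Best Gr Gb F) {T : Finset W} (hT : Clq Gr Gb T) (hTF : Disjoint T F) :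
    ∃ Z ⊆ F, Clq Gr Gb Z ∧ Z.card = T.card ∧ (∀ z ∈ Z, ∃ u ∈ T, ¬ Gn Gr Gb u z) ∧
      ∀ z ∈ Z, ∀ y ∈ F, y ≠ z → ¬ Gn Gr Gb z y → ∃ u ∈ T, ¬ Gn Gr Gb u y := by
  obtain ⟨Z0, hZ0F, hZ0, hZ0c⟩ := exists_reps hB.good
  set Y := F.filter (fun y => ∃ u ∈ T, ¬ Gn Gr Gb u y) with hY
  -- the representatives of the fully killed boxes
  set Z1 := Z0.filter (fun z => z ∈ Y ∧ ∀ y ∈ F, y ≠ z → ¬ Gn Gr Gb z y → y ∈ Y) with hZ1
  have hZ1Z : Z1 ⊆ Z0 := filter_subset _ _
  -- living representatives of the other boxes
  have hex : ∀ z ∈ Z0 \ Z1, ∃ y ∈ F \ Y, (z ∉ Y → y = z) ∧ (z ∈ Y → y ≠ z ∧ ¬ Gn Gr Gb z y) := by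
    intro z hz
    rw [mem_sdiff, hZ1, mem_filter] at hz
    by_cases hzY : z ∈ Y
    · have h1 : ¬ ∀ y ∈ F, y ≠ z → ¬ Gn Gr Gb z y → y ∈ Y := fun h => hz.2 ⟨hz.1, hzY, h⟩
      push Not at h1
      obtain ⟨y, hy, hyz, hzy, hyY⟩ := h1
      exact ⟨y, mem_sdiff.2 ⟨hy, hyY⟩, fun h => absurd hzY h, fun _ => ⟨hyz, hzy⟩⟩
    · exact ⟨z, mem_sdiff.2 ⟨hZ0F hz.1, hzY⟩, fun _ => rfl, fun h => absurd h hzY⟩
  choose! f hf1 hf2 hf3 using hex
  have hfF : ∀ z ∈ Z0 \ Z1, f z ∈ F := fun z hz => (mem_sdiff.1 (hf1 z hz)).1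
  have hfY : ∀ z ∈ Z0 \ Z1, f z ∉ Y := fun z hz => (mem_sdiff.1 (hf1 z hz)).2
  have hkey : ∀ z ∈ Z0 \ Z1, ∀ z' ∈ Z0 \ Z1, z ≠ z' → f z ≠ f z' ∧ Gn Gr Gb (f z) (f z') := by
    have hZ0' : ∀ z ∈ Z0 \ Z1, z ∈ Z0 := fun z hz => (mem_sdiff.1 hz).1
    have haux : ∀ z ∈ Z0 \ Z1, ∀ z' ∈ Z0 \ Z1, z ≠ z' → z ∈ Y → f z ≠ f z' ∧
        Gn Gr Gb (f z) (f z') := by
      intro z hz z' hz' hne hzY
      obtain ⟨h1, h2⟩ := hf3 z hz hzY
      have hzF := hZ0F (hZ0' z hz)
      have hzF' := hZ0F (hZ0' z' hz')
      -- the only nongreen partner of `f z` is `z`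
      have huq : ∀ y ∈ F, y ≠ f z → ¬ Gn Gr Gb (f z) y → y = z := fun y hy hyz hn =>
        hB.good.uniq (f z) (hfF z hz) y hy z hzF (Ne.symm hyz) h1 hn (fun h => h2 h.symm)
      have hne1 : f z ≠ f z' := by
        intro h
        by_cases hzY' : z' ∈ Y
        · obtain ⟨h3, h4⟩ := hf3 z' hz' hzY'
          refine hne (huq z' hzF' ?_ ?_).symm
          · rw [h]
            exact Ne.symm h3
          · rw [h]
            exact fun h5 => h4 h5.symm
        · have h3 := hf2 z' hz' hzY'
          rw [h3] at h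
          rw [h] at h2
          exact h2 (hZ0 z (hZ0' z hz) z' (hZ0' z' hz') hne)
      refine ⟨hne1, ?_⟩
      by_contra hcon
      have h3 := huq (f z') (hfF z' hz') (Ne.symm hne1) hcon
      exact hfY z' hz' (h3 ▸ hzY)
    intro z hz z' hz' hne
    by_cases hzY : z ∈ Y
    · exact haux z hz z' hz' hne hzY
    by_cases hzY' : z' ∈ Y
    · have := haux z' hz' z hz (Ne.symm hne) hzY'
      exact ⟨Ne.symm this.1, this.2.symm⟩
    · rw [hf2 z hz hzY, hf2 z' hz' hzY']
      exact ⟨hne, hZ0 z (hZ0' z hz) z' (hZ0' z' hz') hne⟩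
  have hgT : ∀ y ∈ F, y ∉ Y → ∀ u ∈ T, Gn Gr Gb u y := by
    intro y hy hyY u hu
    by_contra hcon
    exact hyY (mem_filter.2 ⟨hy, u, hu, hcon⟩)
  have hclq : Clq Gr Gb ((Z0 \ Z1).image f ∪ T) := by
    intro x hx y hy hxy
    rw [mem_union, mem_image] at hx hy
    rcases hx with ⟨z, hz, rfl⟩ | hx <;> rcases hy with ⟨z', hz', rfl⟩ | hy
    · exact (hkey z hz z' hz' (fun h => hxy (by rw [h]))).2
    · exact (hgT _ (hfF z hz) (hfY z hz) y hy).symm
    · exact hgT _ (hfF z' hz') (hfY z' hz') x hx
    · exact hT x hx y hy hxy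
  have hcard : ((Z0 \ Z1).image f ∪ T).card = (Z0 \ Z1).card + T.card := by
    rw [card_union_of_disjoint, card_image_of_injOn]
    · intro z hz z' hz' h
      by_contra hne
      exact (hkey z (mem_coe.1 hz) z' (mem_coe.1 hz') hne).1 h
    · rw [Finset.disjoint_left]
      intro x hx hx'
      obtain ⟨z, hz, rfl⟩ := mem_image.1 hx
      exact Finset.disjoint_left.1 hTF hx' (hfF z hz)
  have h1 := hB.clq_le hclq
  rw [hcard] at h1
  have h2 : (Z0 \ Z1).card + Z1.card = Z0.card := card_sdiff_add_card_eq_card hZ1Z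
  have h3 : T.card ≤ Z1.card := by
    push_cast at h1
    omega
  obtain ⟨Z, hZ, hZc⟩ := exists_subset_card_eq h3
  have hmem : ∀ z ∈ Z, z ∈ Y ∧ ∀ y ∈ F, y ≠ z → ¬ Gn Gr Gb z y → y ∈ Y :=
    fun z hz => (mem_filter.1 (hZ hz)).2
  refine ⟨Z, (hZ.trans hZ1Z).trans hZ0F, hZ0.sub (hZ.trans hZ1Z), hZc, ?_, ?_⟩
  · exact fun z hz => (mem_filter.1 (hmem z hz).1).2
  · exact fun z hz y hy hyz hn => (mem_filter.1 ((hmem z hz).2 y hy hyz hn)).2

end kill

end LM

end Pool.Agent.Lib.MP_a05470_co
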