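import Pool.Agent.Lib.MP_a05470_co.FP.Full
import Pool.Agent.Lib.MP_a05470_co.FP.ExNF3
import Pool.Agent.Lib.MP_a05470_co.General3

/-!
# Forcing for all graphs
-/

set_option autoImplicit false
set_option linter.unusedSectionVars false

namespace Pool.Agent.Lib.MP_a05470_co

open Finset Classical

namespace JT

variable {V : Type} [Fintype V] {R : SimpleGraph V}

/-- a crown-free graph is not very unbalanced -/
theorem crownfree_lt {a g : ℕ} (hV : Fintype.card V = 2 * a + g + 1)
    (hth : th R univ = a + g + 1) (hfree : CrownFree R univ) : g < a := by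
  by_contra hga
  obtain ⟨C, X, M1, M2, N, w, h⟩ := EX.exists_NF3 hV hth
  have h1 := EX.card_Tt h.crit
  have h2 := h.tcs_le
  have h3 := h.thX
  have h4 := h.cardX
  have h5 := h.card
  have h6 : (Tt R X).card ≤ (LM.iso R X).card + (LM.tcs R X).card := by
    have h7 : Tt R X ⊆ (LM.iso R X).image (cmp R X) ∪ LM.tcs R X := by
      intro P hP
      rw [mem_union]
      rcases Nat.lt_or_ge P.card 2 with h8 | h8
      · left
        have h9 : P.card = 1 := by
          have := card_pos.2 (cmps_ne (Tt_cmps hP))
          omega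
        obtain ⟨x, rfl⟩ := card_eq_one.1 h9
        have h10 : x ∈ X := cmps_sub (Tt_cmps hP) (mem_singleton_self x)
        have h11 : cmp R X x = {x} := FIN.cmp_eq (Tt_cmps hP) (mem_singleton_self x)
        exact mem_image.2 ⟨x, mem_iso_of h10 h11, h11⟩
      · right
        exact mem_filter.2 ⟨Tt_cmps hP, h8, Tt_tight h.crit hP⟩
    refine (card_le_card h7).trans ((card_union_le _ _).trans ?_)
    exact Nat.add_le_add_right card_image_le _
  have h8 : (LM.iso R X).Nonempty := by
    rw [← card_pos]
    omega
  have h9 := hfree (LM.iso R X) (subset_univ _) h8 (by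
    intro x hx y hy
    exact (mem_filter.1 hx).2 y (mem_filter.1 hy).1)
  have h10 : nbrIn R univ (LM.iso R X) ⊆ M1 ∪ M2 ∪ N := by
    intro v hv
    obtain ⟨_, x, hx, hxv⟩ := mem_filter.1 hv
    rcases h.cover v with h11 | h11
    · exact absurd hxv ((mem_filter.1 hx).2 v h11)
    · exact h11
  have h11 := card_le_card h10
  have h12 : (M1 ∪ M2 ∪ N).card ≤ M1.card + M2.card + N.card :=
    (card_union_le _ _).trans (Nat.add_le_add_right (card_union_le _ _) _)
  omega

end JT

/-- **The range `a ≤ b ≤ 2a`.** -/
theorem forces_core {V : Type} [Fintype V] {R : SimpleGraph V} {a g : ℕ} (ha : 1 ≤ a)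
    (hga : g ≤ a) (hV : Fintype.card V = 2 * a + g + 1) (hth : JT.th R univ = a + g + 1) :
    Forces (a : ℝ) ((a + g : ℕ) : ℝ) R Rᶜ := by
  obtain ⟨C, X, M1, M2, N, w, h⟩ := EX.exists_NF3 hV hth
  intro ε hε
  refine ⟨1, fun n hn Gr Gb hG => ?_⟩
  have hne : Nonempty (Fin n) := ⟨⟨0, by omega⟩⟩
  have hcheap : JF.Cheap (a : ℝ) ((a : ℝ) + g) Gr Gb := by
    apply JF.cheap_of_degree hε (by omega)
    intro v
    have := hG v
    push_cast at this
    exact this
  refine LM.full ha hga ?_ hcheap hV hth h
  intro v
  have hn0 : (0 : ℝ) < n := by exact_mod_cast (show 0 < n by omega)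
  have h1 : L1.D (a : ℝ) ((a + g : ℕ) : ℝ) Gr Gb v univ =
      a * nonadj Gr v + ((a + g : ℕ) : ℝ) * nonadj Gb v := by
    unfold L1.D Mat nonadj
    rw [sum_add_distrib]
    congr 1
    · rw [card_filter]
      push_cast
      rw [mul_sum]
      apply sum_congr rfl
      intro v _
      split_ifs <;> simp_all
    · rw [card_filter]
      push_cast
      rw [mul_sum]
      apply sum_congr rfl
      intro v _
      split_ifs <;> simp_all
  rw [h1, Fintype.card_fin]
  have h2 := hG v
  nlinarith

/-- **The forcing theorem for all graphs.** -/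
theorem forces_J {V : Type} [Fintype V] {R : SimpleGraph V} {a b : ℕ} (ha : 1 ≤ a)
    (hab : a ≤ b) (hV : Fintype.card V = a + b + 1) (hth : JT.th R univ = b + 1) :
    Forces (a : ℝ) b R Rᶜ := by
  rcases Nat.lt_or_ge (2 * a) b with hb | hb
  · refine forces_of_crownfree ?_ R ha hb.le hV (JT.colorable_of_th_univ hth.le) ?_
    · intro V' _ R' a' b' ha' hab' hV' hfree hc hnc
      have hth' : JT.th R' univ = b' + 1 := by
        apply le_antisymm (JT.th_le_of_colorable hc)
        by_contra hcon
        exact hnc (JT.colorable_of_th_univ (by omega))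
      have h1 := JT.crownfree_lt (a := a') (g := b' - a') (by omega) (by omega) hfree
      have h2 := forces_core (R := R') (a := a') (g := b' - a') ha' (by omega) (by omega)
        (by omega)
      have h3 : a' + (b' - a') = b' := by omega
      rwa [h3] at h2
    · intro hc
      have := JT.th_le_of_colorable hc
      omega
  · have h2 := forces_core (R := R) (a := a) (g := b - a) ha (by omega) (by omega) (by omega)
    have h3 : a + (b - a) = b := by omega
    rwa [h3] at h2

end Pool.Agent.Lib.MP_a05470_co
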