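import Pool.Agent.Lib.MP_a05470_co.FP.Place
import Pool.Agent.Lib.MP_a05470_co.FP.Greedy

/-!
# The picks satisfy the hypotheses of the distribution theorem
-/

set_option autoImplicit false
set_option linter.unusedSectionVars false

namespace Pool.Agent.Lib.MP_a05470_co

open Finset Classical

namespace LM

open L1

variable {W : Type} [Fintype W] {Gr Gb : SimpleGraph W} {a b : ℕ} {F Xb K U : Finset W}
  {mt : W → W}

/-- the allowance of a pick -/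
noncomputable def cc (Gr Gb : SimpleGraph W) (a b : ℕ) (F Xb K : Finset W) (u : W) : ℤ :=
  if u ∈ Xb then 0 else 1 + ⌊(D (a : ℝ) b Gr Gb u (F ∪ K) - (a + b)) / a⌋

/-- a pick with slack -/
def Free (Gr Gb : SimpleGraph W) (F Xb K : Finset W) (u : W) : Prop :=
  u ∈ (F \ Xb) ∪ K ∨ ∃ y ∈ (F \ Xb) ∪ K, y ∉ Xb ∧ u ∉ Xb ∧ ¬ Gr.Adj u y ∧ ¬ Gb.Adj u y

/-- the killed boxes of outside picks are not red pairs -/
theorem kill_outside (hB : Best Gr Gb F) (hT : Tv Gr Gb F Xb mt) {T : Finset W}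
    (hTc : ∀ u ∈ T, ∀ v ∈ T, u ≠ v → Gn Gr Gb u v) (hTF : Disjoint T F)
    (hTX : ∀ u ∈ T, ∀ x ∈ Xb, Gn Gr Gb u x) :
    ∃ Z ⊆ F, Clq Gr Gb Z ∧ Z.card = T.card ∧ (∀ z ∈ Z, z ∉ RR Gb F) ∧
      (∀ z ∈ Z, ∃ u ∈ T, ¬ Gn Gr Gb u z) ∧
      ∀ z ∈ Z, ∀ y ∈ F, y ≠ z → ¬ Gn Gr Gb z y → ∃ u ∈ T, ¬ Gn Gr Gb u y := by
  obtain ⟨Z, hZF, hZc, hZn, hZ1, hZ2⟩ := hB.kill hTc hTF
  refine ⟨Z, hZF, hZc, hZn, ?_, hZ1, hZ2⟩
  intro z hz hR
  by_cases hX : z ∈ Xb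
  · obtain ⟨u, hu, h⟩ := hZ1 z hz
    exact h (hTX u hu z hX)
  · have h1 := hT.out z hR hX
    obtain ⟨k1, k2, k3, k4, k5, k6⟩ := hT.mate z hR
    obtain ⟨u, hu, h⟩ := hZ2 z hz (mt z) (RR_sub F k1) k2 (fun h => k3 h.2)
    exact h (hTX u hu _ h1)

theorem picks (hB : Best Gr Gb F) (hH : Host Gr Gb F Xb K mt) (ha : 0 < a) (hab : a ≤ b)
    (hXU : Xb ⊆ U) (hUc : ∀ u ∈ U, ∀ v ∈ U, u ≠ v → Gn Gr Gb u v)
    (hD : ∀ u ∈ U, (a : ℝ) + b ≤ D (a : ℝ) b Gr Gb u (F ∪ K))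
    (hK : ∀ u ∈ U, u ∉ Xb → u ∉ F ∪ K → ∃ y ∈ (F \ Xb) ∪ K, ¬ Gb.Adj u y) :
    TR.Picks (fun u => hit Gr Gb u ((F \ Xb) ∪ K)) U Gr.Adj Gb.Adj (cc Gr Gb a b F Xb K)
      (Free Gr Gb F Xb K) (F \ Xb) Xb (Nm Gr Gb F) := by
  have haR : (0 : ℝ) < a := by exact_mod_cast ha
  have habR : (a : ℝ) ≤ b := by exact_mod_cast hab
  set S := (F \ Xb) ∪ K with hS
  have hSF : S ⊆ F ∪ K := union_subset_union sdiff_subset (Subset.refl _)
  have hXS : ∀ x ∈ Xb, x ∉ S := by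
    intro x hx h
    rw [hS, mem_union, mem_sdiff] at h
    rcases h with h | h
    · exact h.2 hx
    · exact Finset.disjoint_left.1 hH.KF h (RR_sub F (hH.tv.sub hx))
  -- the hits of a vertex of the transversal
  have hXhit : ∀ x ∈ Xb, hit Gr Gb x S = {mt x} := by
    intro x hx
    obtain ⟨k1, k2, k3, k4, k5, k6⟩ := hH.tv.mate x (hH.tv.sub hx)
    ext y
    rw [mem_hit, mem_singleton]
    constructor
    · rintro ⟨h1, h2⟩
      rw [hS, mem_union, mem_sdiff] at h1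
      rcases h1 with h1 | h1
      · by_contra hcon
        exact h2 (k5 y h1.1 (fun h => h1.2 (h ▸ hx)) hcon)
      · exact absurd (hH.green y h1 x hx).symm h2
    · rintro rfl
      refine ⟨mem_union_left _ (mem_sdiff.2 ⟨RR_sub F k1, hH.tv.mt_out hx⟩), fun h => k3 h.2⟩
  have hge : ∀ (u : W) {k : ℕ}, (k : ℝ) * a + (a + b) ≤ D (a : ℝ) b Gr Gb u (F ∪ K) + 2 * a →
      (k : ℤ) ≤ 1 + ⌊(D (a : ℝ) b Gr Gb u (F ∪ K) - (a + b)) / a⌋ + 1 := by
    intro u k hk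
    have h1 : ((k : ℤ) - 2) ≤ ⌊(D (a : ℝ) b Gr Gb u (F ∪ K) - (a + b)) / a⌋ := by
      rw [Int.le_floor, le_div_iff₀ haR]
      push_cast
      linarith
    linarith
  have hge' : ∀ (u : W) {k : ℕ}, (k : ℝ) * a + (a + b) ≤ D (a : ℝ) b Gr Gb u (F ∪ K) + a →
      (k : ℤ) ≤ 1 + ⌊(D (a : ℝ) b Gr Gb u (F ∪ K) - (a + b)) / a⌋ := by
    intro u k hk
    have h1 : ((k : ℤ) - 1) ≤ ⌊(D (a : ℝ) b Gr Gb u (F ∪ K) - (a + b)) / a⌋ := by
      rw [Int.le_floor, le_div_iff₀ haR]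
      push_cast
      linarith
    linarith
  -- free picks
  have hfreeX : ∀ x ∈ Xb, ¬ Free Gr Gb F Xb K x := by
    intro x hx h
    rcases h with h | ⟨y, hy, hyX, hxX, h1, h2⟩
    · exact hXS x hx h
    · exact hxX hx
  have hfree : ∀ u ∈ U, Free Gr Gb F Xb K u → ((hit Gr Gb u S).card : ℤ) ≤
      cc Gr Gb a b F Xb K u := by
    intro u hu hf
    have huX : u ∉ Xb := fun h => hfreeX u h hf
    unfold cc
    rw [if_neg huX]
    apply hge'
    have h1 := D_mono (Gr := Gr) (Gb := Gb) haR.le habR u hSF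
    rcases hf with h | ⟨y, hy, hyX, _, h2, h3⟩
    · have h4 := D_ge_one (Gr := Gr) (Gb := Gb) haR.le habR h (c := (b : ℝ)) (not_gn_self u)
        (by rw [Mat_self])
      linarith
    · have h4 := D_ge_one (Gr := Gr) (Gb := Gb) haR.le habR hy (c := (b : ℝ))
        (fun h => h2 h.1) (mat_none h3 h2)
      linarith
  -- the other outside picks are outside of the family and of the clique
  have hnf : ∀ u ∈ U, u ∉ Xb → ¬ Free Gr Gb F Xb K u → u ∉ F ∪ K := by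
    intro u _ huX hf h
    apply hf
    left
    rw [mem_union] at h
    rw [mem_union, mem_sdiff]
    rcases h with h | h
    · exact Or.inl ⟨h, huX⟩
    · exact Or.inr h
  have hcol : ∀ u ∈ U, ¬ Free Gr Gb F Xb K u → ∀ y ∈ hit Gr Gb u S, Gr.Adj u y ∨ Gb.Adj u y := by
    intro u hu hf y hy
    by_cases huX : u ∈ Xb
    · rw [hXhit u huX, mem_singleton] at hy
      rw [hy]
      exact Or.inl (hH.tv.mate u (hH.tv.sub huX)).2.2.2.1
    · by_contra hcon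
      rw [not_or] at hcon
      apply hf
      right
      have hyS := (mem_hit.1 hy).1
      exact ⟨y, hyS, fun h => hXS y h hyS, huX, hcon.1, hcon.2⟩
  have hnb : ∀ u ∈ U, u ∉ Xb → ¬ Free Gr Gb F Xb K u → ∃ y ∈ S, ¬ Gb.Adj u y :=
    fun u hu huX hf => hK u hu huX (hnf u hu huX hf)
  -- the outside part of a set of picks
  have hout : ∀ T ⊆ U, (∀ u ∈ T, ¬ Free Gr Gb F Xb K u ∧ u ∉ Xb) →
      ∃ Z ⊆ F, Clq Gr Gb Z ∧ Z.card = T.card ∧ (∀ z ∈ Z, z ∉ RR Gb F) ∧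
      (∀ z ∈ Z, ∃ u ∈ T, ¬ Gn Gr Gb u z) ∧
      ∀ z ∈ Z, ∀ y ∈ F, y ≠ z → ¬ Gn Gr Gb z y → ∃ u ∈ T, ¬ Gn Gr Gb u y := by
    intro T hTU hT
    apply kill_outside hB hH.tv
    · exact fun u hu v hv huv => hUc u (hTU hu) v (hTU hv) huv
    · rw [Finset.disjoint_left]
      intro u hu huF
      exact hnf u (hTU hu) (hT u hu).2 (hT u hu).1 (mem_union_left _ huF)
    · intro u hu x hx
      exact hUc u (hTU hu) x (hXU hx) (fun h => (hT u hu).2 (h ▸ hx))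
  have hout2 : ∀ T ⊆ U, (∀ u ∈ T, ¬ Free Gr Gb F Xb K u ∧ u ∉ Xb) →
      ∀ y ∈ F, (∃ u ∈ T, ¬ Gn Gr Gb u y) → y ∈ T.biUnion (fun u => hit Gr Gb u S) ∧
        y ∈ F \ Xb := by
    intro T hTU hT y hy h
    obtain ⟨u, hu, h1⟩ := h
    have h2 : y ∉ Xb := fun hX =>
      h1 (hUc u (hTU hu) y (hXU hX) (fun h => (hT u hu).2 (h ▸ hX)))
    exact ⟨mem_biUnion.2 ⟨u, hu, mem_hit.2 ⟨mem_union_left _ (mem_sdiff.2 ⟨hy, h2⟩), h1⟩⟩,
      mem_sdiff.2 ⟨hy, h2⟩⟩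
  constructor
  · intro u hu
    by_cases hf : Free Gr Gb F Xb K u
    · have := hfree u hu hf
      linarith
    by_cases huX : u ∈ Xb
    · rw [hXhit u huX]
      unfold cc
      rw [if_pos huX]
      simp
    · unfold cc
      rw [if_neg huX]
      apply hge
      obtain ⟨y, hy, hyb⟩ := hnb u hu huX hf
      have h1 := D_mono (Gr := Gr) (Gb := Gb) haR.le habR u hSF
      have h4 := D_ge_one (Gr := Gr) (Gb := Gb) haR.le habR hy (c := (b : ℝ) - a)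
        (fun h => hyb h.2) (by
          have := mat_ge_b (b := (b : ℝ)) (Gr := Gr) haR.le hyb
          linarith)
      linarith
  · exact hfree
  · exact hcol
  · intro u hu hf
    by_cases huX : u ∈ Xb
    · refine ⟨mt u, ?_, (hH.tv.mate u (hH.tv.sub huX)).2.2.2.1⟩
      rw [hXhit u huX]
      exact mem_singleton_self _
    · obtain ⟨y, hy, hyb⟩ := hnb u hu huX hf
      have h1 : y ∈ hit Gr Gb u S := mem_hit.2 ⟨hy, fun h => hyb h.2⟩
      exact ⟨y, h1, (hcol u hu hf y h1).resolve_right hyb⟩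
  · intro u hu _ huX
    unfold cc
    rw [if_neg huX]
    have h1 : (0 : ℤ) ≤ ⌊(D (a : ℝ) b Gr Gb u (F ∪ K) - (a + b)) / a⌋ := by
      rw [Int.le_floor]
      push_cast
      apply div_nonneg _ haR.le
      linarith [hD u hu]
    linarith
  · -- many hit vertices of the family
    intro T hTU hT
    set To := T.filter (fun u => u ∉ Xb) with hTo
    set Tx := T.filter (fun u => u ∈ Xb) with hTx
    have hToT : To ⊆ T := filter_subset _ _
    have hTxT : Tx ⊆ T := filter_subset _ _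
    obtain ⟨Z, hZF, hZc, hZn, hZR, hZ1, hZ2⟩ := hout To (hToT.trans hTU) (by
      intro u hu
      exact ⟨hT u (hToT hu), (mem_filter.1 hu).2⟩)
    have h1 : Z ∪ Tx.image mt ⊆ T.biUnion (fun u => hit Gr Gb u S) ∩ (F \ Xb) := by
      intro y hy
      rw [mem_union] at hy
      rcases hy with hy | hy
      · obtain ⟨h2, h3⟩ := hout2 To (hToT.trans hTU) (by
          intro u hu
          exact ⟨hT u (hToT hu), (mem_filter.1 hu).2⟩) y (hZF hy) (hZ1 y hy)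
        exact mem_inter.2 ⟨biUnion_subset_biUnion_of_subset_left _ hToT h2, h3⟩
      · obtain ⟨x, hx, rfl⟩ := mem_image.1 hy
        have hxX : x ∈ Xb := (mem_filter.1 hx).2
        obtain ⟨k1, _⟩ := hH.tv.mate x (hH.tv.sub hxX)
        refine mem_inter.2 ⟨mem_biUnion.2 ⟨x, hTxT hx, ?_⟩,
          mem_sdiff.2 ⟨RR_sub F k1, hH.tv.mt_out hxX⟩⟩
        rw [hXhit x hxX]
        exact mem_singleton_self _
    have h2 : (Z ∪ Tx.image mt).card = To.card + Tx.card := by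
      rw [card_union_of_disjoint, hZn, hH.tv.card_image]
      · intro x hx
        exact hH.tv.sub (mem_filter.1 hx).2
      · rw [Finset.disjoint_left]
        intro y hy hy'
        obtain ⟨x, hx, rfl⟩ := mem_image.1 hy'
        exact hZR _ hy (hH.tv.mate x (hH.tv.sub (mem_filter.1 hx).2)).1
    have h3 : Tx.card + To.card = T.card := card_filter_add_card_filter_not (fun u => u ∈ Xb)
    have h4 := card_le_card h1
    omega
  · -- the dropped blocks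
    intro T hTU hT
    obtain ⟨Z, hZF, hZc, hZn, hZR, hZ1, hZ2⟩ := hout T hTU hT
    refine ⟨Z, ?_, hZn, ?_⟩
    · intro z hz
      obtain ⟨h2, h3⟩ := hout2 T hTU hT z (hZF hz) (hZ1 z hz)
      exact mem_inter.2 ⟨h2, h3⟩
    · intro z hz y hy
      obtain ⟨_, hyF, hyz, hn⟩ := hy
      exact ⟨(hout2 T hTU hT y hyF (hZ2 z hz y hyF hyz hn)).1,
        fun h => hn (hZc z hz y h (Ne.symm hyz))⟩

/-- the sum of the allowances -/
theorem sum_cc (ha : 0 < a) (hXU : Xb ⊆ U) {j : ℕ}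
    (hsum : ∑ u ∈ U \ Xb, (D (a : ℝ) b Gr Gb u (F ∪ K) - (a + b)) < a * ((j : ℝ) + 1)) :
    ∑ u ∈ U, cc Gr Gb a b F Xb K u ≤ (U.card : ℤ) - Xb.card + j := by
  have haR : (0 : ℝ) < a := by exact_mod_cast ha
  have h1 : ∑ u ∈ U, cc Gr Gb a b F Xb K u = ∑ u ∈ U \ Xb, cc Gr Gb a b F Xb K u := by
    rw [← sum_sdiff hXU]
    have : ∑ u ∈ Xb, cc Gr Gb a b F Xb K u = 0 := by
      apply sum_eq_zero
      intro u hu
      unfold cc
      rw [if_pos hu]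
    rw [this, add_zero]
  have h2 : ∑ u ∈ U \ Xb, cc Gr Gb a b F Xb K u = ((U \ Xb).card : ℤ) +
      ∑ u ∈ U \ Xb, ⌊(D (a : ℝ) b Gr Gb u (F ∪ K) - (a + b)) / a⌋ := by
    rw [← nsmul_one (U \ Xb).card, ← sum_const, ← sum_add_distrib]
    apply sum_congr rfl
    intro u hu
    unfold cc
    rw [if_neg (mem_sdiff.1 hu).2]
  have h3 : ((∑ u ∈ U \ Xb, ⌊(D (a : ℝ) b Gr Gb u (F ∪ K) - (a + b)) / a⌋ : ℤ) : ℝ) <
      (j : ℝ) + 1 := by
    push_cast
    calc ∑ u ∈ U \ Xb, ((⌊(D (a : ℝ) b Gr Gb u (F ∪ K) - (a + b)) / a⌋ : ℤ) : ℝ)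
        ≤ ∑ u ∈ U \ Xb, (D (a : ℝ) b Gr Gb u (F ∪ K) - (a + b)) / a :=
          sum_le_sum (fun u _ => Int.floor_le _)
      _ = (∑ u ∈ U \ Xb, (D (a : ℝ) b Gr Gb u (F ∪ K) - (a + b))) / a := by
          rw [sum_div]
      _ < (j : ℝ) + 1 := by
          rw [div_lt_iff₀ haR]
          linarith
  have h4 : ∑ u ∈ U \ Xb, ⌊(D (a : ℝ) b Gr Gb u (F ∪ K) - (a + b)) / a⌋ < (j : ℤ) + 1 := by
    exact_mod_cast h3
  have h5 : (U \ Xb).card + Xb.card = U.card := card_sdiff_add_card_eq_card hXU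
  rw [h1, h2]
  have h6 : (((U \ Xb).card : ℕ) : ℤ) + Xb.card = U.card := by exact_mod_cast h5
  linarith

end LM

end Pool.Agent.Lib.MP_a05470_co
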