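import Pool.Agent.Lib.MP_a05470_co.TF.Saving

/-!
# The distribution of the outside vertices over the picks

`U` is a set of picks, `H u` the set of the vertices hit by `u`.  The members `M1 ∪ M2 ∪ N` (as many
as picks) are placed on the picks; a critical block of the hit graph has to give back one hit
vertex: it is either saved as the place of a partner `w i` (or of an element of `W0`), or the whole
block is dropped and its members (all in `N`) sit on hit vertices of `FF`.
-/

set_option autoImplicit false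
set_option linter.unusedSectionVars false

namespace Pool.Agent.Lib.MP_a05470_co

open Finset Classical

namespace TR

variable {W V : Type}

theorem exists_inj {α β : Type} [Nonempty β] {A : Finset α} {B : Finset β}
    (h : A.card ≤ B.card) : ∃ f : α → β, (∀ a ∈ A, f a ∈ B) ∧ Set.InjOn f A := by
  obtain ⟨B', hB', hc⟩ := exists_subset_card_eq h
  obtain ⟨e⟩ : Nonempty ({x // x ∈ A} ≃ {x // x ∈ B'}) :=
    Fintype.card_eq.1 (by rw [Fintype.card_coe, Fintype.card_coe, hc])
  refine ⟨fun a => if h : a ∈ A then (e ⟨a, h⟩).1 else Classical.arbitrary β, ?_, ?_⟩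
  · intro a ha
    simp only [dif_pos ha]
    exact hB' (e ⟨a, ha⟩).2
  · intro a ha a' ha' h
    rw [mem_coe] at ha ha'
    simp only [dif_pos ha, dif_pos ha'] at h
    have := e.injective (Subtype.ext h)
    exact congrArg Subtype.val this

/-- an occupation with prescribed values -/
theorem exists_occ [Nonempty V] {U : Finset W} {Mem : Finset V} (hc : Mem.card = U.card)
    {D : Finset W} (hD : D ⊆ U) {g : W → V} (hg : ∀ u ∈ D, g u ∈ Mem) (hgi : Set.InjOn g D) :
    ∃ occ : W → V, Set.InjOn occ U ∧ (∀ u ∈ U, occ u ∈ Mem) ∧ (∀ u ∈ D, occ u = g u) ∧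
      U.image occ = Mem := by
  have h1 : D.image g ⊆ Mem := by
    intro x hx
    obtain ⟨u, hu, rfl⟩ := mem_image.1 hx
    exact hg u hu
  have h2 : (U \ D).card ≤ (Mem \ D.image g).card := by
    have e1 := card_sdiff_add_card_eq_card hD
    have e2 := card_sdiff_add_card_eq_card h1
    rw [card_image_of_injOn hgi] at e2
    omega
  obtain ⟨f, hf1, hf2⟩ := exists_inj h2
  have key : ∀ u ∈ U, u ∉ D → f u ∈ Mem ∧ ∀ v ∈ D, f u ≠ g v := by
    intro u hu huD
    have := mem_sdiff.1 (hf1 u (mem_sdiff.2 ⟨hu, huD⟩))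
    exact ⟨this.1, fun v hv h => this.2 (mem_image.2 ⟨v, hv, h.symm⟩)⟩
  have hinj : Set.InjOn (fun u => if u ∈ D then g u else f u) U := by
    intro u hu v hv huv
    rw [mem_coe] at hu hv
    simp only at huv
    by_cases h3 : u ∈ D <;> by_cases h4 : v ∈ D
    · rw [if_pos h3, if_pos h4] at huv
      exact hgi (mem_coe.2 h3) (mem_coe.2 h4) huv
    · rw [if_pos h3, if_neg h4] at huv
      exact absurd huv.symm ((key v hv h4).2 u h3)
    · rw [if_neg h3, if_pos h4] at huv
      exact absurd huv ((key u hu h3).2 v h4)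
    · rw [if_neg h3, if_neg h4] at huv
      exact hf2 (mem_coe.2 (mem_sdiff.2 ⟨hu, h3⟩)) (mem_coe.2 (mem_sdiff.2 ⟨hv, h4⟩)) huv
  have hmem : ∀ u ∈ U, (if u ∈ D then g u else f u) ∈ Mem := by
    intro u hu
    by_cases h3 : u ∈ D
    · rw [if_pos h3]
      exact hg u h3
    · rw [if_neg h3]
      exact (key u hu h3).1
  refine ⟨fun u => if u ∈ D then g u else f u, hinj, hmem, fun u hu => if_pos hu, ?_⟩
  apply eq_of_subset_of_card_le
  · intro x hx
    obtain ⟨u, hu, rfl⟩ := mem_image.1 hx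
    exact hmem u hu
  · rw [card_image_of_injOn hinj, hc]

section block

variable {H : W → Finset W} {T : Finset W} {rd bl : W → W → Prop}

/-- the edges counted at the hit vertices -/
theorem hcount (H : W → Finset W) (T : Finset W) (A : W → W → Prop) :
    ∑ u ∈ T, ((H u).filter (fun y => A u y)).card =
      ∑ y ∈ T.biUnion H, (T.filter (fun u => y ∈ H u ∧ A u y)).card := by
  have h1 : ∀ u ∈ T, ((H u).filter (fun y => A u y)).card =
      ∑ y ∈ T.biUnion H, if y ∈ H u ∧ A u y then 1 else 0 := by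
    intro u hu
    rw [card_filter, ← sum_subset (subset_biUnion_of_mem H hu)]
    · apply sum_congr rfl
      intro y hy
      simp [hy]
    · intro y _ hy
      simp [hy]
  rw [sum_congr rfl h1, sum_comm]
  apply sum_congr rfl
  intro y _
  rw [card_filter]

/-- a private hit in `FF` -/
theorem block_private {FF : Finset W}
    (htight : ∑ u ∈ T, (H u).card + 1 ≤ (T.biUnion H).card + T.card)
    (hF : T.card ≤ (T.biUnion H ∩ FF).card) :
    ∃ u ∈ T, ∃ y ∈ H u, y ∈ FF ∧ ∀ v ∈ T, y ∈ H v → v = u := by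
  by_contra hcon
  push Not at hcon
  have h1 := hcount H T (fun _ _ => True)
  simp only [and_true, filter_true] at h1
  have h2 : ∑ y ∈ T.biUnion H, (if y ∈ FF then 2 else 1) ≤
      ∑ y ∈ T.biUnion H, (T.filter (fun u => y ∈ H u)).card := by
    apply sum_le_sum
    intro y hy
    obtain ⟨u, hu, hyu⟩ := mem_biUnion.1 hy
    by_cases hyF : y ∈ FF
    · rw [if_pos hyF]
      obtain ⟨v, hv, hyv, hne⟩ := hcon u hu y hyu hyF
      have h3 : ({u, v} : Finset W) ⊆ T.filter (fun u => y ∈ H u) := by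
        intro x hx
        rw [mem_insert, mem_singleton] at hx
        rcases hx with rfl | rfl
        · exact mem_filter.2 ⟨hu, hyu⟩
        · exact mem_filter.2 ⟨hv, hyv⟩
      have := card_le_card h3
      rwa [card_pair (Ne.symm hne)] at this
    · rw [if_neg hyF]
      exact card_pos.2 ⟨u, mem_filter.2 ⟨hu, hyu⟩⟩
  have h3 : ∑ y ∈ T.biUnion H, (if y ∈ FF then 2 else 1) =
      (T.biUnion H).card + (T.biUnion H ∩ FF).card := by
    have h4 : ∀ y ∈ T.biUnion H, (if y ∈ FF then 2 else 1) = 1 + (if y ∈ FF then 1 else 0) := by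
      intro y _
      split_ifs <;> rfl
    rw [sum_congr rfl h4, sum_add_distrib, sum_const, smul_eq_mul, mul_one, ← card_filter,
      filter_mem_eq_inter]
  omega

/-- the saved vertex of a block, for one partner -/
theorem block_save {occ0 : W → V} (hocc : Set.InjOn occ0 T) {Q : V → Prop}
    (hQ : ∃ v ∈ T, Q (occ0 v))
    (htight : ∑ u ∈ T, (H u).card + 1 ≤ (T.biUnion H).card + T.card)
    (hcol : ∀ u ∈ T, ∀ y ∈ H u, rd u y ∨ bl u y) (hred : ∀ u ∈ T, ∃ y ∈ H u, rd u y)
    (hβ : T.card ≤ (T.biUnion H).card) :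
    ∃ occ : W → V, Set.InjOn occ T ∧ (∀ u ∈ T, occ u ∈ T.image occ0) ∧
      ∃ y ∈ T.biUnion H, ∀ u ∈ T, y ∈ H u → (Q (occ u) → rd u y) ∧ (¬ Q (occ u) → bl u y) := by
  -- a swap
  have hswap : ∀ u ∈ T, ∀ v ∈ T, Set.InjOn (fun x => occ0 (Equiv.swap u v x)) T ∧
      ∀ x ∈ T, occ0 (Equiv.swap u v x) ∈ T.image occ0 := by
    intro u hu v hv
    have hsw : ∀ x ∈ T, Equiv.swap u v x ∈ T := by
      intro x hx
      by_cases h1 : x = u
      · rw [h1, Equiv.swap_apply_left]
        exact hv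
      · by_cases h2 : x = v
        · rw [h2, Equiv.swap_apply_right]
          exact hu
        · rw [Equiv.swap_apply_of_ne_of_ne h1 h2]
          exact hx
    refine ⟨?_, fun x hx => mem_image_of_mem _ (hsw x hx)⟩
    intro x hx x' hx' hxx
    exact (Equiv.swap u v).injective (hocc (mem_coe.2 (hsw x hx)) (mem_coe.2 (hsw x' hx')) hxx)
  -- a vertex with exactly one hit
  obtain ⟨u, hu, y, hyu, _, huniq⟩ := block_private (FF := T.biUnion H) htight
    (by rw [inter_self]; exact hβ)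
  have hy : y ∈ T.biUnion H := mem_biUnion.2 ⟨u, hu, hyu⟩
  by_cases hr : rd u y
  · obtain ⟨v, hv, hQv⟩ := hQ
    refine ⟨fun x => occ0 (Equiv.swap u v x), (hswap u hu v hv).1, (hswap u hu v hv).2, y, hy, ?_⟩
    intro x hx hyx
    rw [huniq x hx hyx]
    simp only [Equiv.swap_apply_left]
    exact ⟨fun _ => hr, fun h => absurd hQv h⟩
  · have hb : bl u y := (hcol u hu y hyu).resolve_left hr
    by_cases hex : ∃ v ∈ T, ¬ Q (occ0 v)
    · obtain ⟨v, hv, hQv⟩ := hex
      refine ⟨fun x => occ0 (Equiv.swap u v x), (hswap u hu v hv).1, (hswap u hu v hv).2, y, hy,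
        ?_⟩
      intro x hx hyx
      rw [huniq x hx hyx]
      simp only [Equiv.swap_apply_left]
      exact ⟨fun h => absurd h hQv, fun _ => hb⟩
    · push Not at hex
      -- some `y'` has only red hits
      have hall : ∃ y' ∈ T.biUnion H, ∀ v ∈ T, y' ∈ H v → rd v y' := by
        by_contra hcon
        push Not at hcon
        have h1 := hcount H T (fun u y => rd u y)
        have h2 : ∑ u ∈ T, ((H u).filter (fun y => ¬ rd u y)).card =
            ∑ y ∈ T.biUnion H, (T.filter (fun u => y ∈ H u ∧ ¬ rd u y)).card := by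
          convert hcount H T (fun u y => ¬ rd u y)
        have h3 : ∑ u ∈ T, 1 ≤ ∑ u ∈ T, ((H u).filter (fun y => rd u y)).card := by
          apply sum_le_sum
          intro v hv
          obtain ⟨z, hz, hvz⟩ := hred v hv
          exact card_pos.2 ⟨z, mem_filter.2 ⟨hz, hvz⟩⟩
        have h4 : ∑ y ∈ T.biUnion H, 1 ≤
            ∑ u ∈ T, ((H u).filter (fun y => ¬ rd u y)).card := by
          rw [h2]
          apply sum_le_sum
          intro z hz
          obtain ⟨v, hv, hzv, hvz⟩ := hcon z hz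
          exact card_pos.2 ⟨v, mem_filter.2 ⟨hv, hzv, hvz⟩⟩
        have h5 : ∑ u ∈ T, (H u).card = ∑ u ∈ T, ((H u).filter (fun y => rd u y)).card +
            ∑ u ∈ T, ((H u).filter (fun y => ¬ rd u y)).card := by
          rw [← sum_add_distrib]
          exact sum_congr rfl (fun v _ => (card_filter_add_card_filter_not _).symm)
        rw [sum_const, smul_eq_mul, mul_one] at h3 h4
        omega
      obtain ⟨y', hy', hall⟩ := hall
      refine ⟨occ0, hocc, fun v hv => mem_image_of_mem _ hv, y', hy', ?_⟩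
      intro v hv hyv
      exact ⟨fun _ => hall v hv hyv, fun h => absurd (hex v hv) h⟩

end block

/-- a partition into blocks -/
structure Blocks (H : W → Finset W) (U : Finset W) (P : Finset (Finset W)) : Prop where
  ne : ∀ T ∈ P, T.Nonempty
  dis : ∀ T ∈ P, ∀ T' ∈ P, T ≠ T' → Disjoint T T'
  disH : ∀ T ∈ P, ∀ T' ∈ P, T ≠ T' → Disjoint (T.biUnion H) (T'.biUnion H)
  cov : P.biUnion id = U
  forest : ∀ T ∈ P, (T.biUnion H).card + T.card ≤ ∑ u ∈ T, (H u).card + 1

namespace Blocks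

variable {H : W → Finset W} {U : Finset W} {P : Finset (Finset W)} (hP : Blocks H U P)

include hP

theorem sub {T : Finset W} (hT : T ∈ P) : T ⊆ U := by
  rw [← hP.cov]
  exact subset_biUnion_of_mem id hT

theorem exists_blk {u : W} (hu : u ∈ U) : ∃ T ∈ P, u ∈ T := by
  rw [← hP.cov, mem_biUnion] at hu
  exact hu

theorem uniq {T T' : Finset W} (hT : T ∈ P) (hT' : T' ∈ P) {u : W} (h : u ∈ T) (h' : u ∈ T') :
    T = T' := by
  by_contra hne
  exact Finset.disjoint_left.1 (hP.dis T hT T' hT' hne) h h'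

theorem uniqH {T T' : Finset W} (hT : T ∈ P) (hT' : T' ∈ P) {y : W} (h : y ∈ T.biUnion H)
    (h' : y ∈ T'.biUnion H) : T = T' := by
  by_contra hne
  exact Finset.disjoint_left.1 (hP.disH T hT T' hT' hne) h h'

/-- a hit vertex of a block is hit by the picks of this block only -/
theorem hit_mem {T : Finset W} (hT : T ∈ P) {y u : W} (hy : y ∈ T.biUnion H) (hu : u ∈ U)
    (hyu : y ∈ H u) : u ∈ T := by
  obtain ⟨T', hT', huT'⟩ := hP.exists_blk hu
  have := hP.uniqH hT hT' hy (mem_biUnion.2 ⟨u, huT', hyu⟩)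
  rw [this]
  exact huT'

theorem biUnion_eq : U.biUnion H = P.biUnion (fun T => T.biUnion H) := by
  rw [← hP.cov, biUnion_biUnion]
  rfl

theorem card_sdiff_le {S : Finset W} {c : W → ℤ}
    (h : ∀ T ∈ P, (((T.biUnion H) \ S).card : ℤ) ≤ ∑ u ∈ T, c u) :
    (((U.biUnion H) \ S).card : ℤ) ≤ ∑ u ∈ U, c u := by
  have h1 : (U.biUnion H) \ S = P.biUnion (fun T => (T.biUnion H) \ S) := by
    ext y
    rw [hP.biUnion_eq]
    simp only [mem_sdiff, mem_biUnion]
    constructor
    · rintro ⟨⟨T, hT, hy⟩, hS⟩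
      exact ⟨T, hT, hy, hS⟩
    · rintro ⟨T, hT, hy, hS⟩
      exact ⟨⟨T, hT, hy⟩, hS⟩
  have h2 : ∑ u ∈ U, c u = ∑ T ∈ P, ∑ u ∈ T, c u := by
    rw [← hP.cov, sum_biUnion]
    · rfl
    · intro T hT T' hT' hne
      exact hP.dis T hT T' hT' hne
  rw [h1, h2, card_biUnion]
  · push_cast
    exact sum_le_sum h
  · intro T hT T' hT' hne
    exact Disjoint.mono sdiff_subset sdiff_subset (hP.disH T hT T' hT' hne)

end Blocks

section main

variable {H : W → Finset W} {U : Finset W} {rd bl : W → W → Prop} {c : W → ℤ} {Free : W → Prop}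
  {FF Xb : Finset W} {Nm : W → W → Prop}
  {M1 M2 N W0 : Finset V} {w : V → V} {Rd : V → V → Prop}

/-- the hypotheses on the picks -/
structure Picks (H : W → Finset W) (U : Finset W) (rd bl : W → W → Prop) (c : W → ℤ)
    (Free : W → Prop) (FF Xb : Finset W) (Nm : W → W → Prop) : Prop where
  hc : ∀ u ∈ U, ((H u).card : ℤ) ≤ c u + 1
  hfree : ∀ u ∈ U, Free u → ((H u).card : ℤ) ≤ c u
  hcol : ∀ u ∈ U, ¬ Free u → ∀ y ∈ H u, rd u y ∨ bl u y
  hred : ∀ u ∈ U, ¬ Free u → ∃ y ∈ H u, rd u y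
  hpos : ∀ u ∈ U, ¬ Free u → u ∉ Xb → 1 ≤ c u
  priv : ∀ T ⊆ U, (∀ u ∈ T, ¬ Free u) → T.card ≤ (T.biUnion H ∩ FF).card
  kill : ∀ T ⊆ U, (∀ u ∈ T, ¬ Free u ∧ u ∉ Xb) → ∃ Z ⊆ T.biUnion H ∩ FF, Z.card = T.card ∧
    ∀ z ∈ Z, ∀ y, Nm z y → y ∈ T.biUnion H ∧ y ∉ Z

/-- the hypotheses on the members -/
structure Members (U Xb : Finset W) (M1 M2 N W0 : Finset V) (w : V → V) (Rd : V → V → Prop) :
    Prop where
  d12 : Disjoint M1 M2
  d1N : Disjoint M1 N
  d2N : Disjoint M2 N
  card : M1.card + M2.card + N.card = U.card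
  inj : Set.InjOn w (M1 ∪ M2 : Finset V)
  adj : ∀ u ∈ M1 ∪ M2, Rd u (w u)
  w0 : ∀ u ∈ M1 ∪ M2, w u ∉ W0
  blue : ∀ u ∈ M2 ∪ N, ∀ x ∈ W0, ¬ Rd u x
  xb : (U.filter (fun u => u ∈ Xb)).card ≤ M1.card + M2.card

/-- the output -/
structure Out (H : W → Finset W) (U : Finset W) (rd bl : W → W → Prop) (c : W → ℤ)
    (FF Xb : Finset W) (Nm : W → W → Prop) (M1 M2 N W0 : Finset V) (w : V → V)
    (Rd : V → V → Prop) (U' : Finset W) (occ : W → V) (Dr : Finset V) (ψ : V → W)
    (Sv Yr : Finset W) (θ : W → V) : Prop where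
  subU : U' ⊆ U
  xb : ∀ u ∈ U, u ∈ Xb → u ∈ U'
  inj : Set.InjOn occ U'
  img : U'.image occ = (M1 ∪ M2 ∪ N) \ Dr
  drN : Dr ⊆ N
  psi_inj : Set.InjOn ψ Dr
  psi_F : ∀ u ∈ Dr, ψ u ∈ FF ∧ ψ u ∈ U.biUnion H
  psi_hit : ∀ u ∈ Dr, ∀ v ∈ U', ψ u ∉ H v
  psi_mate : ∀ u ∈ Dr, ∀ y, Nm (ψ u) y → y ∈ Yr
  psi_not : ∀ u ∈ Dr, ψ u ∉ Sv ∧ ψ u ∉ Yr
  svY : Sv ⊆ U.biUnion H
  yrY : Yr ⊆ U.biUnion H
  disj : Disjoint Sv Yr
  yr_hit : ∀ y ∈ Yr, ∀ v ∈ U', y ∉ H v
  theta_inj : Set.InjOn θ Sv
  theta_mem : ∀ y ∈ Sv, (θ y ∈ M1.image w ∨ θ y ∈ W0) ∨ (y ∈ FF ∧ θ y ∈ M2.image w)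
  col : ∀ y ∈ Sv, ∀ v ∈ U', y ∈ H v → (Rd (occ v) (θ y) → rd v y) ∧ (¬ Rd (occ v) (θ y) → bl v y)
  drop : Dr.Nonempty → ∀ u ∈ M1 ∪ M2, ∃ y ∈ Sv, y ∈ FF ∧ θ y = w u
  count : (((U.biUnion H) \ (Sv ∪ Yr)).card : ℤ) ≤ ∑ u ∈ U, c u ∨
    ∀ x, x ∈ M1.image w ∨ x ∈ W0 → x ∈ Sv.image θ
  numW0 : (Sv.filter (fun y => θ y ∈ W0)).card + Dr.card ≤ M2.card + N.card

/-- a critical block -/
def Tight (H : W → Finset W) (Free : W → Prop) (T : Finset W) : Prop :=
  (∀ u ∈ T, ¬ Free u) ∧ ∑ u ∈ T, (H u).card + 1 ≤ (T.biUnion H).card + T.card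

theorem Picks.not_tight (hU : Picks H U rd bl c Free FF Xb Nm) {T : Finset W} (hT : T ⊆ U)
    (hf : (T.biUnion H).card + T.card ≤ ∑ u ∈ T, (H u).card + 1) (ht : ¬ Tight H Free T) :
    ((T.biUnion H).card : ℤ) ≤ ∑ u ∈ T, c u := by
  have h6 : ((T.biUnion H).card : ℤ) + T.card ≤ ∑ u ∈ T, ((H u).card : ℤ) + 1 := by
    exact_mod_cast hf
  have h7 : ∑ u ∈ T, ((H u).card : ℤ) ≤ ∑ u ∈ T, c u + T.card := by
    have h8 : ∑ u ∈ T, ((H u).card : ℤ) ≤ ∑ u ∈ T, (c u + 1) :=
      sum_le_sum (fun u hu => hU.hc u (hT hu))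
    rw [sum_add_distrib, sum_const, nsmul_eq_mul, mul_one] at h8
    exact h8
  unfold Tight at ht
  rw [not_and_or] at ht
  rcases ht with ht | ht
  · push Not at ht
    obtain ⟨u, hu, hfu⟩ := ht
    have h8 : ∑ u ∈ T, ((H u).card : ℤ) + 1 ≤ ∑ u ∈ T, c u + T.card := by
      have h9 : ∑ v ∈ T, (((H v).card : ℤ) + (if v = u then 1 else 0)) ≤
          ∑ v ∈ T, (c v + 1) := by
        apply sum_le_sum
        intro v hv
        by_cases hvu : v = u
        · rw [if_pos hvu]
          have := hU.hfree v (hT hv) (hvu ▸ hfu)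
          linarith
        · rw [if_neg hvu, add_zero]
          exact hU.hc v (hT hv)
      rw [sum_add_distrib, sum_add_distrib, sum_const, nsmul_eq_mul, mul_one,
        sum_ite_eq', if_pos hu] at h9
      exact h9
    linarith
  · push Not at ht
    have h8 : ((T.biUnion H).card : ℤ) + T.card < ∑ u ∈ T, ((H u).card : ℤ) + 1 := by
      exact_mod_cast ht
    linarith

theorem Picks.tight_le (hU : Picks H U rd bl c Free FF Xb Nm) {T : Finset W} (hT : T ⊆ U)
    (hf : (T.biUnion H).card + T.card ≤ ∑ u ∈ T, (H u).card + 1) :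
    ((T.biUnion H).card : ℤ) ≤ ∑ u ∈ T, c u + 1 := by
  have h6 : ((T.biUnion H).card : ℤ) + T.card ≤ ∑ u ∈ T, ((H u).card : ℤ) + 1 := by
    exact_mod_cast hf
  have h7 : ∑ u ∈ T, ((H u).card : ℤ) ≤ ∑ u ∈ T, c u + T.card := by
    have h8 : ∑ u ∈ T, ((H u).card : ℤ) ≤ ∑ u ∈ T, (c u + 1) :=
      sum_le_sum (fun u hu => hU.hc u (hT hu))
    rw [sum_add_distrib, sum_const, nsmul_eq_mul, mul_one] at h8
    exact h8
  linarith

end main

theorem exists_blocks (H : W → Finset W) (U : Finset W) : ∃ P, Blocks H U P := by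
  obtain ⟨P, h1, h2, h3, h4, h5⟩ := Saving.exists_blocks H U
  exact ⟨P, h1, h2, h3, h4, h5⟩

/-- gluing local occupations and saved vertices -/
theorem glue [Nonempty V] {H : W → Finset W} {U : Finset W} {P : Finset (Finset W)}
    (hP : Blocks H U P) {occ0 : W → V} (hocc : Set.InjOn occ0 U) {A : Finset (Finset W)}
    (hA : A ⊆ P) {yy : Finset W → W} (hyy : ∀ T ∈ A, yy T ∈ T.biUnion H) {val : Finset W → V}
    (hval : Set.InjOn val A) {occT : Finset W → W → V}
    (ho : ∀ T ∈ P, Set.InjOn (occT T) T ∧ ∀ u ∈ T, occT T u ∈ T.image occ0) :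
    ∃ (occ : W → V) (θ : W → V), Set.InjOn occ U ∧ U.image occ = U.image occ0 ∧
      (∀ T ∈ P, ∀ u ∈ T, occ u = occT T u) ∧ (∀ T ∈ A, θ (yy T) = val T) ∧
      Set.InjOn θ (A.image yy : Finset W) ∧ Set.InjOn yy A := by
  have hyinj : Set.InjOn yy A := by
    intro T hT T' hT' h
    rw [mem_coe] at hT hT'
    exact hP.uniqH (hA hT) (hA hT') (hyy T hT) (by rw [h]; exact hyy T' hT')
  have hblk : ∀ u ∈ U, ∃ T ∈ P, u ∈ T := fun u hu => hP.exists_blk hu
  choose! blk hb1 hb2 using hblk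
  have hbuniq : ∀ T ∈ P, ∀ u ∈ T, blk u = T := by
    intro T hT u hu
    have huU := hP.sub hT hu
    exact hP.uniq (hb1 u huU) hT (hb2 u huU) hu
  have hindep : ∀ T ∈ P, ∀ T' ∈ P, T ≠ T' → ∀ i, i ∈ T.image occ0 → i ∈ T'.image occ0 → False := by
    intro T hT T' hT' hne i hi hi'
    rw [mem_image] at hi hi'
    obtain ⟨u, hu, rfl⟩ := hi
    obtain ⟨u', hu', he⟩ := hi'
    have := hocc (mem_coe.2 (hP.sub hT' hu')) (mem_coe.2 (hP.sub hT hu)) he
    subst this
    exact hne (hP.uniq hT hT' hu hu')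
  have hinj : Set.InjOn (fun u => occT (blk u) u) U := by
    intro u hu v hv huv
    rw [mem_coe] at hu hv
    simp only at huv
    have e1 := (ho _ (hb1 u hu)).2 u (hb2 u hu)
    have e2 := (ho _ (hb1 v hv)).2 v (hb2 v hv)
    by_cases hne : blk u = blk v
    · rw [hne] at huv
      exact (ho _ (hb1 v hv)).1 (mem_coe.2 (hne ▸ hb2 u hu)) (mem_coe.2 (hb2 v hv)) huv
    · exact (hindep _ (hb1 u hu) _ (hb1 v hv) hne _ e1 (huv ▸ e2)).elim
  refine ⟨fun u => occT (blk u) u, fun y => if h : ∃ T ∈ A, yy T = y then val h.choose else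
    Classical.arbitrary V, hinj, ?_, ?_, ?_, ?_, hyinj⟩
  · apply eq_of_subset_of_card_le
    · intro i hi
      obtain ⟨u, hu, rfl⟩ := mem_image.1 hi
      exact image_subset_image (hP.sub (hb1 u hu)) ((ho _ (hb1 u hu)).2 u (hb2 u hu))
    · rw [card_image_of_injOn hinj]
      exact card_image_le
  · intro T hT u hu
    simp only [hbuniq T hT u hu]
  · intro T hT
    have h : ∃ T' ∈ A, yy T' = yy T := ⟨T, hT, rfl⟩
    simp only [dif_pos h]
    rw [hyinj (mem_coe.2 h.choose_spec.1) (mem_coe.2 hT) h.choose_spec.2]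
  · have hθ : ∀ T ∈ A, (if h : ∃ T' ∈ A, yy T' = yy T then val h.choose else
        Classical.arbitrary V) = val T := by
      intro T hT
      have h : ∃ T' ∈ A, yy T' = yy T := ⟨T, hT, rfl⟩
      simp only [dif_pos h]
      rw [hyinj (mem_coe.2 h.choose_spec.1) (mem_coe.2 hT) h.choose_spec.2]
    intro y hy y' hy' hyy'
    rw [mem_coe, mem_image] at hy hy'
    obtain ⟨T, hT, rfl⟩ := hy
    obtain ⟨T', hT', rfl⟩ := hy'
    simp only at hyy'
    rw [hθ T hT, hθ T' hT'] at hyy'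
    rw [hval (mem_coe.2 hT) (mem_coe.2 hT') hyy']

/-- no hit vertex of the block is all-blue -/
def NB (H : W → Finset W) (bl : W → W → Prop) (T : Finset W) : Prop :=
  ∀ y ∈ T.biUnion H, ∃ u ∈ T, y ∈ H u ∧ ¬ bl u y

section cases

variable {H : W → Finset W} {U : Finset W} {rd bl : W → W → Prop} {c : W → ℤ} {Free : W → Prop}
  {FF Xb : Finset W} {Nm : W → W → Prop}
  {M1 M2 N W0 : Finset V} {w : V → V} {Rd : V → V → Prop} {P : Finset (Finset W)}

/-- the data of a critical block -/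
theorem block_data (hU : Picks H U rd bl c Free FF Xb Nm) (hP : Blocks H U P) {T : Finset W}
    (hT : T ∈ P) (ht : Tight H Free T) (hnb : NB H bl T) :
    ∃ u ∈ T, ∃ y ∈ H u, y ∈ FF ∧ (∀ v ∈ T, y ∈ H v → v = u) ∧ rd u y := by
  obtain ⟨u, hu, y, hyu, hyF, huq⟩ := block_private (FF := FF) ht.2
    (hU.priv T (hP.sub hT) ht.1)
  refine ⟨u, hu, y, hyu, hyF, huq, ?_⟩
  obtain ⟨v, hv, hyv, hnb'⟩ := hnb y (mem_biUnion.2 ⟨u, hu, hyu⟩)
  rw [huq v hv hyv] at hnb'
  exact (hU.hcol u (hP.sub hT hu) (ht.1 u hu) y hyu).resolve_right hnb'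

/-- the number of unsaved hit vertices of a block -/
theorem block_count (hU : Picks H U rd bl c Free FF Xb Nm) (hP : Blocks H U P) {T : Finset W}
    (hT : T ∈ P) {S : Finset W} (hS : Tight H Free T → ∃ y ∈ T.biUnion H, y ∈ S) :
    (((T.biUnion H) \ S).card : ℤ) ≤ ∑ u ∈ T, c u := by
  by_cases ht : Tight H Free T
  · obtain ⟨y, hy, hyS⟩ := hS ht
    have h1 : (T.biUnion H) \ S ⊆ (T.biUnion H).erase y := by
      intro x hx
      rw [mem_sdiff] at hx
      exact mem_erase.2 ⟨fun h => hx.2 (h ▸ hyS), hx.1⟩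
    have h2 := card_le_card h1
    rw [card_erase_of_mem hy] at h2
    have h3 := hU.tight_le (hP.sub hT) (hP.forest T hT)
    have h4 := card_pos.2 ⟨y, hy⟩
    have h5 : (((T.biUnion H) \ S).card : ℤ) ≤ (T.biUnion H).card - 1 := by omega
    linarith
  · have h1 := hU.not_tight (hP.sub hT) (hP.forest T hT) ht
    have h2 : (((T.biUnion H) \ S).card : ℤ) ≤ (T.biUnion H).card := by
      exact_mod_cast card_le_card sdiff_subset
    linarith

theorem caseI [Nonempty V] [Nonempty W] (hU : Picks H U rd bl c Free FF Xb Nm)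
    (hM : Members U Xb M1 M2 N W0 w Rd) (hP : Blocks H U P)
    (hle : (P.filter (fun T => Tight H Free T ∧ NB H bl T)).card ≤ M1.card + M2.card) :
    ∃ (occ : W → V) (Sv : Finset W) (θ : W → V),
      Out H U rd bl c FF Xb Nm M1 M2 N W0 w Rd U occ ∅ (fun _ => Classical.arbitrary W) Sv ∅ θ := by
  set PT := P.filter (fun T => Tight H Free T) with hPT
  set Pp := P.filter (fun T => Tight H Free T ∧ NB H bl T) with hPp
  have hPpPT : Pp ⊆ PT := by
    intro T hT
    rw [hPp, mem_filter] at hT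
    exact mem_filter.2 ⟨hT.1, hT.2.1⟩
  have hPTP : PT ⊆ P := filter_subset _ _
  -- the blocks of `M2`
  obtain ⟨A2, hA2, hA2c⟩ := exists_subset_card_eq (show min M2.card Pp.card ≤ Pp.card from
    min_le_right _ _)
  have h1 : (Pp \ A2).card + A2.card = Pp.card := card_sdiff_add_card_eq_card hA2
  have h2 : (PT \ A2).card + A2.card = PT.card :=
    card_sdiff_add_card_eq_card (hA2.trans hPpPT)
  have h3 := card_le_card (sdiff_subset_sdiff hPpPT (Subset.refl A2))
  -- the blocks of `M1`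
  obtain ⟨A1, hA1a, hA1b, hA1c⟩ := exists_subsuperset_card_eq
    (sdiff_subset_sdiff hPpPT (Subset.refl A2)) (n := min M1.card (PT \ A2).card)
    (by omega) (min_le_right _ _)
  set R0 := (PT \ A2) \ A1 with hR0
  have h4 : R0.card + A1.card = (PT \ A2).card := card_sdiff_add_card_eq_card hA1b
  obtain ⟨A0, hA0, hA0c⟩ := exists_subset_card_eq (show min W0.card R0.card ≤ R0.card from
    min_le_right _ _)
  have hA1P : A1 ⊆ P := (hA1b.trans sdiff_subset).trans hPTP
  have hA2P : A2 ⊆ P := (hA2.trans hPpPT).trans hPTP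
  have hR0P : R0 ⊆ P := (sdiff_subset.trans sdiff_subset).trans hPTP
  have hA0P : A0 ⊆ P := hA0.trans hR0P
  have hd12 : ∀ T ∈ A1, T ∉ A2 := fun T hT => (mem_sdiff.1 (hA1b hT)).2
  have hd01 : ∀ T ∈ A0, T ∉ A1 := fun T hT => (mem_sdiff.1 (hA0 hT)).2
  have hd02 : ∀ T ∈ A0, T ∉ A2 := fun T hT => (mem_sdiff.1 (mem_sdiff.1 (hA0 hT)).1).2
  have htight1 : ∀ T ∈ A1, Tight H Free T := fun T hT =>
    (mem_filter.1 (mem_sdiff.1 (hA1b hT)).1).2
  have htight2 : ∀ T ∈ A2, Tight H Free T ∧ NB H bl T := fun T hT => (mem_filter.1 (hA2 hT)).2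
  have hR0nb : ∀ T ∈ R0, Tight H Free T ∧ ¬ NB H bl T := by
    intro T hT
    rw [hR0, mem_sdiff, mem_sdiff] at hT
    have ht := (mem_filter.1 hT.1.1).2
    refine ⟨ht, fun hnb => hT.2 (hA1a (mem_sdiff.2 ⟨mem_filter.2 ⟨hPTP hT.1.1, ht, hnb⟩,
      hT.1.2⟩))⟩
  obtain ⟨f2, hf2, hf2i⟩ := exists_inj (A := A2) (B := M2) (by omega)
  obtain ⟨f1, hf1, hf1i⟩ := exists_inj (A := A1) (B := M1) (by omega)
  obtain ⟨f0, hf0, hf0i⟩ := exists_inj (A := A0) (B := W0) (by omega)
  -- the private hits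
  have hpriv : ∀ T ∈ A2, ∃ u ∈ T, ∃ y ∈ H u, y ∈ FF ∧ (∀ v ∈ T, y ∈ H v → v = u) ∧ rd u y :=
    fun T hT => block_data hU hP (hA2P hT) (htight2 T hT).1 (htight2 T hT).2
  choose! uT huT yT hyT hyTF huq hrdT using hpriv
  have hne : ∀ T ∈ P, ∃ u, u ∈ T := fun T hT => hP.ne T hT
  choose! pT hpT using hne
  have hblk : ∀ u ∈ U, ∃ T ∈ P, u ∈ T := fun u hu => hP.exists_blk hu
  choose! blk hb1 hb2 using hblk
  have hbuniq : ∀ T ∈ P, ∀ u ∈ T, blk u = T := by
    intro T hT u hu
    have huU := hP.sub hT hu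
    exact hP.uniq (hb1 u huU) hT (hb2 u huU) hu
  set dT : Finset W → W := fun T => if T ∈ A2 then uT T else pT T with hdT
  have hdTm : ∀ T ∈ A1 ∪ A2, dT T ∈ T := by
    intro T hT
    by_cases h : T ∈ A2
    · rw [hdT]
      simp only [if_pos h]
      exact huT T h
    · rw [hdT]
      simp only [if_neg h]
      exact hpT T (hA1P ((mem_union.1 hT).resolve_right h))
  have h12P : A1 ∪ A2 ⊆ P := union_subset hA1P hA2P
  have hdTb : ∀ T ∈ A1 ∪ A2, blk (dT T) = T := fun T hT => hbuniq T (h12P hT) _ (hdTm T hT)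
  set ff : Finset W → V := fun T => if T ∈ A2 then f2 T else f1 T with hff
  have hffm : ∀ T ∈ A1 ∪ A2, ff T ∈ M1 ∪ M2 := by
    intro T hT
    by_cases h : T ∈ A2
    · rw [hff]
      simp only [if_pos h]
      exact mem_union_right _ (hf2 T h)
    · rw [hff]
      simp only [if_neg h]
      exact mem_union_left _ (hf1 T ((mem_union.1 hT).resolve_right h))
  have hffi : Set.InjOn ff (A1 ∪ A2 : Finset (Finset W)) := by
    intro T hT T' hT' h
    rw [mem_coe] at hT hT'
    rw [hff] at h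
    simp only at h
    by_cases h5 : T ∈ A2 <;> by_cases h6 : T' ∈ A2
    · rw [if_pos h5, if_pos h6] at h
      exact hf2i (mem_coe.2 h5) (mem_coe.2 h6) h
    · rw [if_pos h5, if_neg h6] at h
      exact absurd (h ▸ hf2 T h5) (Finset.disjoint_left.1 hM.d12
        (hf1 T' ((mem_union.1 hT').resolve_right h6)))
    · rw [if_neg h5, if_pos h6] at h
      exact absurd (h ▸ hf2 T' h6) (Finset.disjoint_left.1 hM.d12
        (hf1 T ((mem_union.1 hT).resolve_right h5)))
    · rw [if_neg h5, if_neg h6] at h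
      exact hf1i (mem_coe.2 ((mem_union.1 hT).resolve_right h5))
        (mem_coe.2 ((mem_union.1 hT').resolve_right h6)) h
  have hMemc : (M1 ∪ M2 ∪ N).card = U.card := by
    rw [card_union_of_disjoint, card_union_of_disjoint hM.d12, hM.card]
    rw [disjoint_union_left]
    exact ⟨hM.d1N, hM.d2N⟩
  obtain ⟨occ0, ho1, ho2, ho3, ho4⟩ := exists_occ hMemc (D := (A1 ∪ A2).image dT)
    (by
      intro u hu
      obtain ⟨T, hT, rfl⟩ := mem_image.1 hu
      exact hP.sub (h12P hT) (hdTm T hT)) (g := fun u => ff (blk u))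
    (by
      intro u hu
      obtain ⟨T, hT, rfl⟩ := mem_image.1 hu
      simp only [hdTb T hT]
      exact mem_union_left _ (hffm T hT))
    (by
      intro u hu u' hu' h
      rw [mem_coe, mem_image] at hu hu'
      obtain ⟨T, hT, rfl⟩ := hu
      obtain ⟨T', hT', rfl⟩ := hu'
      simp only [hdTb T hT, hdTb T' hT'] at h
      rw [hffi (mem_coe.2 hT) (mem_coe.2 hT') h])
  have hdes : ∀ T ∈ A1 ∪ A2, occ0 (dT T) = ff T := by
    intro T hT
    rw [ho3 _ (mem_image_of_mem _ hT)]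
    simp only [hdTb T hT]
  -- the local occupations
  have hloc : ∀ T ∈ P, ∃ (occ : W → V) (y : W), Set.InjOn occ T ∧
      (∀ u ∈ T, occ u ∈ T.image occ0) ∧ (T ∉ A1 → occ = occ0) ∧
      (T ∈ A1 → y ∈ T.biUnion H ∧ ∀ u ∈ T, y ∈ H u →
        (Rd (occ u) (w (f1 T)) → rd u y) ∧ (¬ Rd (occ u) (w (f1 T)) → bl u y)) := by
    intro T hT
    have hoT : Set.InjOn occ0 T := ho1.mono (by exact_mod_cast hP.sub hT)
    by_cases h : T ∈ A1
    · have hT12 : T ∈ A1 ∪ A2 := mem_union_left _ h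
      have hff1 : ff T = f1 T := by
        rw [hff]
        simp only [if_neg (hd12 T h)]
      obtain ⟨occ, e1, e2, y, e3, e4⟩ := block_save (Q := fun m => Rd m (w (f1 T))) hoT
        ⟨dT T, hdTm T hT12, by
          rw [hdes T hT12, hff1]
          exact hM.adj _ (mem_union_left _ (hf1 T h))⟩ (htight1 T h).2
        (fun u hu => hU.hcol u (hP.sub hT hu) ((htight1 T h).1 u hu))
        (fun u hu => hU.hred u (hP.sub hT hu) ((htight1 T h).1 u hu))
        ((hU.priv T (hP.sub hT) (htight1 T h).1).trans (card_le_card inter_subset_left))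
      exact ⟨occ, y, e1, e2, fun h' => absurd h h', fun _ => ⟨e3, e4⟩⟩
    · exact ⟨occ0, Classical.arbitrary W, hoT, fun u hu => mem_image_of_mem _ hu, fun _ => rfl,
        fun h' => absurd h' h⟩
  choose! occT yS hl1 hl2 hl3 hl4 using hloc
  -- the all-blue vertices
  have hab : ∀ T ∈ A0, ∃ y ∈ T.biUnion H, ∀ u ∈ T, y ∈ H u → bl u y := by
    intro T hT
    have := (hR0nb T (hA0 hT)).2
    unfold NB at this
    push Not at this
    exact this
  choose! yb hyb1 hyb2 using hab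
  set A := A0 ∪ (A1 ∪ A2) with hA
  have hAP : A ⊆ P := union_subset hA0P h12P
  set yy : Finset W → W := fun T => if T ∈ A2 then yT T else if T ∈ A1 then yS T else yb T with hyy
  set val : Finset W → V := fun T => if T ∈ A2 then w (f2 T) else if T ∈ A1 then w (f1 T) else f0 T
    with hval
  have hA' : ∀ T ∈ A, T ∉ A2 → T ∉ A1 → T ∈ A0 := by
    intro T hT h5 h6
    rw [hA, mem_union, mem_union] at hT
    rcases hT with h | h | h
    exacts [h, absurd h h6, absurd h h5]
  have hyym : ∀ T ∈ A, yy T ∈ T.biUnion H := by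
    intro T hT
    rw [hyy]
    simp only
    by_cases h5 : T ∈ A2
    · rw [if_pos h5]
      exact mem_biUnion.2 ⟨uT T, huT T h5, hyT T h5⟩
    · rw [if_neg h5]
      by_cases h6 : T ∈ A1
      · rw [if_pos h6]
        exact (hl4 T (hA1P h6) h6).1
      · rw [if_neg h6]
        exact hyb1 T (hA' T hT h5 h6)
  have hvalw : ∀ T ∈ A1 ∪ A2, val T = w (ff T) := by
    intro T hT
    rw [hval, hff]
    simp only
    by_cases h5 : T ∈ A2
    · rw [if_pos h5, if_pos h5]
    · rw [if_neg h5, if_neg h5, if_pos ((mem_union.1 hT).resolve_right h5)]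
  have hval0 : ∀ T ∈ A, T ∉ A1 ∪ A2 → val T = f0 T ∧ T ∈ A0 := by
    intro T hT h5
    rw [mem_union, not_or] at h5
    rw [hval]
    simp only
    rw [if_neg h5.2, if_neg h5.1]
    exact ⟨rfl, hA' T hT h5.2 h5.1⟩
  have hvali : Set.InjOn val A := by
    intro T hT T' hT' h
    rw [mem_coe] at hT hT'
    by_cases h5 : T ∈ A1 ∪ A2 <;> by_cases h6 : T' ∈ A1 ∪ A2
    · rw [hvalw T h5, hvalw T' h6] at h
      exact hffi (mem_coe.2 h5) (mem_coe.2 h6)
        (hM.inj (mem_coe.2 (hffm T h5)) (mem_coe.2 (hffm T' h6)) h)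
    · obtain ⟨h7, h8⟩ := hval0 T' hT' h6
      rw [hvalw T h5, h7] at h
      exact absurd (h ▸ hf0 T' h8) (hM.w0 _ (hffm T h5))
    · obtain ⟨h7, h8⟩ := hval0 T hT h5
      rw [hvalw T' h6, h7] at h
      exact absurd (h ▸ hf0 T h8) (hM.w0 _ (hffm T' h6))
    · obtain ⟨h7, h8⟩ := hval0 T hT h5
      obtain ⟨h9, h10⟩ := hval0 T' hT' h6
      rw [h7, h9] at h
      exact hf0i (mem_coe.2 h8) (mem_coe.2 h10) h
  obtain ⟨occ, θ, g1, g2, g3, g4, g5, g6⟩ := glue hP ho1 hAP hyym hvali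
    (fun T hT => ⟨hl1 T hT, hl2 T hT⟩)
  -- if there are blocks without a member of `M1`, then all of `M1` is used
  have hfull : R0.Nonempty → A1.image f1 = M1 := by
    intro hR
    apply eq_of_subset_of_card_le
    · intro x hx
      obtain ⟨T, hT, rfl⟩ := mem_image.1 hx
      exact hf1 T hT
    · rw [card_image_of_injOn hf1i]
      have := card_pos.2 hR
      omega
  have hmem0 : ∀ T ∈ A0, ∀ u ∈ T, occ0 u ∈ M2 ∪ N := by
    intro T hT u hu
    have h5 := ho2 u (hP.sub (hA0P hT) hu)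
    rw [mem_union, mem_union] at h5
    rw [mem_union]
    rcases h5 with (h5 | h5) | h5
    · exfalso
      rw [← hfull ⟨T, hA0 hT⟩, mem_image] at h5
      obtain ⟨T1, hT1, h6⟩ := h5
      have hT12 : T1 ∈ A1 ∪ A2 := mem_union_left _ hT1
      have hff1 : ff T1 = f1 T1 := by
        rw [hff]
        simp only [if_neg (hd12 T1 hT1)]
      rw [← hff1, ← hdes T1 hT12] at h6
      have h7 := ho1 (mem_coe.2 (hP.sub (hA1P hT1) (hdTm T1 hT12)))
        (mem_coe.2 (hP.sub (hA0P hT) hu)) h6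
      have h8 := hP.uniq (hA1P hT1) (hA0P hT) (hdTm T1 hT12) (h7 ▸ hu)
      exact hd01 T hT (h8 ▸ hT1)
    · exact Or.inl h5
    · exact Or.inr h5
  have hocceq : ∀ T ∈ P, T ∉ A1 → ∀ u ∈ T, occ u = occ0 u := by
    intro T hT h5 u hu
    rw [g3 T hT u hu, hl3 T hT h5]
  refine ⟨occ, A.image yy, θ, ?_⟩
  constructor
  · exact Subset.refl _
  · exact fun u hu _ => hu
  · exact g1
  · rw [g2, ho4, sdiff_empty]
  · exact empty_subset _
  · simp
  · simp
  · simp
  · simp
  · simp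
  · intro y hy
    obtain ⟨T, hT, rfl⟩ := mem_image.1 hy
    exact biUnion_subset_biUnion_of_subset_left _ (hP.sub (hAP hT)) (hyym T hT)
  · simp
  · simp
  · simp
  · exact g5
  · intro y hy
    obtain ⟨T, hT, rfl⟩ := mem_image.1 hy
    rw [g4 T hT]
    by_cases h5 : T ∈ A2
    · right
      rw [hval, hyy]
      simp only
      rw [if_pos h5, if_pos h5]
      exact ⟨hyTF T h5, mem_image_of_mem _ (hf2 T h5)⟩
    · left
      by_cases h6 : T ∈ A1
      · left
        rw [hval]
        simp only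
        rw [if_neg h5, if_pos h6]
        exact mem_image_of_mem _ (hf1 T h6)
      · right
        have h7 := hval0 T hT (by rw [mem_union, not_or]; exact ⟨h6, h5⟩)
        rw [h7.1]
        exact hf0 T h7.2
  · intro y hy v hv hyv
    obtain ⟨T, hT, rfl⟩ := mem_image.1 hy
    have hvT := hP.hit_mem (hAP hT) (hyym T hT) hv hyv
    rw [g4 T hT]
    by_cases h5 : T ∈ A2
    · have h6 : T ∉ A1 := fun h => hd12 T h h5
      have hT12 : T ∈ A1 ∪ A2 := mem_union_right _ h5
      have hy2 : yy T = yT T := by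
        rw [hyy]
        simp only [if_pos h5]
      have hv2 : val T = w (f2 T) := by
        rw [hval]
        simp only [if_pos h5]
      have hd2 : dT T = uT T := by
        rw [hdT]
        simp only [if_pos h5]
      have hf22 : ff T = f2 T := by
        rw [hff]
        simp only [if_pos h5]
      rw [hy2] at hyv ⊢
      have h7 := huq T h5 v hvT hyv
      have h8 : occ v = f2 T := by
        rw [hocceq T (hAP hT) h6 v hvT, h7, ← hd2, hdes T hT12, hf22]
      rw [h8, hv2, h7]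
      exact ⟨fun _ => hrdT T h5, fun h => absurd (hM.adj _ (mem_union_right _ (hf2 T h5))) h⟩
    · by_cases h6 : T ∈ A1
      · have hy1 : yy T = yS T := by
          rw [hyy]
          simp only [if_neg h5, if_pos h6]
        have hv1 : val T = w (f1 T) := by
          rw [hval]
          simp only [if_neg h5, if_pos h6]
        rw [hy1] at hyv ⊢
        rw [hv1, g3 T (hAP hT) v hvT]
        exact (hl4 T (hAP hT) h6).2 v hvT hyv
      · have h7 := hval0 T hT (by rw [mem_union, not_or]; exact ⟨h6, h5⟩)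
        have hy0 : yy T = yb T := by
          rw [hyy]
          simp only [if_neg h5, if_neg h6]
        rw [hy0] at hyv ⊢
        rw [h7.1, hocceq T (hAP hT) h6 v hvT]
        have h8 : ¬ Rd (occ0 v) (f0 T) := hM.blue _ (hmem0 T h7.2 v hvT) _ (hf0 T h7.2)
        exact ⟨fun h => absurd h h8, fun _ => hyb2 T h7.2 v hvT hyv⟩
  · simp
  · -- the count
    by_cases hall : A0.card = R0.card
    · left
      have hA0R : A0 = R0 := eq_of_subset_of_card_le hA0 hall.ge
      rw [union_empty]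
      apply hP.card_sdiff_le
      intro T hT
      apply block_count hU hP hT
      intro ht
      have hTA : T ∈ A := by
        rw [hA, mem_union, mem_union]
        by_cases h5 : T ∈ A2
        · exact Or.inr (Or.inr h5)
        · by_cases h6 : T ∈ A1
          · exact Or.inr (Or.inl h6)
          · left
            rw [hA0R, hR0, mem_sdiff, mem_sdiff]
            exact ⟨⟨mem_filter.2 ⟨hT, ht⟩, h5⟩, h6⟩
      exact ⟨yy T, hyym T hTA, mem_image_of_mem _ hTA⟩
    · right
      have hW : A0.card = W0.card := by omega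
      have hR : R0.Nonempty := by
        rw [← card_pos]
        omega
      intro x hx
      rcases hx with hx | hx
      · rw [mem_image] at hx
        obtain ⟨i, hi, rfl⟩ := hx
        rw [← hfull hR, mem_image] at hi
        obtain ⟨T, hT, rfl⟩ := hi
        have hTA : T ∈ A := by
          rw [hA, mem_union, mem_union]
          exact Or.inr (Or.inl hT)
        refine mem_image.2 ⟨yy T, mem_image_of_mem _ hTA, ?_⟩
        rw [g4 T hTA, hval]
        simp only [if_neg (hd12 T hT), if_pos hT]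
      · have h5 : A0.image f0 = W0 := by
          apply eq_of_subset_of_card_le
          · intro x hx
            obtain ⟨T, hT, rfl⟩ := mem_image.1 hx
            exact hf0 T hT
          · rw [card_image_of_injOn hf0i, hW]
        rw [← h5, mem_image] at hx
        obtain ⟨T, hT, rfl⟩ := hx
        have hTA : T ∈ A := by
          rw [hA, mem_union]
          exact Or.inl hT
        refine mem_image.2 ⟨yy T, mem_image_of_mem _ hTA, ?_⟩
        rw [g4 T hTA, hval]
        simp only [if_neg (hd02 T hT), if_neg (hd01 T hT)]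
  · -- the number of saved vertices for `W0`
    rw [card_empty, add_zero]
    have h5 : (A.image yy).filter (fun y => θ y ∈ W0) ⊆ A0.image yy := by
      intro y hy
      rw [mem_filter, mem_image] at hy
      obtain ⟨⟨T, hT, rfl⟩, h6⟩ := hy
      rw [g4 T hT] at h6
      by_cases h7 : T ∈ A1 ∪ A2
      · rw [hvalw T h7] at h6
        exact absurd h6 (hM.w0 _ (hffm T h7))
      · exact mem_image_of_mem _ (hval0 T hT h7).2
    have h6 := (card_le_card h5).trans card_image_le
    have h7 : (A0.image (fun T => occ0 (pT T))).card = A0.card := by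
      apply card_image_of_injOn
      intro T hT T' hT' h
      rw [mem_coe] at hT hT'
      have h8 := ho1 (mem_coe.2 (hP.sub (hA0P hT) (hpT T (hA0P hT))))
        (mem_coe.2 (hP.sub (hA0P hT') (hpT T' (hA0P hT')))) h
      exact hP.uniq (hA0P hT) (hA0P hT') (hpT T (hA0P hT)) (by rw [h8]; exact hpT T' (hA0P hT'))
    have h8 : A0.image (fun T => occ0 (pT T)) ⊆ M2 ∪ N := by
      intro x hx
      obtain ⟨T, hT, rfl⟩ := mem_image.1 hx
      exact hmem0 T hT _ (hpT T (hA0P hT))
    have h9 := (card_le_card h8).trans (card_union_le _ _)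
    omega

end cases

section caseTwo

variable {H : W → Finset W} {U : Finset W} {rd bl : W → W → Prop} {c : W → ℤ} {Free : W → Prop}
  {FF Xb : Finset W} {Nm : W → W → Prop}
  {M1 M2 N W0 : Finset V} {w : V → V} {Rd : V → V → Prop} {P : Finset (Finset W)}

theorem caseII [Nonempty V] [Nonempty W] (hU : Picks H U rd bl c Free FF Xb Nm)
    (hM : Members U Xb M1 M2 N W0 w Rd) (hP : Blocks H U P)
    (hlt : M1.card + M2.card < (P.filter (fun T => Tight H Free T ∧ NB H bl T)).card) :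
    ∃ (U' : Finset W) (occ : W → V) (Dr : Finset V) (ψ : V → W) (Sv Yr : Finset W) (θ : W → V),
      Out H U rd bl c FF Xb Nm M1 M2 N W0 w Rd U' occ Dr ψ Sv Yr θ := by
  set PT := P.filter (fun T => Tight H Free T) with hPT
  set Pp := P.filter (fun T => Tight H Free T ∧ NB H bl T) with hPp
  have hPpPT : Pp ⊆ PT := by
    intro T hT
    rw [hPp, mem_filter] at hT
    exact mem_filter.2 ⟨hT.1, hT.2.1⟩
  have hPTP : PT ⊆ P := filter_subset _ _
  have hPpP : Pp ⊆ P := filter_subset _ _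
  have hM12 : (M1 ∪ M2).card = M1.card + M2.card := card_union_of_disjoint hM.d12
  -- the blocks with a vertex of `Xb`
  set PX := Pp.filter (fun T => ∃ u ∈ T, u ∈ Xb) with hPX
  have hPXc : PX.card ≤ M1.card + M2.card := by
    refine le_trans ?_ hM.xb
    have h1 : ∀ T ∈ PX, ∃ u, u ∈ T ∧ u ∈ Xb := by
      intro T hT
      obtain ⟨u, hu, hX⟩ := (mem_filter.1 hT).2
      exact ⟨u, hu, hX⟩
    choose! x hx1 hx2 using h1
    have hPXP : ∀ T ∈ PX, T ∈ P := fun T hT => hPpP (filter_subset _ _ hT)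
    apply card_le_card_of_injOn x
    · intro T hT
      rw [mem_coe] at hT
      exact mem_coe.2 (mem_filter.2 ⟨hP.sub (hPXP T hT) (hx1 T hT), hx2 T hT⟩)
    · intro T hT T' hT' h
      rw [mem_coe] at hT hT'
      exact hP.uniq (hPXP T hT) (hPXP T' hT') (hx1 T hT) (by rw [h]; exact hx1 T' hT')
  obtain ⟨A, hAa, hAb, hAc⟩ := exists_subsuperset_card_eq
    (show PX ⊆ Pp from filter_subset _ _) hPXc hlt.le
  set B := Pp \ A with hB
  set PN := PT \ Pp with hPN
  obtain ⟨A0, hA0, hA0c⟩ := exists_subset_card_eq (show min W0.card PN.card ≤ PN.card from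
    min_le_right _ _)
  have hAP : A ⊆ P := hAb.trans hPpP
  have hBPp : B ⊆ Pp := sdiff_subset
  have hBP : B ⊆ P := hBPp.trans hPpP
  have hPNP : PN ⊆ P := sdiff_subset.trans hPTP
  have hA0P : A0 ⊆ P := hA0.trans hPNP
  have hAB : ∀ T ∈ B, T ∉ A := fun T hT => (mem_sdiff.1 hT).2
  have hA0Pp : ∀ T ∈ A0, T ∉ Pp := fun T hT => (mem_sdiff.1 (hA0 hT)).2
  have htA : ∀ T ∈ Pp, Tight H Free T ∧ NB H bl T := fun T hT => (mem_filter.1 hT).2
  have hPNnb : ∀ T ∈ PN, Tight H Free T ∧ ¬ NB H bl T := by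
    intro T hT
    rw [hPN, mem_sdiff] at hT
    have ht := (mem_filter.1 hT.1).2
    exact ⟨ht, fun hnb => hT.2 (mem_filter.2 ⟨hPTP hT.1, ht, hnb⟩)⟩
  obtain ⟨ff, hff, hffi⟩ := exists_inj (A := A) (B := M1 ∪ M2) (by omega)
  obtain ⟨f0, hf0, hf0i⟩ := exists_inj (A := A0) (B := W0) (by omega)
  have hffull : A.image ff = M1 ∪ M2 := by
    apply eq_of_subset_of_card_le
    · intro x hx
      obtain ⟨T, hT, rfl⟩ := mem_image.1 hx
      exact hff T hT
    · rw [card_image_of_injOn hffi]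
      omega
  -- the private hits
  have hpriv : ∀ T ∈ A, ∃ u ∈ T, ∃ y ∈ H u, y ∈ FF ∧ (∀ v ∈ T, y ∈ H v → v = u) ∧ rd u y :=
    fun T hT => block_data hU hP (hAP hT) (htA T (hAb hT)).1 (htA T (hAb hT)).2
  choose! uT huT yT hyT hyTF huq hrdT using hpriv
  have hne : ∀ T ∈ P, ∃ u, u ∈ T := fun T hT => hP.ne T hT
  choose! pT hpT using hne
  have hblk : ∀ u ∈ U, ∃ T ∈ P, u ∈ T := fun u hu => hP.exists_blk hu
  choose! blk hb1 hb2 using hblk
  have hbuniq : ∀ T ∈ P, ∀ u ∈ T, blk u = T := by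
    intro T hT u hu
    have huU := hP.sub hT hu
    exact hP.uniq (hb1 u huU) hT (hb2 u huU) hu
  have huTb : ∀ T ∈ A, blk (uT T) = T := fun T hT => hbuniq T (hAP hT) _ (huT T hT)
  have hMemc : (M1 ∪ M2 ∪ N).card = U.card := by
    rw [card_union_of_disjoint, card_union_of_disjoint hM.d12, hM.card]
    rw [disjoint_union_left]
    exact ⟨hM.d1N, hM.d2N⟩
  obtain ⟨occ0, ho1, ho2, ho3, ho4⟩ := exists_occ hMemc (D := A.image uT)
    (by
      intro u hu
      obtain ⟨T, hT, rfl⟩ := mem_image.1 hu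
      exact hP.sub (hAP hT) (huT T hT)) (g := fun u => ff (blk u))
    (by
      intro u hu
      obtain ⟨T, hT, rfl⟩ := mem_image.1 hu
      simp only [huTb T hT]
      exact mem_union_left _ (hff T hT))
    (by
      intro u hu u' hu' h
      rw [mem_coe, mem_image] at hu hu'
      obtain ⟨T, hT, rfl⟩ := hu
      obtain ⟨T', hT', rfl⟩ := hu'
      simp only [huTb T hT, huTb T' hT'] at h
      rw [hffi (mem_coe.2 hT) (mem_coe.2 hT') h])
  have hdes : ∀ T ∈ A, occ0 (uT T) = ff T := by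
    intro T hT
    rw [ho3 _ (mem_image_of_mem _ hT)]
    simp only [huTb T hT]
  -- the members of the other blocks are in `N`
  have hmemN : ∀ T ∈ P, T ∉ A → ∀ u ∈ T, occ0 u ∈ N := by
    intro T hT hTA u hu
    have h5 := ho2 u (hP.sub hT hu)
    rw [mem_union] at h5
    rcases h5 with h5 | h5
    · exfalso
      rw [← hffull, mem_image] at h5
      obtain ⟨T1, hT1, h6⟩ := h5
      rw [← hdes T1 hT1] at h6
      have h7 := ho1 (mem_coe.2 (hP.sub (hAP hT1) (huT T1 hT1)))
        (mem_coe.2 (hP.sub hT hu)) h6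
      have h8 := hP.uniq (hAP hT1) hT (huT T1 hT1) (h7 ▸ hu)
      exact hTA (h8 ▸ hT1)
    · exact h5
  -- the dropped blocks
  have hdrop : ∀ T ∈ B, ∃ Z, Z ⊆ T.biUnion H ∩ FF ∧ Z.card = T.card ∧
      ∀ z ∈ Z, ∀ y, Nm z y → y ∈ T.biUnion H ∧ y ∉ Z := by
    intro T hT
    have h1 := (htA T (hBPp hT)).1.1
    apply hU.kill T (hP.sub (hBP hT))
    intro u hu
    refine ⟨h1 u hu, fun hX => hAB T hT (hAa (mem_filter.2 ⟨hBPp hT, u, hu, hX⟩))⟩
  choose! ZT hZ1 hZ2 hZ3 using hdrop
  have hemb : ∀ T ∈ B, ∃ e : W → W, (∀ u ∈ T, e u ∈ ZT T) ∧ Set.InjOn e T := fun T hT =>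
    exists_inj (hZ2 T hT).ge
  choose! eT he1 he2 using hemb
  set UB := B.biUnion id with hUB
  have hUBm : ∀ u, u ∈ UB ↔ ∃ T ∈ B, u ∈ T := by
    intro u
    rw [hUB, mem_biUnion]
    rfl
  have hUBU : UB ⊆ U := by
    intro u hu
    obtain ⟨T, hT, hu⟩ := (hUBm u).1 hu
    exact hP.sub (hBP hT) hu
  set Dr := UB.image occ0 with hDr
  have hDrm : ∀ m ∈ Dr, ∃ u, u ∈ UB ∧ occ0 u = m := by
    intro m hm
    obtain ⟨u, hu, h⟩ := mem_image.1 hm
    exact ⟨u, hu, h⟩
  choose! iv hiv1 hiv2 using hDrm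
  have hivT : ∀ m ∈ Dr, blk (iv m) ∈ B ∧ iv m ∈ blk (iv m) := by
    intro m hm
    obtain ⟨T, hT, hu⟩ := (hUBm _).1 (hiv1 m hm)
    rw [hbuniq T (hBP hT) _ hu]
    exact ⟨hT, hu⟩
  set ψ : V → W := fun m => eT (blk (iv m)) (iv m) with hψ
  have hψZ : ∀ m ∈ Dr, ψ m ∈ ZT (blk (iv m)) := fun m hm =>
    he1 _ (hivT m hm).1 _ (hivT m hm).2
  have hψY : ∀ m ∈ Dr, ψ m ∈ (blk (iv m)).biUnion H ∧ ψ m ∈ FF := fun m hm =>
    mem_inter.1 (hZ1 _ (hivT m hm).1 (hψZ m hm))
  set U' := U \ UB with hU'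
  -- the all-blue vertices
  have hab : ∀ T ∈ A0, ∃ y ∈ T.biUnion H, ∀ u ∈ T, y ∈ H u → bl u y := by
    intro T hT
    have := (hPNnb T (hA0 hT)).2
    unfold NB at this
    push Not at this
    exact this
  choose! yb hyb1 hyb2 using hab
  set AA := A0 ∪ A with hAA
  have hAAP : AA ⊆ P := union_subset hA0P hAP
  have hA0A : ∀ T ∈ A0, T ∉ A := fun T hT h => hA0Pp T hT (hAb h)
  have hAAB : ∀ T ∈ AA, T ∉ B := by
    intro T hT hTB
    rw [hAA, mem_union] at hT
    rcases hT with h | h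
    · exact hA0Pp T h (hBPp hTB)
    · exact hAB T hTB h
  set yy : Finset W → W := fun T => if T ∈ A then yT T else yb T with hyy
  set val : Finset W → V := fun T => if T ∈ A then w (ff T) else f0 T with hval
  have hAA' : ∀ T ∈ AA, T ∉ A → T ∈ A0 := by
    intro T hT h5
    rw [hAA, mem_union] at hT
    exact hT.resolve_right h5
  have hyym : ∀ T ∈ AA, yy T ∈ T.biUnion H := by
    intro T hT
    rw [hyy]
    simp only
    by_cases h5 : T ∈ A
    · rw [if_pos h5]
      exact mem_biUnion.2 ⟨uT T, huT T h5, hyT T h5⟩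
    · rw [if_neg h5]
      exact hyb1 T (hAA' T hT h5)
  have hvali : Set.InjOn val AA := by
    intro T hT T' hT' h
    rw [mem_coe] at hT hT'
    rw [hval] at h
    simp only at h
    by_cases h5 : T ∈ A <;> by_cases h6 : T' ∈ A
    · rw [if_pos h5, if_pos h6] at h
      exact hffi (mem_coe.2 h5) (mem_coe.2 h6)
        (hM.inj (mem_coe.2 (hff T h5)) (mem_coe.2 (hff T' h6)) h)
    · rw [if_pos h5, if_neg h6] at h
      exact absurd (h ▸ hf0 T' (hAA' T' hT' h6)) (hM.w0 _ (hff T h5))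
    · rw [if_neg h5, if_pos h6] at h
      exact absurd (h ▸ hf0 T (hAA' T hT h5)) (hM.w0 _ (hff T' h6))
    · rw [if_neg h5, if_neg h6] at h
      exact hf0i (mem_coe.2 (hAA' T hT h5)) (mem_coe.2 (hAA' T' hT' h6)) h
  obtain ⟨_, θ, _, _, _, g4, g5, _⟩ := glue hP ho1 hAAP hyym hvali (occT := fun _ => occ0)
    (fun T hT => ⟨ho1.mono (by exact_mod_cast hP.sub hT), fun u hu => mem_image_of_mem _ hu⟩)
  set Yr := B.biUnion (fun T => T.biUnion H \ ZT T) with hYr
  have hYrm : ∀ y, y ∈ Yr ↔ ∃ T ∈ B, y ∈ T.biUnion H ∧ y ∉ ZT T := by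
    intro y
    rw [hYr, mem_biUnion]
    simp only [mem_sdiff]
  have hU'B : ∀ v ∈ U', ∀ T ∈ B, v ∉ T := by
    intro v hv T hT hvT
    exact (mem_sdiff.1 hv).2 ((hUBm v).2 ⟨T, hT, hvT⟩)
  refine ⟨U', occ0, Dr, ψ, AA.image yy, Yr, θ, ?_⟩
  constructor
  · exact sdiff_subset
  · intro u hu hX
    refine mem_sdiff.2 ⟨hu, fun h => ?_⟩
    obtain ⟨T, hT, huT'⟩ := (hUBm u).1 h
    exact hAB T hT (hAa (mem_filter.2 ⟨hBPp hT, u, huT', hX⟩))
  · exact ho1.mono (by exact_mod_cast sdiff_subset)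
  · rw [hU', hDr, ← ho4]
    ext m
    simp only [mem_image, mem_sdiff, not_exists, not_and]
    constructor
    · rintro ⟨u, ⟨hu, huB⟩, rfl⟩
      refine ⟨⟨u, hu, rfl⟩, fun x hx hxu => huB ?_⟩
      rw [← ho1 (mem_coe.2 (hUBU hx)) (mem_coe.2 hu) hxu]
      exact hx
    · rintro ⟨⟨u, hu, rfl⟩, h⟩
      exact ⟨u, ⟨hu, fun huB => h u huB rfl⟩, rfl⟩
  · intro m hm
    obtain ⟨u, hu, rfl⟩ := mem_image.1 hm
    obtain ⟨T, hT, huT'⟩ := (hUBm u).1 hu
    exact hmemN T (hBP hT) (hAB T hT) u huT'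
  · intro m hm m' hm' h
    rw [mem_coe] at hm hm'
    have h1 := hP.uniqH (hBP (hivT m hm).1) (hBP (hivT m' hm').1) (hψY m hm).1
      (by rw [h]; exact (hψY m' hm').1)
    have h2 : iv m = iv m' := by
      apply he2 _ (hivT m hm).1 (mem_coe.2 (hivT m hm).2)
      · rw [h1]
        exact mem_coe.2 (hivT m' hm').2
      · rw [hψ] at h
        simp only at h
        rw [h, h1]
    rw [← hiv2 m hm, ← hiv2 m' hm', h2]
  · intro m hm
    exact ⟨(hψY m hm).2, biUnion_subset_biUnion_of_subset_left _ (hP.sub (hBP (hivT m hm).1))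
      (hψY m hm).1⟩
  · intro m hm v hv hyv
    have := hP.hit_mem (hBP (hivT m hm).1) (hψY m hm).1 (mem_sdiff.1 hv).1 hyv
    exact hU'B v hv _ (hivT m hm).1 this
  · intro m hm y hy
    obtain ⟨h1, h2⟩ := hZ3 _ (hivT m hm).1 _ (hψZ m hm) y hy
    exact (hYrm y).2 ⟨_, (hivT m hm).1, h1, h2⟩
  · intro m hm
    constructor
    · intro h
      obtain ⟨T, hT, h1⟩ := mem_image.1 h
      have h2 := hP.uniqH (hAAP hT) (hBP (hivT m hm).1) (hyym T hT) (by rw [h1]; exact (hψY m hm).1)
      exact hAAB T hT (h2 ▸ (hivT m hm).1)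
    · intro h
      obtain ⟨T, hT, h1, h2⟩ := (hYrm _).1 h
      have h3 := hP.uniqH (hBP hT) (hBP (hivT m hm).1) h1 (hψY m hm).1
      rw [h3] at h2
      exact h2 (hψZ m hm)
  · intro y hy
    obtain ⟨T, hT, rfl⟩ := mem_image.1 hy
    exact biUnion_subset_biUnion_of_subset_left _ (hP.sub (hAAP hT)) (hyym T hT)
  · intro y hy
    obtain ⟨T, hT, h1, _⟩ := (hYrm y).1 hy
    exact biUnion_subset_biUnion_of_subset_left _ (hP.sub (hBP hT)) h1
  · rw [Finset.disjoint_left]
    intro y hy hy'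
    obtain ⟨T, hT, rfl⟩ := mem_image.1 hy
    obtain ⟨T', hT', h1, _⟩ := (hYrm _).1 hy'
    have h2 := hP.uniqH (hAAP hT) (hBP hT') (hyym T hT) h1
    exact hAAB T hT (h2 ▸ hT')
  · intro y hy v hv hyv
    obtain ⟨T, hT, h1, _⟩ := (hYrm y).1 hy
    exact hU'B v hv T hT (hP.hit_mem (hBP hT) h1 (mem_sdiff.1 hv).1 hyv)
  · exact g5
  · intro y hy
    obtain ⟨T, hT, rfl⟩ := mem_image.1 hy
    rw [g4 T hT, hval]
    simp only
    by_cases h5 : T ∈ A
    · rw [if_pos h5]
      rcases mem_union.1 (hff T h5) with h6 | h6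
      · exact Or.inl (Or.inl (mem_image_of_mem _ h6))
      · right
        rw [hyy]
        simp only [if_pos h5]
        exact ⟨hyTF T h5, mem_image_of_mem _ h6⟩
    · rw [if_neg h5]
      exact Or.inl (Or.inr (hf0 T (hAA' T hT h5)))
  · intro y hy v hv hyv
    obtain ⟨T, hT, rfl⟩ := mem_image.1 hy
    have hvT := hP.hit_mem (hAAP hT) (hyym T hT) (mem_sdiff.1 hv).1 hyv
    rw [g4 T hT]
    by_cases h5 : T ∈ A
    · have hy2 : yy T = yT T := by
        rw [hyy]
        simp only [if_pos h5]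
      have hv2 : val T = w (ff T) := by
        rw [hval]
        simp only [if_pos h5]
      rw [hy2] at hyv ⊢
      have h7 := huq T h5 v hvT hyv
      rw [h7, hdes T h5, hv2]
      exact ⟨fun _ => hrdT T h5, fun h => absurd (hM.adj _ (hff T h5)) h⟩
    · have h6 := hAA' T hT h5
      have hy0 : yy T = yb T := by
        rw [hyy]
        simp only [if_neg h5]
      have hv0 : val T = f0 T := by
        rw [hval]
        simp only [if_neg h5]
      rw [hy0] at hyv ⊢
      rw [hv0]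
      have h8 : ¬ Rd (occ0 v) (f0 T) := hM.blue _
        (mem_union_right _ (hmemN T (hAAP hT) h5 v hvT)) _ (hf0 T h6)
      exact ⟨fun h => absurd h h8, fun _ => hyb2 T h6 v hvT hyv⟩
  · intro _ m hm
    rw [← hffull, mem_image] at hm
    obtain ⟨T, hT, rfl⟩ := hm
    have hTA : T ∈ AA := mem_union_right _ hT
    refine ⟨yy T, mem_image_of_mem _ hTA, ?_, ?_⟩
    · rw [hyy]
      simp only [if_pos hT]
      exact hyTF T hT
    · rw [g4 T hTA, hval]
      simp only [if_pos hT]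
  · -- the count
    by_cases hall : A0.card = PN.card
    · left
      have hA0R : A0 = PN := eq_of_subset_of_card_le hA0 hall.ge
      apply hP.card_sdiff_le
      intro T hT
      by_cases hTB : T ∈ B
      · -- a dropped block
        have ht := (htA T (hBPp hTB)).1.1
        have h1 : (T.biUnion H) \ (AA.image yy ∪ Yr) ⊆ ZT T := by
          intro y hy
          rw [mem_sdiff, mem_union, not_or] at hy
          by_contra hcon
          exact hy.2.2 ((hYrm y).2 ⟨T, hTB, hy.1, hcon⟩)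
        have h2 := card_le_card h1
        rw [hZ2 T hTB] at h2
        have h3 : ∑ u ∈ T, (1 : ℤ) ≤ ∑ u ∈ T, c u := by
          apply sum_le_sum
          intro u hu
          apply hU.hpos u (hP.sub hT hu) (ht u hu)
          exact fun hX => hAB T hTB (hAa (mem_filter.2 ⟨hBPp hTB, u, hu, hX⟩))
        rw [sum_const, nsmul_eq_mul, mul_one] at h3
        have h4 : (((T.biUnion H) \ (AA.image yy ∪ Yr)).card : ℤ) ≤ T.card := by exact_mod_cast h2
        linarith
      · apply block_count hU hP hT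
        intro ht
        have hTA : T ∈ AA := by
          rw [hAA, mem_union]
          by_cases h5 : T ∈ Pp
          · right
            by_contra h6
            exact hTB (mem_sdiff.2 ⟨h5, h6⟩)
          · left
            rw [hA0R]
            exact mem_sdiff.2 ⟨mem_filter.2 ⟨hT, ht⟩, h5⟩
        exact ⟨yy T, hyym T hTA, mem_union_left _ (mem_image_of_mem _ hTA)⟩
    · right
      have hW : A0.card = W0.card := by omega
      intro x hx
      rcases hx with hx | hx
      · rw [mem_image] at hx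
        obtain ⟨i, hi, rfl⟩ := hx
        have hi' : i ∈ M1 ∪ M2 := mem_union_left _ hi
        rw [← hffull, mem_image] at hi'
        obtain ⟨T, hT, rfl⟩ := hi'
        have hTA : T ∈ AA := mem_union_right _ hT
        refine mem_image.2 ⟨yy T, mem_image_of_mem _ hTA, ?_⟩
        rw [g4 T hTA, hval]
        simp only [if_pos hT]
      · have h5 : A0.image f0 = W0 := by
          apply eq_of_subset_of_card_le
          · intro x hx
            obtain ⟨T, hT, rfl⟩ := mem_image.1 hx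
            exact hf0 T hT
          · rw [card_image_of_injOn hf0i, hW]
        rw [← h5, mem_image] at hx
        obtain ⟨T, hT, rfl⟩ := hx
        have hTA : T ∈ AA := mem_union_left _ hT
        refine mem_image.2 ⟨yy T, mem_image_of_mem _ hTA, ?_⟩
        rw [g4 T hTA, hval]
        simp only [if_neg (hA0A T hT)]
  · -- the number of saved vertices for `W0`
    have h5 : (AA.image yy).filter (fun y => θ y ∈ W0) ⊆ A0.image yy := by
      intro y hy
      rw [mem_filter, mem_image] at hy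
      obtain ⟨⟨T, hT, rfl⟩, h6⟩ := hy
      by_cases h7 : T ∈ A
      · rw [g4 T hT, hval] at h6
        simp only [if_pos h7] at h6
        exact absurd h6 (hM.w0 _ (hff T h7))
      · exact mem_image_of_mem _ (hAA' T hT h7)
    have h6 := (card_le_card h5).trans card_image_le
    have h7 : (A0.image (fun T => occ0 (pT T))).card = A0.card := by
      apply card_image_of_injOn
      intro T hT T' hT' h
      rw [mem_coe] at hT hT'
      have h8 := ho1 (mem_coe.2 (hP.sub (hA0P hT) (hpT T (hA0P hT))))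
        (mem_coe.2 (hP.sub (hA0P hT') (hpT T' (hA0P hT')))) h
      exact hP.uniq (hA0P hT) (hA0P hT') (hpT T (hA0P hT)) (by rw [h8]; exact hpT T' (hA0P hT'))
    have h8 : A0.image (fun T => occ0 (pT T)) ∪ Dr ⊆ N := by
      intro x hx
      rw [mem_union] at hx
      rcases hx with hx | hx
      · obtain ⟨T, hT, rfl⟩ := mem_image.1 hx
        exact hmemN T (hA0P hT) (hA0A T hT) _ (hpT T (hA0P hT))
      · obtain ⟨u, hu, rfl⟩ := mem_image.1 hx
        obtain ⟨T, hT, huT'⟩ := (hUBm u).1 hu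
        exact hmemN T (hBP hT) (hAB T hT) u huT'
    have h9 : Disjoint (A0.image (fun T => occ0 (pT T))) Dr := by
      rw [Finset.disjoint_left]
      intro x hx hx'
      obtain ⟨T, hT, rfl⟩ := mem_image.1 hx
      obtain ⟨u, hu, h10⟩ := mem_image.1 hx'
      obtain ⟨T', hT', huT'⟩ := (hUBm u).1 hu
      have h11 := ho1 (mem_coe.2 (hUBU hu)) (mem_coe.2 (hP.sub (hA0P hT) (hpT T (hA0P hT)))) h10
      have h12 := hP.uniq (hBP hT') (hA0P hT) huT' (by rw [h11]; exact hpT T (hA0P hT))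
      exact hA0Pp T hT (h12 ▸ hBPp hT')
    have h10 := card_le_card h8
    rw [card_union_of_disjoint h9, h7] at h10
    omega

end caseTwo

section final

variable {H : W → Finset W} {U : Finset W} {rd bl : W → W → Prop} {c : W → ℤ} {Free : W → Prop}
  {FF Xb : Finset W} {Nm : W → W → Prop}
  {M1 M2 N W0 : Finset V} {w : V → V} {Rd : V → V → Prop}

/-- **The distribution theorem.** -/
theorem trees [Nonempty V] [Nonempty W] (hU : Picks H U rd bl c Free FF Xb Nm)
    (hM : Members U Xb M1 M2 N W0 w Rd) :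
    ∃ (U' : Finset W) (occ : W → V) (Dr : Finset V) (ψ : V → W) (Sv Yr : Finset W) (θ : W → V),
      Out H U rd bl c FF Xb Nm M1 M2 N W0 w Rd U' occ Dr ψ Sv Yr θ := by
  obtain ⟨P, hP⟩ := exists_blocks H U
  rcases Nat.lt_or_ge (M1.card + M2.card)
    (P.filter (fun T => Tight H Free T ∧ NB H bl T)).card with h | h
  · exact caseII hU hM hP h
  · obtain ⟨occ, Sv, θ, h1⟩ := caseI hU hM hP h
    exact ⟨_, _, _, _, _, _, _, h1⟩

end final

end TR

end Pool.Agent.Lib.MP_a05470_co
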