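import Pool.Agent.Lib.MP_a05470_co.FP.LevM
import Pool.Agent.Lib.MP_a05470_co.FP.Trees
import Pool.Agent.Lib.MP_a05470_co.TF.Outside

/-!
# From the distribution of the members to their places

The places of the outside vertices (picks, or vertices of the family for the dropped ones) and
their relations to the free vertices of the family, of the clique and to the saved vertices.
-/

set_option autoImplicit false
set_option linter.unusedSectionVars false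

namespace Pool.Agent.Lib.MP_a05470_co

open Finset Classical

namespace LM

open L1

variable {W : Type} [Fintype W] {Gr Gb : SimpleGraph W}

variable (Gr Gb) in
/-- the mates in the family -/
def Nm (F : Finset W) (z y : W) : Prop := z ∈ F ∧ y ∈ F ∧ y ≠ z ∧ ¬ Gn Gr Gb z y

variable (Gr Gb) in
/-- the host side: a family, a transversal of its red pairs, a clique -/
structure Host (F Xb K : Finset W) (mt : W → W) : Prop where
  good : Good Gr Gb F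
  tv : Tv Gr Gb F Xb mt
  KF : Disjoint K F
  cl : ∀ z ∈ K, ∀ z' ∈ K, z ≠ z' → Gb.Adj z z'
  blue : ∀ z ∈ K, ∀ y ∈ F, Gb.Adj z y
  green : ∀ z ∈ K, ∀ x ∈ Xb, Gn Gr Gb z x

/-- outside the transversal all pairs are blue -/
theorem Host.FF_blue {F Xb K : Finset W} {mt : W → W} (h : Host Gr Gb F Xb K mt) {y z : W}
    (hy : y ∈ F \ Xb) (hz : z ∈ F \ Xb) (hne : y ≠ z) : Gb.Adj y z := by
  rw [mem_sdiff] at hy hz
  by_contra hcon
  have h1 : y ∈ RR Gb F := mem_filter.2 ⟨hy.1, z, hz.1, Ne.symm hne, hcon⟩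
  have h2 := h.tv.out y h1 hy.2
  obtain ⟨k1, k2, k3, k4, k5, k6⟩ := h.tv.mate y h1
  by_cases h3 : z = mt y
  · exact hz.2 (h3 ▸ h2)
  · exact hcon (k5 z hz.1 (Ne.symm hne) h3).2

theorem Host.S_blue {F Xb K : Finset W} {mt : W → W} (h : Host Gr Gb F Xb K mt) {y z : W}
    (hy : y ∈ (F \ Xb) ∪ K) (hz : z ∈ (F \ Xb) ∪ K) (hne : y ≠ z) : Gb.Adj y z := by
  rw [mem_union] at hy hz
  rcases hy with hy | hy <;> rcases hz with hz | hz
  · exact h.FF_blue hy hz hne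
  · exact (h.blue z hz y (mem_sdiff.1 hy).1).symm
  · exact h.blue y hy z (mem_sdiff.1 hz).1
  · exact h.cl y hy z hz hne

section place

variable {V : Type} {R : SimpleGraph V} {F Xb K : Finset W} {mt : W → W} {U : Finset W}
  {c : W → ℤ} {M1 M2 N W0 : Finset V} {w : V → V} {U' : Finset W} {occ : W → V}
  {Dr : Finset V} {ψ : V → W} {Sv Yr : Finset W} {θ : W → V}

/-- **The places of the members.** -/
theorem place' [Nonempty W] (hH : Host Gr Gb F Xb K mt)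
    (hUc : ∀ u ∈ U, ∀ v ∈ U, u ≠ v → Gn Gr Gb u v)
    (hblue : ∀ u ∈ M2 ∪ N, ∀ x ∈ W0, ¬ R.Adj u x)
    (hO : TR.Out (fun u => hit Gr Gb u ((F \ Xb) ∪ K)) U Gr.Adj Gb.Adj c (F \ Xb) Xb (Nm Gr Gb F)
      M1 M2 N W0 w R.Adj U' occ Dr ψ Sv Yr θ) :
    ∃ φ : V → W, (∀ m ∈ M1 ∪ M2 ∪ N, ∀ m' ∈ M1 ∪ M2 ∪ N, m ≠ m' → Gn Gr Gb (φ m) (φ m')) ∧
      (∀ m ∈ M1 ∪ M2 ∪ N, ∀ y ∈ (F \ Xb) \ U.biUnion (fun u => hit Gr Gb u ((F \ Xb) ∪ K)),
        Gn Gr Gb (φ m) y) ∧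
      (∀ m ∈ M1 ∪ M2 ∪ N, ∀ y ∈ (K \ U.biUnion (fun u => hit Gr Gb u ((F \ Xb) ∪ K))) ∪ Yr,
        Gb.Adj (φ m) y ∧ (m ∉ Dr → Gn Gr Gb (φ m) y)) ∧
      (∀ m ∈ M1 ∪ M2 ∪ N, ∀ y ∈ Sv, (R.Adj m (θ y) → Gr.Adj (φ m) y) ∧
        (¬ R.Adj m (θ y) → Gb.Adj (φ m) y)) ∧
      (∀ m ∈ M1 ∪ M2 ∪ N, ∀ y ∈ F \ Xb, y ∈ Yr → (∀ m' ∈ Dr, ¬ Nm Gr Gb F (ψ m') y) →
        Gn Gr Gb (φ m) y) := by
  set S := (F \ Xb) ∪ K with hS
  set H : W → Finset W := fun u => hit Gr Gb u S with hHdef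
  set Y := U.biUnion H with hY
  have hYS : Y ⊆ S := by
    intro y hy
    obtain ⟨u, hu, hy⟩ := mem_biUnion.1 hy
    exact (mem_hit.1 hy).1
  -- the pick of a member
  have hpick : ∀ m ∈ (M1 ∪ M2 ∪ N) \ Dr, ∃ u ∈ U', occ u = m := by
    intro m hm
    rw [← hO.img] at hm
    obtain ⟨u, hu, h⟩ := mem_image.1 hm
    exact ⟨u, hu, h⟩
  choose! pk hpk1 hpk2 using hpick
  set φ : V → W := fun m => if m ∈ Dr then ψ m else pk m with hφ
  have hφD : ∀ m ∈ Dr, φ m = ψ m := fun m hm => by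
    rw [hφ]
    simp only [if_pos hm]
  have hφU : ∀ m ∈ M1 ∪ M2 ∪ N, m ∉ Dr → φ m ∈ U' ∧ occ (φ m) = m := by
    intro m hm hmD
    have h1 : φ m = pk m := by
      rw [hφ]
      simp only [if_neg hmD]
    rw [h1]
    exact ⟨hpk1 m (mem_sdiff.2 ⟨hm, hmD⟩), hpk2 m (mem_sdiff.2 ⟨hm, hmD⟩)⟩
  -- a pick and a place that is not hit
  have hgreen : ∀ u ∈ U', ∀ y ∈ S, y ∉ H u → Gn Gr Gb u y := by
    intro u _ y hy hyu
    by_contra hcon
    exact hyu (mem_hit.2 ⟨hy, hcon⟩)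
  have hψS : ∀ m ∈ Dr, ψ m ∈ S := fun m hm => mem_union_left _ (hO.psi_F m hm).1
  have hψFX : ∀ m ∈ Dr, ψ m ∈ F \ Xb := fun m hm => (hO.psi_F m hm).1
  have hψF : ∀ m ∈ Dr, ψ m ∈ F := fun m hm => (mem_sdiff.1 (hO.psi_F m hm).1).1
  have hψY : ∀ m ∈ Dr, ψ m ∈ Y := fun m hm => (hO.psi_F m hm).2
  have hpickD : ∀ m ∈ M1 ∪ M2 ∪ N, m ∉ Dr → ∀ m' ∈ Dr, Gn Gr Gb (φ m) (ψ m') := by
    intro m hm hmD m' hm'
    obtain ⟨h1, _⟩ := hφU m hm hmD
    exact hgreen _ h1 _ (hψS m' hm') (hO.psi_hit m' hm' _ h1)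
  -- a dropped member and a vertex of the family that is not released
  have hDF : ∀ m ∈ Dr, ∀ y ∈ F, y ≠ ψ m → y ∉ Yr → Gn Gr Gb (ψ m) y := by
    intro m hm y hy hne hyY
    by_contra hcon
    exact hyY (hO.psi_mate m hm y ⟨hψF m hm, hy, hne, hcon⟩)
  refine ⟨φ, ?_, ?_, ?_, ?_, ?_⟩
  · intro m hm m' hm' hne
    by_cases h1 : m ∈ Dr <;> by_cases h2 : m' ∈ Dr
    · rw [hφD m h1, hφD m' h2]
      refine hDF m h1 _ (hψF m' h2) ?_ (hO.psi_not m' h2).2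
      exact fun h => hne (hO.psi_inj (mem_coe.2 h1) (mem_coe.2 h2) h.symm)
    · rw [hφD m h1]
      exact (hpickD m' hm' h2 m h1).symm
    · rw [hφD m' h2]
      exact hpickD m hm h1 m' h2
    · obtain ⟨h3, h4⟩ := hφU m hm h1
      obtain ⟨h5, h6⟩ := hφU m' hm' h2
      apply hUc _ (hO.subU h3) _ (hO.subU h5)
      intro h
      rw [h, h6] at h4
      exact hne h4.symm
  · intro m hm y hy
    rw [mem_sdiff] at hy
    have hyS : y ∈ S := mem_union_left _ hy.1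
    by_cases h1 : m ∈ Dr
    · rw [hφD m h1]
      refine hDF m h1 y (mem_sdiff.1 hy.1).1 ?_ (fun h => hy.2 (hO.yrY h))
      exact fun h => hy.2 (h ▸ hψY m h1)
    · obtain ⟨h3, _⟩ := hφU m hm h1
      apply hgreen _ h3 y hyS
      intro h
      exact hy.2 (mem_biUnion.2 ⟨_, hO.subU h3, h⟩)
  · intro m hm y hy
    have hyS : y ∈ S := by
      rw [mem_union, mem_sdiff] at hy
      rcases hy with hy | hy
      · exact mem_union_right _ hy.1
      · exact hYS (hO.yrY hy)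
    have hpickY : m ∉ Dr → Gn Gr Gb (φ m) y := by
      intro h1
      obtain ⟨h3, _⟩ := hφU m hm h1
      apply hgreen _ h3 y hyS
      rw [mem_union, mem_sdiff] at hy
      rcases hy with hy | hy
      · exact fun h => hy.2 (mem_biUnion.2 ⟨_, hO.subU h3, h⟩)
      · exact hO.yr_hit y hy _ h3
    refine ⟨?_, hpickY⟩
    by_cases h1 : m ∈ Dr
    · rw [hφD m h1]
      apply hH.S_blue (hψS m h1) hyS
      intro h
      rw [mem_union, mem_sdiff] at hy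
      rcases hy with hy | hy
      · exact hy.2 (h ▸ hψY m h1)
      · exact (hO.psi_not m h1).2 (h ▸ hy)
    · exact (hpickY h1).2
  · intro m hm y hy
    have hyS : y ∈ S := hYS (hO.svY hy)
    by_cases h1 : m ∈ Dr
    · rw [hφD m h1]
      have hne : y ≠ ψ m := fun h => (hO.psi_not m h1).1 (h ▸ hy)
      rw [hS, mem_union] at hyS
      rcases hyS with hyF | hyK
      · have h2 := hDF m h1 y (mem_sdiff.1 hyF).1 hne
          (Finset.disjoint_left.1 hO.disj hy)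
        exact ⟨fun _ => h2.1, fun _ => h2.2⟩
      · have hyF : y ∉ F := Finset.disjoint_left.1 hH.KF hyK
        have h2 : θ y ∈ W0 := by
          rcases hO.theta_mem y hy with (h3 | h3) | h3
          · exfalso
            obtain ⟨i, hi, h4⟩ := mem_image.1 h3
            obtain ⟨y', hy', hyF', h5⟩ := hO.drop ⟨m, h1⟩ i (mem_union_left _ hi)
            have h6 := hO.theta_inj (mem_coe.2 hy') (mem_coe.2 hy) (h5.trans h4)
            rw [h6] at hyF'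
            exact hyF (mem_sdiff.1 hyF').1
          · exact h3
          · exact absurd (mem_sdiff.1 h3.1).1 hyF
        have h3 := hblue m (mem_union_right _ (hO.drN h1)) _ h2
        exact ⟨fun h => absurd h h3, fun _ => (hH.blue y hyK _ (hψF m h1)).symm⟩
    · obtain ⟨h3, h4⟩ := hφU m hm h1
      by_cases h5 : y ∈ H (φ m)
      · have h6 := hO.col y hy _ h3 h5
        rw [h4] at h6
        exact h6
      · have h6 := hgreen _ h3 y hyS h5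
        exact ⟨fun _ => h6.1, fun _ => h6.2⟩
  · intro m hm y hy hyY hno
    by_cases h1 : m ∈ Dr
    · rw [hφD m h1]
      by_contra hcon
      refine hno m h1 ⟨hψF m h1, (mem_sdiff.1 hy).1, fun h => ?_, hcon⟩
      exact (hO.psi_not m h1).2 (h ▸ hyY)
    · obtain ⟨h3, _⟩ := hφU m hm h1
      exact hgreen _ h3 y (mem_union_left _ hy) (hO.yr_hit y hyY _ h3)

/-- **The places of the members.** -/
theorem place [Nonempty W] (hH : Host Gr Gb F Xb K mt)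
    (hUc : ∀ u ∈ U, ∀ v ∈ U, u ≠ v → Gn Gr Gb u v)
    (hblue : ∀ u ∈ M2 ∪ N, ∀ x ∈ W0, ¬ R.Adj u x)
    (hO : TR.Out (fun u => hit Gr Gb u ((F \ Xb) ∪ K)) U Gr.Adj Gb.Adj c (F \ Xb) Xb (Nm Gr Gb F)
      M1 M2 N W0 w R.Adj U' occ Dr ψ Sv Yr θ) :
    ∃ φ : V → W, (∀ m ∈ M1 ∪ M2 ∪ N, ∀ m' ∈ M1 ∪ M2 ∪ N, m ≠ m' → Gn Gr Gb (φ m) (φ m')) ∧
      (∀ m ∈ M1 ∪ M2 ∪ N, ∀ y ∈ (F \ Xb) \ U.biUnion (fun u => hit Gr Gb u ((F \ Xb) ∪ K)),
        Gn Gr Gb (φ m) y) ∧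
      (∀ m ∈ M1 ∪ M2 ∪ N, ∀ y ∈ (K \ U.biUnion (fun u => hit Gr Gb u ((F \ Xb) ∪ K))) ∪ Yr,
        Gb.Adj (φ m) y ∧ (m ∉ Dr → Gn Gr Gb (φ m) y)) ∧
      (∀ m ∈ M1 ∪ M2 ∪ N, ∀ y ∈ Sv, (R.Adj m (θ y) → Gr.Adj (φ m) y) ∧
        (¬ R.Adj m (θ y) → Gb.Adj (φ m) y)) := by
  obtain ⟨φ, h1, h2, h3, h4, _⟩ := place' hH hUc hblue hO
  exact ⟨φ, h1, h2, h3, h4⟩

end place

end LM

end Pool.Agent.Lib.MP_a05470_co
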